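import Pool.Agent.Lib.MP_72e2e6_nt.P4.Z.Spec

/-!
# MP_72e2e6_nt, theorem T4, part Z, module Act3: the action on `V[t_j] / (t_j ^ 2)`
-/

namespace Pool.Agent.MP72G

open Finset Pool.Agent.MP72P

private theorem act3_zero {p m : ℕ} [Fact p.Prime] {G V : Type} [AddCommGroup V] (ρV : G → V → V)
    (δ : Fin m → G → ZMod p) (g : G) (hδ : ∀ j, δ j g = 0) (f : Finset (Fin m) → V) :
    rV ρV δ g f = fun I => ρV g (f I) := by
  funext I
  unfold rV
  rw [Finset.sum_eq_single ∅]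
  · rw [Finset.prod_empty, ZMod.val_one, one_smul, Finset.sdiff_empty]
  · intro A _ hA
    obtain ⟨j, hj⟩ := Finset.nonempty_iff_ne_empty.2 hA
    rw [Finset.prod_eq_zero hj (hδ j), ZMod.val_zero, zero_smul]
  · intro h
    exact absurd (Finset.empty_mem_powerset I) h

private theorem act3_mul {p m : ℕ} [Fact p.Prime] {V : Type} [AddCommGroup V] [Module (ZMod p) V]
    (a b : Fin m → ZMod p) (f : Finset (Fin m) → V) (I : Finset (Fin m)) :
    ∑ C ∈ I.powerset, (∏ j ∈ C, (a j + b j)) • f (I \ C) =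
      ∑ A ∈ I.powerset, (∏ j ∈ A, a j) • ∑ B ∈ (I \ A).powerset, (∏ j ∈ B, b j) • f ((I \ A) \ B) := by
  simp_rw [Finset.prod_add, Finset.sum_smul, Finset.smul_sum]
  rw [Finset.sum_sigma', Finset.sum_sigma']
  refine Finset.sum_bij' (fun x _ => ⟨x.2, x.1 \ x.2⟩) (fun x _ => ⟨x.1 ∪ x.2, x.1⟩) ?_ ?_ ?_ ?_ ?_
  · rintro ⟨C, A⟩ h
    simp only [Finset.mem_sigma, Finset.mem_powerset] at h ⊢
    exact ⟨h.2.trans h.1, Finset.sdiff_subset_sdiff h.1 (Finset.Subset.refl _)⟩
  · rintro ⟨A, B⟩ h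
    simp only [Finset.mem_sigma, Finset.mem_powerset] at h ⊢
    exact ⟨Finset.union_subset h.1 (h.2.trans Finset.sdiff_subset), Finset.subset_union_left⟩
  · rintro ⟨C, A⟩ h
    simp only [Finset.mem_sigma, Finset.mem_powerset] at h
    simp only [Finset.union_sdiff_of_subset h.2]
  · rintro ⟨A, B⟩ h
    simp only [Finset.mem_sigma, Finset.mem_powerset] at h
    have h1 : (A ∪ B) \ A = B := by
      rw [Finset.union_sdiff_left]
      exact Finset.sdiff_eq_self_of_disjoint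
        (Finset.disjoint_of_subset_left h.2 Finset.sdiff_disjoint)
    simp only [h1]
  · rintro ⟨C, A⟩ h
    simp only [Finset.mem_sigma, Finset.mem_powerset] at h
    have h1 : (I \ A) \ (C \ A) = I \ C := by
      ext j
      simp only [Finset.mem_sdiff]
      constructor
      · rintro ⟨⟨h1, h2⟩, h3⟩
        exact ⟨h1, fun h4 => h3 ⟨h4, h2⟩⟩
      · rintro ⟨h1, h2⟩
        exact ⟨⟨h1, fun h4 => h2 (h.2 h4)⟩, fun h4 => h2 h4.1⟩
    simp only [h1]
    rw [smul_smul]

theorem tAct3 : S_Act3 := by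
  intro p _ G _ _ _ ω hω V _ _ r hr hp ρV hρ m δ hδ
  letI : Module (ZMod p) V := AddCommGroup.zmodModule hp
  have hval : ∀ (c : ZMod p) (v : V), c.val • v = c • v := by
    intro c v
    conv_rhs => rw [← ZMod.natCast_zmod_val c]
    rw [Nat.cast_smul_eq_nsmul]
  have hδ1 : ∀ j, δ j 1 = 0 := by
    intro j
    have h := (hδ j).add 1 1
    rw [mul_one] at h
    exact left_eq_add.1 h
  have hδp : ∀ j g (n : ℕ), δ j (g ^ n) = n * δ j g := by
    intro j g n
    induction n with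
    | zero => rw [pow_zero, hδ1, Nat.cast_zero, zero_mul]
    | succ n ih =>
      rw [pow_succ, (hδ j).add, ih]
      push_cast
      ring
  have h0 : ∀ g, ρV g 0 = 0 := by
    intro g
    have h := hρ.add g 0 0
    rw [add_zero] at h
    exact left_eq_add.1 h
  let R : G → V →+ V := fun g => ⟨⟨ρV g, h0 g⟩, hρ.add g⟩
  have hR : ∀ g v, R g v = ρV g v := fun g v => rfl
  have hns : ∀ g (n : ℕ) v, ρV g (n • v) = n • ρV g v := by
    intro g n v
    rw [← hR, ← hR, map_nsmul]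
  have hsum : ∀ g {ι : Type} (s : Finset ι) (f : ι → V), ρV g (∑ i ∈ s, f i) = ∑ i ∈ s, ρV g (f i) := by
    intro g ι s f
    rw [← hR, map_sum]
    rfl
  have hiter : ∀ g (a n : ℕ), (∀ x, ρV g x = a • x) → ∀ x, ρV (g ^ n) x = a ^ n • x := by
    intro g a n h
    induction n with
    | zero => intro x; rw [pow_zero, pow_zero, hρ.one, one_smul]
    | succ n ih =>
      intro x
      rw [pow_succ, hρ.mul, ih, h, smul_smul, pow_succ]
  refine ⟨⟨?_, ?_, ?_, ?_, ?_⟩, ?_⟩
  · intro g x y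
    funext I
    change ∑ A ∈ I.powerset, (∏ j ∈ A, δ j g).val • ρV g (x (I \ A) + y (I \ A)) =
      ∑ A ∈ I.powerset, (∏ j ∈ A, δ j g).val • ρV g (x (I \ A)) +
      ∑ A ∈ I.powerset, (∏ j ∈ A, δ j g).val • ρV g (y (I \ A))
    rw [← Finset.sum_add_distrib]
    simp_rw [hρ.add, smul_add]
  · intro x
    rw [act3_zero ρV δ 1 hδ1 x]
    funext I
    rw [hρ.one]
  · intro g h x
    funext I
    change ∑ C ∈ I.powerset, (∏ j ∈ C, δ j (g * h)).val • ρV (g * h) (x (I \ C)) =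
      ∑ A ∈ I.powerset, (∏ j ∈ A, δ j g).val •
        ρV g (∑ B ∈ (I \ A).powerset, (∏ j ∈ B, δ j h).val • ρV h (x ((I \ A) \ B)))
    have h1 : ∀ C : Finset (Fin m), ∏ j ∈ C, δ j (g * h) = ∏ j ∈ C, (δ j g + δ j h) :=
      fun C => Finset.prod_congr rfl fun j _ => (hδ j).add g h
    simp_rw [h1, hsum, hns, hval]
    rw [act3_mul (fun j => δ j g) (fun j => δ j h) (fun J => ρV (g * h) (x J)) I]
    simp_rw [hρ.mul]
  · intro x
    rw [IsLocallyConstant.iff_eventually_eq]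
    intro g
    have h1 : ∀ᶠ y in nhds g, ∀ I : Finset (Fin m), ρV y (x I) = ρV g (x I) :=
      Filter.eventually_all.2 fun I =>
        (IsLocallyConstant.iff_eventually_eq (fun g => ρV g (x I))).1 (hρ.loc (x I)) g
    have h2 : ∀ᶠ y in nhds g, ∀ j, δ j y = δ j g :=
      Filter.eventually_all.2 fun j => (IsLocallyConstant.iff_eventually_eq (δ j)).1 (hδ j).loc g
    filter_upwards [h1, h2] with y h3 h4
    funext I
    unfold rV
    simp_rw [h3, h4]
  · intro g
    obtain ⟨k, hk⟩ := hρ.uni g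
    refine ⟨k + 1, fun x => ?_⟩
    rw [act3_zero ρV δ (g ^ p ^ (k + 1)) (fun j => by
      rw [hδp, pow_succ]
      push_cast
      rw [CharP.cast_eq_zero, mul_zero, zero_mul]) x]
    funext I
    rw [Pi.smul_apply, pow_succ, pow_mul, hiter _ _ p hk, pow_mul]
  · rw [Nat.card_fun, hr, ← pow_mul]
    congr 1
    rw [Nat.card_eq_fintype_card, Fintype.card_finset, Fintype.card_fin]

end Pool.Agent.MP72G
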