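import Pool.Agent.Lib.MP_72e2e6_nt.P4.Z.Spec

/-!
# MP_72e2e6_nt, theorem T4, part Z, module Chz: characters of `N ^ d`
-/

namespace Pool.Agent.MP72G

open Finset Pool.Agent.MP72P

private theorem chz_root {N : ℕ} [NeZero N] {z : ℂ} (h : z ^ N = 1) :
    ∃ x : ZMod N, ZMod.stdAddChar x = z := by
  have hz : IsUnit z := IsUnit.of_pow_eq_one h (NeZero.ne N)
  obtain ⟨u, rfl⟩ := hz
  have h1 : u ∈ rootsOfUnity N ℂ := by
    rw [_root_.mem_rootsOfUnity, Units.ext_iff, Units.val_pow_eq_pow_val, Units.val_one]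
    exact h
  obtain ⟨i, _, hi⟩ := (Complex.mem_rootsOfUnity N u).1 h1
  refine ⟨((i : ℤ) : ZMod N), ?_⟩
  rw [ZMod.stdAddChar_coe, ← hi]
  congr 1
  push_cast
  ring

private theorem chz_std {N : ℕ} [NeZero N] {C : Type} [AddCommGroup C]
    (hC : ∀ c : C, N • c = 0) (χ : AddChar C ℂ) :
    ∃ η : C →+ ZMod N, ∀ c, χ c = ZMod.stdAddChar (η c) := by
  have h1 : ∀ c, ∃ x : ZMod N, ZMod.stdAddChar x = χ c := by
    intro c
    apply chz_root
    rw [← AddChar.map_nsmul_eq_pow, hC, AddChar.map_zero_eq_one]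
  choose f hf using h1
  have h0 : f 0 = 0 := by
    apply ZMod.injective_stdAddChar
    rw [hf, AddChar.map_zero_eq_one, AddChar.map_zero_eq_one]
  have ha : ∀ x y, f (x + y) = f x + f y := by
    intro x y
    apply ZMod.injective_stdAddChar
    rw [hf, AddChar.map_add_eq_mul, AddChar.map_add_eq_mul, hf, hf]
  exact ⟨⟨⟨f, h0⟩, ha⟩, fun c => (hf c).symm⟩

private theorem chz_desc {d : ℕ} {Λ N V : Type} [CommRing Λ] [AddCommGroup N] [Module Λ N]
    [AddCommGroup V] {ζ : Λ} {q : N →+ V} (sur : Function.Surjective q)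
    (ker : ∀ x, q x = 0 ↔ ∃ y, x = (1 - ζ) • y) (e : AddChar (Fin d → N) ℂ)
    (he : ∀ x : Fin d → N, e ((1 - ζ) • x) = 1) :
    ∃ E : AddChar (Fin d → V) ℂ, ∀ x : Fin d → N, e x = E (fun j => q (x j)) := by
  choose s hs using sur
  have key : ∀ x y : Fin d → N, (∀ j, q (x j) = q (y j)) → e x = e y := by
    intro x y h
    have h1 : ∀ j, ∃ z, x j - y j = (1 - ζ) • z := fun j =>
      (ker _).1 (by rw [map_sub, h j, sub_self])
    choose z hz using h1
    have h2 : x = y + (1 - ζ) • z := by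
      funext j
      change x j = y j + (1 - ζ) • z j
      rw [← hz j]
      abel
    rw [h2, AddChar.map_add_eq_mul, he, mul_one]
  refine ⟨{ toFun := fun v => e (fun j => s (v j))
            map_zero_eq_one' := ?_
            map_add_eq_mul' := ?_ }, ?_⟩
  · rw [← AddChar.map_zero_eq_one e]
    refine key _ _ fun j => ?_
    rw [hs, Pi.zero_apply, Pi.zero_apply, map_zero]
  · intro a b
    rw [← AddChar.map_add_eq_mul]
    refine key _ _ fun j => ?_
    rw [hs, Pi.add_apply, Pi.add_apply, map_add, hs, hs]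
  · intro x
    refine key _ _ fun j => ?_
    rw [hs]

theorem tChz (h1 : S_Zac) (h2 : S_Rzc) : S_Chz := by
  classical
  intro p hp G _ _ _ d Λ N V _ _ _ _ _ ζ ω r hcard ρ hω hZ q ρV hR
  have hp0 : p.Prime := hp.out
  have hpn : NeZero p := ⟨hp0.ne_zero⟩
  obtain ⟨-, -, -, ⟨k, hk⟩, -, -, -⟩ := h1 p G Λ N ζ ω r hcard ρ hω hZ
  obtain ⟨hV, -, hpV, -, -, -, -⟩ := (h2 p G Λ N ζ ω r hcard ρ hω hZ).2 V q ρV hR
  constructor
  · intro e
    by_cases h0 : ∀ x : Fin d → N, e ((1 - ζ) • x) = 1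
    · exact Or.inl h0
    right
    have hex : ∃ m : ℕ, ∀ x : Fin d → N, e ((1 - ζ) ^ (m + 1) • x) = 1 := by
      refine ⟨k, fun x => ?_⟩
      have h3 : (1 - ζ) ^ (k + 1) • x = 0 := by
        funext j
        change (1 - ζ) ^ (k + 1) • x j = 0
        rw [pow_succ', mul_smul, hk, smul_zero]
      rw [h3, AddChar.map_zero_eq_one]
    have hfind := Nat.find_spec hex
    obtain ⟨m, hm⟩ : ∃ m, Nat.find hex = m + 1 := by
      rcases Nat.eq_zero_or_pos (Nat.find hex) with h3 | h3
      · exfalso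
        apply h0
        intro x
        have h4 := hfind x
        rw [h3, zero_add, pow_one] at h4
        exact h4
      · exact ⟨Nat.find hex - 1, by omega⟩
    have hnot := Nat.find_min hex (show m < Nat.find hex by omega)
    rw [hm] at hfind
    let e' : AddChar (Fin d → N) ℂ :=
      { toFun := fun x => e ((1 - ζ) ^ (m + 1) • x)
        map_zero_eq_one' := by rw [smul_zero, AddChar.map_zero_eq_one]
        map_add_eq_mul' := fun a b => by rw [smul_add, AddChar.map_add_eq_mul] }
    have he' : ∀ x : Fin d → N, e' ((1 - ζ) • x) = 1 := by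
      intro x
      change e ((1 - ζ) ^ (m + 1) • ((1 - ζ) • x)) = 1
      rw [← mul_smul, ← pow_succ]
      exact hfind x
    obtain ⟨E, hE⟩ := chz_desc hR.sur hR.ker e' he'
    obtain ⟨η, hη⟩ := chz_std (N := p) (C := Fin d → V)
      (fun c => funext fun j => hpV (c j)) E
    refine ⟨m, η, ?_, ?_⟩
    · intro h3
      apply hnot
      intro x
      have h4 : e' x = 1 := by
        rw [hE, hη, h3, AddMonoidHom.zero_apply, AddChar.map_zero_eq_one]
      exact h4
    · intro x
      have h4 : e' x = ZMod.stdAddChar (η fun j => q (x j)) := by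
        rw [hE, hη]
      exact h4
  · have _ := Fintype.ofFinite V
    have hsub : {e : AddChar (Fin d → N) ℂ | ∀ x : Fin d → N, e ((1 - ζ) • x) = 1} ⊆
        Set.range fun E : AddChar (Fin d → V) ℂ =>
          E.compAddMonoidHom (AddMonoidHom.compLeft q (Fin d)) := by
      intro e he
      obtain ⟨E, hE⟩ := chz_desc hR.sur hR.ker e he
      refine ⟨E, ?_⟩
      ext x
      exact (hE x).symm
    refine (Set.ncard_le_ncard hsub (Set.toFinite _)).trans ?_
    rw [← Set.image_univ]
    refine (Set.ncard_image_le (Set.toFinite _)).trans ?_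
    rw [Set.ncard_univ, Nat.card_eq_fintype_card, AddChar.card_eq, Fintype.card_fun,
      Fintype.card_fin, Nat.card_eq_fintype_card]

end Pool.Agent.MP72G
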