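import Pool.Agent.Lib.MP_72e2e6_nt.P4.Z.Spec

/-!
# MP_72e2e6_nt, theorem T4, part Z: the average number of the elements of `Ker` whose differences
generate (Cnt3)
-/

set_option autoImplicit false

namespace Pool.Agent.MP72G

open Finset Pool.Agent.MP72P

/-- The differences of the values generate `V`. -/
private theorem Cnt3_gen {G S Λ N V : Type} [CommRing Λ] [AddCommGroup N] [Module Λ N]
    [AddCommGroup V] {ζ : Λ} {ρ : G → N → N} {q : N →+ V} {ρV : G → V → V} (hR : Rdz ζ ρ q ρV)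
    (z : (G → N) × (S → N)) (hz : Gnz ζ ρ z) :
    Gen ρV ((fun g => q (z.1 g), fun w => q (z.2 w)) : (G → V) × (S → V)) := by
  have hd : ∀ g w, dif ρV ((fun g => q (z.1 g), fun w => q (z.2 w)) : (G → V) × (S → V)) g w =
      q (dif ρ z g w) := by
    intro g w
    unfold dif
    rw [map_add, hR.eqv]
  have hle : ∀ a ∈ spz ρ z,
      q a ∈ spz ρV ((fun g => q (z.1 g), fun w => q (z.2 w)) : (G → V) × (S → V)) := by
    intro a ha
    unfold spz at ha
    induction ha using AddSubgroup.closure_induction with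
    | mem x hx =>
      obtain ⟨g, w, g', w', rfl⟩ := hx
      unfold spz
      apply AddSubgroup.subset_closure
      refine ⟨g, w, g', w', ?_⟩
      rw [hd, hd, map_sub]
    | zero =>
      rw [map_zero]
      exact AddSubgroup.zero_mem _
    | add x y _ _ hx hy =>
      rw [map_add]
      exact AddSubgroup.add_mem _ hx hy
    | neg x _ hx =>
      rw [map_neg]
      exact AddSubgroup.neg_mem _ hx
  unfold Gen
  rw [AddSubgroup.eq_top_iff']
  intro v
  obtain ⟨x, rfl⟩ := hR.sur v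
  obtain ⟨a, ha, y, hy⟩ := hz x
  have h1 : q ((1 - ζ) • y) = 0 := (hR.ker _).2 ⟨y, rfl⟩
  rw [hy, map_add, h1, add_zero]
  exact hle a ha

theorem tCnt3 (h1 : S_Zac) (h2 : S_Rzc) (h3 : S_Lin3) (h4 : S_EqM3) (h5 : S_Chz) : S_Cnt3 := by
  intro p _ G _ _ _ S X _ d A T hA Λ N V _ _ _ _ _ ζ r hN ρ hZ q ρV hR ε hε
  classical
  obtain ⟨-, -, -, -, hZt, -, -⟩ := h1 p G Λ N ζ A.ω r hN ρ hA.om hZ
  obtain ⟨hVf, ⟨s, -, hVs⟩, -, hVact, hRt, -, hq0⟩ := (h2 p G Λ N ζ A.ω r hN ρ hA.om hZ).2 V q ρV hR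
  obtain ⟨hChz, hChz2⟩ := h5 p G d Λ N V ζ A.ω r hN ρ hA.om hZ q ρV hR
  have _ := Fintype.ofFinite N
  have hact : ∀ D : X, ActP p A.ω (twz ζ ρ (A.h D)) := fun D => (hZt _ (hA.hom D)).act
  have hL := fun D : X => h3 p G S d A.ω A.D T hA.om hA.h2 hA.ok N r hN (twz ζ ρ (A.h D)) (hact D)
  obtain ⟨M, hM⟩ : ∃ M : ℕ, M = Fintype.card N := ⟨_, rfl⟩
  have hMN : Nat.card N = M := by rw [hM, Nat.card_eq_fintype_card]
  set ε' : ℝ := ε / (M : ℝ) ^ (d + 1) with hε'
  have hMpos : (0 : ℝ) < (M : ℝ) := by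
    rw [hM]
    have : Nonempty N := ⟨0⟩
    exact_mod_cast Fintype.card_pos
  have hε'pos : 0 < ε' := by positivity
  let NCp : (Fin (d + 1) → N) → Prop := fun y =>
    (∀ j, Ts T ρV (fun k => q (y k)) j = 0) ∧ Gen ρV (Zs T ρV fun k => q (y k))
  let Ep : AddChar (Fin d → N) ℂ → Prop := fun e =>
    ∃ (m : ℕ) (η : (Fin d → V) →+ ZMod p), η ≠ 0 ∧ (∀ c, η (Ts T ρV c) = 0) ∧
      ∀ x : Fin d → N, e ((1 - ζ) ^ (m + 1) • x) = ZMod.stdAddChar (η fun j => q (x j))
  -- the bound for each pair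
  have key : ∀ (y : Fin (d + 1) → N) (e : AddChar (Fin d → N) ℂ), ∃ e₀ : ℕ,
      NCp y → Ep e → ∀ 𝒟 : AddSubgroup X, (𝒟 : Set X).Finite → A.F e₀ ≤ 𝒟 →
        ‖∑ᶠ D ∈ (𝒟 : Set X), e (Ts T (twz ζ ρ (A.h D)) y)‖ ≤ ε' * Nat.card 𝒟 := by
    intro y e
    by_cases ha : NCp y
    · by_cases he : Ep e
      · obtain ⟨m, η, hη, hη0, hx⟩ := he
        obtain ⟨e₀, he₀⟩ := h4 p G S X d A T hA Λ N V ζ r hN ρ hZ q ρV hR y ha.1 ha.2 e m η hη hη0
          hx ε' hε'pos
        exact ⟨e₀, fun _ _ => he₀⟩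
      · exact ⟨0, fun _ h => absurd h he⟩
    · exact ⟨0, fun h => absurd h ha⟩
  choose E₀ hE₀ using key
  refine ⟨Finset.univ.sup fun q : (Fin (d + 1) → N) × AddChar (Fin d → N) ℂ => E₀ q.1 q.2, ?_⟩
  intro 𝒟' hfin hle𝒟
  set 𝒟 : Finset X := hfin.toFinset with h𝒟
  have hcard : (Nat.card 𝒟' : ℝ) = 𝒟.card := by
    have : Nat.card 𝒟' = (𝒟' : Set X).ncard := Nat.card_coe_set_eq _
    rw [this, Set.ncard_eq_toFinset_card _ hfin]
  let NC : Finset (Fin (d + 1) → N) := Finset.univ.filter NCp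
  let TT : X → (Fin (d + 1) → N) → Fin d → N := fun D y => Ts T (twz ζ ρ (A.h D)) y
  have hcnt : ∀ D : X, ({z : (G → N) × (S → N) | z ∈ Ker (twz ζ ρ (A.h D)) A.D ∧
          Gnz ζ (twz ζ ρ (A.h D)) z}.ncard : ℝ) ≤
      ∑ y ∈ NC, if TT D y = 0 then (1 : ℝ) else 0 := by
    intro D
    rw [← Finset.sum_filter, Finset.sum_const, nsmul_eq_mul, mul_one]
    obtain ⟨-, hL2, -, hL4, hL5, -, -, -⟩ := hL D
    have hRD := hRt (A.h D)
    have h6 : {z : (G → N) × (S → N) | z ∈ Ker (twz ζ ρ (A.h D)) A.D ∧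
          Gnz ζ (twz ζ ρ (A.h D)) z}.ncard ≤
        (↑(NC.filter fun y => TT D y = 0) : Set (Fin (d + 1) → N)).ncard := by
      refine Set.ncard_le_ncard_of_injOn (fun z : (G → N) × (S → N) => (T.co z : Fin (d + 1) → N))
        ?_ ?_ (Finset.finite_toSet _)
      · rintro z ⟨hz, hz'⟩
        have hTs : ∀ j, Ts T (twz ζ ρ (A.h D)) (T.co z) j = 0 := hL5.mapsTo hz
        have hzS : z = Zs T (twz ζ ρ (A.h D)) (T.co z) := by
          refine hL2 _ _ ⟨hz.1, fun i => hz.2 _ _ (hA.ok.ti i), fun k => rfl⟩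
        have h7 := hL4 V s hVs ρV hVact q hRD.eqv (T.co z)
        rw [Finset.mem_coe, Finset.mem_filter, Finset.mem_filter]
        refine ⟨⟨Finset.mem_univ _, ?_, ?_⟩, funext hTs⟩
        · intro j
          rw [h7.2 j, hTs j, map_zero]
        · have h8 : Zs T ρV (fun k => q (T.co z k)) =
              ((fun g => q (z.1 g), fun w => q (z.2 w)) : (G → V) × (S → V)) := by
            rw [h7.1, ← hzS]
          change Gen ρV (Zs T ρV (fun k => q (T.co z k)))
          rw [h8]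
          exact Cnt3_gen hRD z hz'
      · intro z hz z' hz' h
        exact hL5.injOn hz.1 hz'.1 h
    rw [Set.ncard_coe_finset] at h6
    exact_mod_cast h6
  -- the characters with a nonzero value of `η` at the tests
  have hzero : ∀ e : AddChar (Fin d → N) ℂ, ¬ (∀ x : Fin d → N, e ((1 - ζ) • x) = 1) → ¬ Ep e →
      ∀ D : X, ∑ y ∈ NC, e (TT D y) = 0 := by
    intro e he1 he2 D
    rcases hChz e with h | ⟨m, η, hη, hx⟩
    · exact absurd h he1
    have h6 : ∃ c, η (Ts T ρV c) ≠ 0 := by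
      by_contra hcon
      push Not at hcon
      exact he2 ⟨m, η, hη, hcon, hx⟩
    obtain ⟨c, hc⟩ := h6
    choose x hxc using fun k => hR.sur (c k)
    obtain ⟨-, -, hL3, hL4, -, -, -, -⟩ := hL D
    have hlin := (hZt _ (hA.hom D)).lin
    have hRD := hRt (A.h D)
    let f : N →+ N := DistribSMul.toAddMonoidHom N ((1 - ζ) ^ (m + 1))
    have hf : ∀ v, f v = (1 - ζ) ^ (m + 1) • v := fun v => rfl
    have h7 := hL4 N r hN (twz ζ ρ (A.h D)) (hact D) f (fun g v => by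
      rw [hf, hf, hlin]) x
    have h8 := hL4 V s hVs ρV hVact q hRD.eqv x
    have hqf : ∀ v, q (f v) = 0 := fun v => by
      rw [hf, pow_succ', mul_smul]
      exact hq0 _
    obtain ⟨c₀, hc₀⟩ : ∃ c₀ : ℂ, c₀ = ZMod.stdAddChar (η (Ts T ρV c)) := ⟨_, rfl⟩
    have hc1 : c₀ ≠ 1 := by
      intro h
      apply hc
      rw [hc₀] at h
      have h9 : (ZMod.stdAddChar (η (Ts T ρV c)) : ℂ) = ZMod.stdAddChar (0 : ZMod p) := by
        rw [h, AddChar.map_zero_eq_one]
      exact ZMod.injective_stdAddChar h9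
    have hshift : ∀ y, e (TT D (y + fun k => f (x k))) = e (TT D y) * c₀ := by
      intro y
      have h9 : TT D (y + fun k => f (x k)) = TT D y + (1 - ζ) ^ (m + 1) • TT D x := by
        funext j
        change Ts T (twz ζ ρ (A.h D)) (y + fun k => f (x k)) j = _
        rw [hL3, h7.2 j]
        rfl
      rw [h9, AddChar.map_add_eq_mul, hx, hc₀]
      congr 3
      funext j
      have h10 : (fun k => q (x k)) = c := funext hxc
      rw [← h10]
      exact (h8.2 j).symm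
    have hsum : ∑ y ∈ NC, e (TT D y) = ∑ y ∈ NC, e (TT D (y + fun k => f (x k))) := by
      symm
      refine Finset.sum_equiv (Equiv.addRight (fun k => f (x k))) ?_ ?_
      · intro y
        simp only [NC, Finset.mem_filter, Finset.mem_univ, true_and, NCp, Equiv.coe_addRight]
        have h11 : (fun k => q ((y + fun k => f (x k)) k)) = fun k => q (y k) := by
          funext k
          rw [Pi.add_apply, map_add, hqf, add_zero]
        rw [h11]
      · intro y _
        rfl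
    rw [Finset.sum_congr rfl fun y _ => hshift y, ← Finset.sum_mul] at hsum
    have h12 : (∑ y ∈ NC, e (TT D y)) * (c₀ - 1) = 0 := by
      rw [mul_sub, mul_one, ← hsum, sub_self]
    rcases mul_eq_zero.1 h12 with h | h
    · exact h
    · exact absurd (sub_eq_zero.1 h) hc1
  rw [finsum_mem_eq_finite_toFinset_sum _ hfin, hcard]
  refine (Finset.sum_le_sum fun D _ => hcnt D).trans ?_
  -- the double sum
  have horth : ∀ D y, (if TT D y = 0 then (1 : ℂ) else 0) * (M : ℂ) ^ d =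
      ∑ e : AddChar (Fin d → N) ℂ, e (TT D y) := by
    intro D y
    rw [AddChar.sum_apply_eq_ite]
    split_ifs
    · rw [one_mul, Fintype.card_fun, Fintype.card_fin, ← hM]
      push_cast
      rfl
    · rw [zero_mul]
  have hsum : ((∑ D ∈ 𝒟, ∑ y ∈ NC, if TT D y = 0 then (1 : ℝ) else 0 : ℝ) : ℂ) *
      (M : ℂ) ^ d = ∑ e : AddChar (Fin d → N) ℂ, ∑ y ∈ NC, ∑ D ∈ 𝒟, e (TT D y) := by
    push_cast
    rw [Finset.sum_mul]
    have : ∀ D ∈ 𝒟, (∑ y ∈ NC, (((if TT D y = 0 then (1 : ℝ) else 0 : ℝ)) : ℂ)) *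
        (M : ℂ) ^ d = ∑ y ∈ NC, ∑ e : AddChar (Fin d → N) ℂ, e (TT D y) := by
      intro D _
      rw [Finset.sum_mul]
      refine Finset.sum_congr rfl fun y _ => ?_
      rw [← horth]
      congr 1
      split_ifs <;> simp
    rw [Finset.sum_congr rfl this, Finset.sum_comm]
    have h13 : ∀ y ∈ NC, ∑ D ∈ 𝒟, ∑ e : AddChar (Fin d → N) ℂ, e (TT D y) =
        ∑ e : AddChar (Fin d → N) ℂ, ∑ D ∈ 𝒟, e (TT D y) := fun y _ => Finset.sum_comm
    rw [Finset.sum_congr rfl h13, Finset.sum_comm]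
  have hbd : ∀ e : AddChar (Fin d → N) ℂ, ‖∑ y ∈ NC, ∑ D ∈ 𝒟, e (TT D y)‖ ≤
      (NC.card : ℝ) * ((if ∀ x : Fin d → N, e ((1 - ζ) • x) = 1 then (𝒟.card : ℝ) else 0) +
        ε' * 𝒟.card) := by
    intro e
    have h0 : (0 : ℝ) ≤ ε' * (𝒟.card : ℝ) := by positivity
    have hNC0 : (0 : ℝ) ≤ NC.card := Nat.cast_nonneg _
    by_cases he : ∀ x : Fin d → N, e ((1 - ζ) • x) = 1
    · rw [if_pos he]
      have h6 : ‖∑ y ∈ NC, ∑ D ∈ 𝒟, e (TT D y)‖ ≤ (NC.card : ℝ) * (𝒟.card : ℝ) := by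
        refine (norm_sum_le _ _).trans ?_
        rw [← nsmul_eq_mul, ← Finset.sum_const]
        refine Finset.sum_le_sum fun y _ => ?_
        refine (norm_sum_le _ _).trans ?_
        rw [Finset.sum_congr rfl fun D _ => AddChar.norm_apply e _, Finset.sum_const,
          nsmul_eq_mul, mul_one]
      refine h6.trans (mul_le_mul_of_nonneg_left ?_ hNC0)
      linarith
    · rw [if_neg he, zero_add]
      by_cases he2 : Ep e
      · refine (norm_sum_le _ _).trans ?_
        rw [← nsmul_eq_mul, ← Finset.sum_const]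
        refine Finset.sum_le_sum fun y hy => ?_
        have hle : A.F (E₀ y e) ≤ 𝒟' :=
          (hA.mono (Finset.le_sup (f := fun q : (Fin (d + 1) → N) × AddChar (Fin d → N) ℂ =>
            E₀ q.1 q.2) (Finset.mem_univ (y, e)))).trans hle𝒟
        have h := hE₀ y e (Finset.mem_filter.1 hy).2 he2 𝒟' hfin hle
        rw [finsum_mem_eq_finite_toFinset_sum _ hfin, hcard] at h
        exact h
      · rw [Finset.sum_comm, Finset.sum_congr rfl fun D _ => hzero e he he2 D, Finset.sum_const_zero,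
          norm_zero]
        positivity
  set SS : ℝ := ∑ D ∈ 𝒟, ∑ y ∈ NC, if TT D y = 0 then (1 : ℝ) else 0 with hSS
  have hS0 : 0 ≤ SS := by
    refine Finset.sum_nonneg fun D _ => Finset.sum_nonneg fun y _ => ?_
    split_ifs <;> norm_num
  have hcard0 : (0 : ℝ) ≤ 𝒟.card := Nat.cast_nonneg _
  have hSM : SS * (M : ℝ) ^ d ≤ (NC.card : ℝ) * (((Nat.card V : ℝ) ^ d) * 𝒟.card +
      (M : ℝ) ^ d * (ε' * 𝒟.card)) := by
    have h6 : SS * (M : ℝ) ^ d = ‖(SS : ℂ) * (M : ℂ) ^ d‖ := by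
      rw [norm_mul, norm_pow, Complex.norm_real, Complex.norm_natCast, Real.norm_eq_abs,
        abs_of_nonneg hS0]
    rw [h6, hsum]
    refine (norm_sum_le _ _).trans ?_
    refine (Finset.sum_le_sum fun e _ => hbd e).trans ?_
    rw [← Finset.mul_sum]
    refine mul_le_mul_of_nonneg_left ?_ (Nat.cast_nonneg _)
    rw [Finset.sum_add_distrib, Finset.sum_const, nsmul_eq_mul, ← Finset.sum_filter,
      Finset.sum_const, nsmul_eq_mul]
    have h7 : ((Finset.univ : Finset (AddChar (Fin d → N) ℂ)).card : ℝ) = (M : ℝ) ^ d := by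
      rw [Finset.card_univ, AddChar.card_eq, Fintype.card_fun, hM, Fintype.card_fin]
      push_cast
      rfl
    have h8 : ((Finset.univ.filter fun e : AddChar (Fin d → N) ℂ =>
        ∀ x : Fin d → N, e ((1 - ζ) • x) = 1).card : ℝ) ≤ (Nat.card V : ℝ) ^ d := by
      have h9 : {e : AddChar (Fin d → N) ℂ | ∀ x : Fin d → N, e ((1 - ζ) • x) = 1}.ncard =
          (Finset.univ.filter fun e : AddChar (Fin d → N) ℂ =>
            ∀ x : Fin d → N, e ((1 - ζ) • x) = 1).card := by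
        rw [← Set.ncard_coe_finset]
        congr 1
        ext e
        simp
      rw [h9] at hChz2
      exact_mod_cast hChz2
    rw [h7]
    exact add_le_add (mul_le_mul_of_nonneg_right h8 hcard0) le_rfl
  have hNC : (NC.card : ℝ) ≤ (M : ℝ) ^ (d + 1) := by
    have h6 : NC.card ≤ Fintype.card (Fin (d + 1) → N) := Finset.card_le_univ _
    rw [Fintype.card_fun, Fintype.card_fin, ← hM] at h6
    exact_mod_cast h6
  have hfinal : SS * (M : ℝ) ^ d ≤
      (((Nat.card N : ℝ) * (Nat.card V : ℝ) ^ d + ε) * 𝒟.card) * (M : ℝ) ^ d := by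
    refine hSM.trans ?_
    have h6 : 0 ≤ (Nat.card V : ℝ) ^ d * 𝒟.card + (M : ℝ) ^ d * (ε' * 𝒟.card) := by positivity
    refine (mul_le_mul_of_nonneg_right hNC h6).trans (le_of_eq ?_)
    have h7 : (M : ℝ) ^ (d + 1) * ε' = ε := by
      rw [hε']
      field_simp
    rw [hMN]
    calc (M : ℝ) ^ (d + 1) * ((Nat.card V : ℝ) ^ d * 𝒟.card + (M : ℝ) ^ d * (ε' * 𝒟.card))
        = (M : ℝ) ^ d * ((M : ℝ) * (Nat.card V : ℝ) ^ d * 𝒟.card +
            ((M : ℝ) ^ (d + 1) * ε') * 𝒟.card) := by ring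
      _ = _ := by
        rw [h7]
        ring
  exact le_of_mul_le_mul_right hfinal (by positivity)

end Pool.Agent.MP72G
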