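import Pool.Agent.Lib.MP_72e2e6_nt.P4.Z.Spec

/-!
# MP_72e2e6_nt, theorem T4, part Z, module Der3: the derivative of `Ts`
-/

set_option autoImplicit false

namespace Pool.Agent.MP72G

open Finset Pool.Agent.MP72P

section cube

private theorem der3Cube {R : Type} [CommRing R] {k : ℕ} (F : Fin k → Bool → R) :
    ∑ c : Fin k → Bool, ∏ j, F j (c j) = ∏ j, (F j false + F j true) := by
  have h : ∀ j, F j false + F j true = ∑ c : Bool, F j c := fun j => by
    rw [Fintype.sum_bool, add_comm]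
  simp only [h]
  rw [Finset.prod_univ_sum, Fintype.piFinset_univ]

variable {p : ℕ} {Λ : Type} [CommRing Λ] {ζ : Λ}

private theorem der3Zsum [Fact p.Prime]
    (hadd : ∀ a b : ZMod p, ζ ^ (a + b).val = ζ ^ a.val * ζ ^ b.val) {α : Type} (s : Finset α)
    (f : α → ZMod p) : ζ ^ (∑ i ∈ s, f i).val = ∏ i ∈ s, ζ ^ (f i).val := by
  classical
  induction s using Finset.induction_on with
  | empty => rw [Finset.sum_empty, Finset.prod_empty, ZMod.val_zero, pow_zero]
  | insert a s ha ih => rw [Finset.sum_insert ha, Finset.prod_insert ha, hadd, ih]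

/-- the sum over the cube of the signs -/
private theorem der3Cube2 [Fact p.Prime]
    (hadd : ∀ a b : ZMod p, ζ ^ (a + b).val = ζ ^ a.val * ζ ^ b.val) {k : ℕ}
    (τ : Fin k → ZMod p) :
    ∑ c : Fin k → Bool, ((∏ i, sb (c i) : ℤ) : Λ) *
      ζ ^ (∑ i, if c i then τ i else 0 : ZMod p).val = ∏ i, (1 - ζ ^ (τ i).val) := by
  have h : ∀ c : Fin k → Bool, ((∏ i, sb (c i) : ℤ) : Λ) *
      ζ ^ (∑ i, if c i then τ i else 0 : ZMod p).val =
      ∏ i, (((sb (c i) : ℤ) : Λ) * ζ ^ (if c i then τ i else 0 : ZMod p).val) := by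
    intro c
    rw [der3Zsum hadd, Int.cast_prod, Finset.prod_mul_distrib]
  simp only [h]
  rw [der3Cube fun i b => ((sb b : ℤ) : Λ) * ζ ^ (if b then τ i else 0 : ZMod p).val]
  refine Finset.prod_congr rfl fun i _ => ?_
  rw [show sb false = 1 from rfl, show sb true = -1 from rfl, if_neg Bool.false_ne_true,
    if_pos rfl, ZMod.val_zero, pow_zero, Int.cast_neg, Int.cast_one]
  ring

end cube

/-- The operators on the functions. -/
private def der3R {p m : ℕ} {G N : Type} (ρ : G → N → N) (δ : Fin m → G → ZMod p) (g : G)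
    (f : (Fin m → ZMod p) → N) : (Fin m → ZMod p) → N :=
  fun τ => ρ g (f fun i => τ i - δ i g)

private theorem der3Act {p m : ℕ} [Fact p.Prime] {G N : Type} [Group G] [TopologicalSpace G]
    [AddCommGroup N] [Finite N] {ω : G → ZMod p} {ρ : G → N → N} (hρ : ActP p ω ρ)
    {δ : Fin m → G → ZMod p} (hδ : ∀ i, HomP p (δ i)) : ActP p ω (der3R ρ δ) := by
  have hδ1 : ∀ j, δ j 1 = 0 := by
    intro j
    have h := (hδ j).add 1 1
    rw [mul_one] at h
    exact left_eq_add.1 h
  have hδp : ∀ j g (n : ℕ), δ j (g ^ n) = n * δ j g := by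
    intro j g n
    induction n with
    | zero => rw [pow_zero, hδ1, Nat.cast_zero, zero_mul]
    | succ n ih =>
      rw [pow_succ, (hδ j).add, ih]
      push_cast
      ring
  refine ⟨?_, ?_, ?_, ?_, ?_⟩
  · intro g x y
    funext τ
    exact hρ.add g _ _
  · intro x
    funext τ
    show ρ 1 (x fun i => τ i - δ i 1) = x τ
    have e : (fun i => τ i - δ i 1) = τ := by
      funext i
      rw [hδ1, sub_zero]
    rw [hρ.one, e]
  · intro g h x
    funext τ
    show ρ (g * h) (x fun i => τ i - δ i (g * h)) = ρ g (ρ h (x fun i => (τ i - δ i g) - δ i h))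
    have e : (fun i => τ i - δ i (g * h)) = fun i => (τ i - δ i g) - δ i h := by
      funext i
      rw [(hδ i).add, sub_sub]
    rw [hρ.mul, e]
  · intro x
    rw [IsLocallyConstant.iff_eventually_eq]
    intro g
    have h1 : ∀ᶠ y in nhds g, ∀ v : N, ρ y v = ρ g v :=
      Filter.eventually_all.2 fun v => (IsLocallyConstant.iff_eventually_eq _).1 (hρ.loc v) g
    have h2 : ∀ᶠ y in nhds g, ∀ j, δ j y = δ j g :=
      Filter.eventually_all.2 fun j => (IsLocallyConstant.iff_eventually_eq (δ j)).1 (hδ j).loc g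
    filter_upwards [h1, h2] with y h3 h4
    funext τ
    show ρ y (x fun i => τ i - δ i y) = ρ g (x fun i => τ i - δ i g)
    simp_rw [h3, h4]
  · intro g
    obtain ⟨k, hk⟩ := hρ.uni g
    have h1 : ∀ (n : ℕ) (x : N), ρ ((g ^ p ^ k) ^ n) x = ((ω g).val ^ p ^ k) ^ n • x := by
      intro n
      induction n with
      | zero =>
        intro x
        rw [pow_zero, hρ.one, pow_zero, one_smul]
      | succ n ih =>
        intro x
        rw [pow_succ, hρ.mul, hk, ih, pow_succ, mul_smul]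
    refine ⟨k + 1, fun x => ?_⟩
    funext τ
    show ρ (g ^ p ^ (k + 1)) (x fun i => τ i - δ i (g ^ p ^ (k + 1))) =
      ((ω g).val ^ p ^ (k + 1)) • x τ
    have h2 : (fun i => τ i - δ i (g ^ p ^ (k + 1))) = τ := by
      funext i
      rw [hδp, pow_succ, Nat.cast_mul, CharP.cast_eq_zero (ZMod p) p, mul_zero, zero_mul,
        sub_zero]
    rw [h2, pow_succ, pow_mul, pow_mul]
    exact h1 p (x τ)

private theorem der3Hom {p m : ℕ} {G : Type} [Group G] [TopologicalSpace G]
    {δ : Fin m → G → ZMod p} (hδ : ∀ i, HomP p (δ i)) (c : Fin m → Bool) :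
    HomP p (fun g => ∑ i, if c i then δ i g else 0) := by
  refine ⟨?_, fun a b => ?_⟩
  · rw [IsLocallyConstant.iff_eventually_eq]
    intro g
    have h2 : ∀ᶠ y in nhds g, ∀ j, δ j y = δ j g :=
      Filter.eventually_all.2 fun j => (IsLocallyConstant.iff_eventually_eq (δ j)).1 (hδ j).loc g
    filter_upwards [h2] with y h4
    simp_rw [h4]
  · rw [← Finset.sum_add_distrib]
    refine Finset.sum_congr rfl fun i _ => ?_
    rw [(hδ i).add]
    split_ifs
    · rfl
    · rw [add_zero]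

private theorem der3Sum {N V : Type} [AddCommGroup N] [AddCommGroup V] {f : N → V}
    (hf : ∀ x y, f (x + y) = f x + f y) {α : Type} (s : Finset α) (g : α → N) :
    f (∑ a ∈ s, g a) = ∑ a ∈ s, f (g a) := map_sum (AddMonoidHom.mk' f hf) g s

/-- Substitution. -/
private theorem der3Sub {p m : ℕ} [Fact p.Prime] {M : Type} [AddCommGroup M]
    (d : Fin m → ZMod p) (F : (Fin m → ZMod p) → M) :
    ∑ τ : Fin m → ZMod p, F τ = ∑ τ : Fin m → ZMod p, F (fun i => τ i + d i) :=
  (Equiv.sum_comp (Equiv.addRight d) F).symm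

theorem tDer3 (h1 : S_Uni2) (h2 : S_Zac) (h3 : S_Rzc) (h4 : S_Lin3) (h5 : S_Act3) : S_Der3 := by
  classical
  intro p _ G _ _ _ S d ω D T hω hH hT Λ N V _ _ _ _ _ ζ r hN ρ hρ q ρV hq m δ hδ y j
  obtain ⟨-, hadd, -, -, htw, -, hprod⟩ := h2 p G Λ N ζ ω r hN ρ hω hρ
  obtain ⟨hVf, ⟨s, -, hs⟩, hpV, hρV, -, -, hqz⟩ := (h3 p G Λ N ζ ω r hN ρ hω hρ).2 V q ρV hq
  have hcard : Nat.card ((Fin m → ZMod p) → N) = p ^ (r * p ^ m) := by
    rw [Nat.card_fun, hN, Nat.card_fun, Nat.card_zmod, Nat.card_fin, pow_mul]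
  have hR := der3Act (δ := δ) hρ.act hδ
  obtain ⟨-, -, -, hmap, -⟩ := h4 p G S d ω D T hω hH hT ((Fin m → ZMod p) → N) _ hcard
    (der3R ρ δ) hR
  obtain ⟨Y, hY⟩ : ∃ Y : Fin (d + 1) → (Fin m → ZMod p) → N,
      Y = fun k τ => if τ = 0 then y k else 0 := ⟨_, rfl⟩
  obtain ⟨F, hF⟩ : ∃ F, F = Ts T (der3R ρ δ) Y j := ⟨_, rfl⟩
  -- (a)
  have hTs : ∀ c : Fin m → Bool,
      Ts T (twz ζ ρ (fun g => ∑ i, if c i then δ i g else 0)) y j =
        ∑ τ : Fin m → ZMod p, ζ ^ (∑ i, if c i then τ i else 0 : ZMod p).val • F τ := by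
    intro c
    have hact := (htw _ (der3Hom hδ c)).act
    let φ : ((Fin m → ZMod p) → N) →+ N := AddMonoidHom.mk'
      (fun f => ∑ τ : Fin m → ZMod p, ζ ^ (∑ i, if c i then τ i else 0 : ZMod p).val • f τ) (by
        intro f f'
        simp only [Pi.add_apply, smul_add, Finset.sum_add_distrib])
    have hφ : ∀ f, φ f = ∑ τ : Fin m → ZMod p,
        ζ ^ (∑ i, if c i then τ i else 0 : ZMod p).val • f τ := fun _ => rfl
    have hφr : ∀ g f, φ (der3R ρ δ g f) =
        twz ζ ρ (fun g => ∑ i, if c i then δ i g else 0) g (φ f) := by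
      intro g f
      rw [hφ, hφ, der3Sub (fun i => δ i g)]
      show _ = ζ ^ (∑ i, if c i then δ i g else 0 : ZMod p).val • ρ g _
      rw [der3Sum (hρ.act.add g), Finset.smul_sum]
      refine Finset.sum_congr rfl fun τ _ => ?_
      have e1 : (∑ i, if c i then τ i + δ i g else 0 : ZMod p) =
          (∑ i, if c i then δ i g else 0) + ∑ i, if c i then τ i else 0 := by
        rw [← Finset.sum_add_distrib]
        refine Finset.sum_congr rfl fun i _ => ?_
        split_ifs
        · exact add_comm _ _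
        · rw [add_zero]
      have e2 : der3R ρ δ g f (fun i => τ i + δ i g) = ρ g (f τ) := by
        show ρ g (f fun i => τ i + δ i g - δ i g) = ρ g (f τ)
        have e3 : (fun i => τ i + δ i g - δ i g) = τ := by
          funext i
          rw [add_sub_cancel_right]
        rw [e3]
      rw [e2, hρ.lin, e1, hadd, mul_smul]
    have hφY : (fun k => φ (Y k)) = y := by
      funext k
      rw [hφ, hY]
      have e1 : ∀ τ : Fin m → ZMod p, ζ ^ (∑ i, if c i then τ i else 0 : ZMod p).val •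
          (if τ = 0 then y k else 0) = if τ = 0 then y k else 0 := by
        intro τ
        split_ifs with h
        · rw [h]
          simp only [Pi.zero_apply, ite_self, Finset.sum_const_zero, ZMod.val_zero, pow_zero,
            one_smul]
        · rw [smul_zero]
      simp only [e1]
      rw [Finset.sum_ite_eq', if_pos (Finset.mem_univ _)]
    have h6 := (hmap N r hN _ hact φ hφr Y).2 j
    rw [hφY, ← hF, hφ] at h6
    exact h6
  -- (b)
  choose u hu using hprod m
  have key1 : ∑ c : Fin m → Bool, (∏ i, sb (c i)) •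
        Ts T (twz ζ ρ (fun g => ∑ i, if c i then δ i g else 0)) y j =
      (1 - ζ) ^ m • ∑ τ : Fin m → ZMod p,
        ((((∏ i, τ i).val : ℕ) : Λ) + (1 - ζ) * u τ) • F τ := by
    have e0 : ∀ c : Fin m → Bool, (∏ i, sb (c i)) •
        Ts T (twz ζ ρ (fun g => ∑ i, if c i then δ i g else 0)) y j =
        ∑ τ : Fin m → ZMod p, (((∏ i, sb (c i) : ℤ) : Λ) *
          ζ ^ (∑ i, if c i then τ i else 0 : ZMod p).val) • F τ := by
      intro c
      rw [hTs, ← Int.cast_smul_eq_zsmul Λ, Finset.smul_sum]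
      refine Finset.sum_congr rfl fun τ _ => ?_
      rw [mul_smul]
    rw [Finset.sum_congr rfl fun c _ => e0 c, Finset.sum_comm, Finset.smul_sum]
    refine Finset.sum_congr rfl fun τ _ => ?_
    rw [← Finset.sum_smul, der3Cube2 hadd, hu, mul_smul]
  refine ⟨_, key1, ?_⟩
  -- (c)
  let _ : Module (ZMod p) V := AddCommGroup.zmodModule hpV
  have hval : ∀ (c : ZMod p) (v : V), c.val • v = c • v := by
    intro c v
    rw [← Nat.cast_smul_eq_nsmul (ZMod p), ZMod.natCast_zmod_val]
  obtain ⟨hE, hEc⟩ := h5 p G ω hω V s hs hpV ρV hρV m δ hδ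
  let ε : ((Fin m → ZMod p) → N) →+ (Finset (Fin m) → V) := AddMonoidHom.mk'
    (fun f I => ∑ τ : Fin m → ZMod p, (∏ i ∈ I, τ i) • q (f τ)) (by
      intro f f'
      funext I
      simp only [Pi.add_apply, map_add, smul_add, Finset.sum_add_distrib])
  have hε : ∀ f I, ε f I = ∑ τ : Fin m → ZMod p, (∏ i ∈ I, τ i) • q (f τ) :=
    fun _ _ => rfl
  have hρs : ∀ g (c : ZMod p) (v : V), ρV g (c • v) = c • ρV g v := by
    intro g c v
    rw [← hval, ← hval]
    exact map_nsmul (AddMonoidHom.mk' (ρV g) (hρV.add g)) c.val v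
  have hεr : ∀ g (x : (Fin m → ZMod p) → N), ε (der3R ρ δ g x) = rV ρV δ g (ε x) := by
    intro g x
    funext I
    show _ = ∑ A ∈ I.powerset, (∏ j ∈ A, δ j g).val • ρV g (ε x (I \ A))
    have e4 : ∀ A ∈ I.powerset, (∏ j ∈ A, δ j g).val • ρV g (ε x (I \ A)) =
        ∑ τ : Fin m → ZMod p, ((∏ j ∈ A, δ j g) * ∏ i ∈ I \ A, τ i) • ρV g (q (x τ)) := by
      intro A _
      rw [hε, hval, der3Sum (hρV.add g), Finset.smul_sum]
      refine Finset.sum_congr rfl fun τ _ => ?_
      rw [hρs, mul_smul]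
    rw [Finset.sum_congr rfl e4, Finset.sum_comm, hε, der3Sub (fun i => δ i g)]
    refine Finset.sum_congr rfl fun τ _ => ?_
    have e2 : der3R ρ δ g x (fun i => τ i + δ i g) = ρ g (x τ) := by
      show ρ g (x fun i => τ i + δ i g - δ i g) = ρ g (x τ)
      have e3 : (fun i => τ i + δ i g - δ i g) = τ := by
        funext i
        rw [add_sub_cancel_right]
      rw [e3]
    have e5 : ∏ i ∈ I, (τ i + δ i g) = ∏ i ∈ I, (δ i g + τ i) :=
      Finset.prod_congr rfl fun i _ => add_comm _ _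
    rw [e2, hq.eqv, ← Finset.sum_smul, e5, Finset.prod_add]
  have hεY : (fun k => ε (Y k)) = fun k => sgE ∅ (q (y k)) := by
    funext k
    funext I
    rw [hε, hY]
    have e1 : ∀ τ : Fin m → ZMod p, (∏ i ∈ I, τ i) • q (if τ = 0 then y k else 0) =
        if τ = 0 then (∏ i ∈ I, τ i) • q (y k) else 0 := by
      intro τ
      split_ifs
      · rfl
      · rw [map_zero, smul_zero]
    simp only [e1]
    rw [Finset.sum_ite_eq', if_pos (Finset.mem_univ _)]
    unfold sgE
    by_cases hI : I = ∅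
    · rw [hI, Finset.prod_empty, one_smul, if_pos rfl]
    · obtain ⟨i, hi⟩ := Finset.nonempty_iff_ne_empty.2 hI
      rw [if_neg hI, Finset.prod_eq_zero hi rfl, zero_smul]
  have h7 := (hmap (Finset (Fin m) → V) _ hEc _ hE ε hεr Y).2 j
  rw [hεY, ← hF] at h7
  rw [h7, hε, map_sum]
  refine Finset.sum_congr rfl fun τ _ => ?_
  rw [add_smul, map_add, mul_smul, hqz, add_zero, Nat.cast_smul_eq_nsmul, map_nsmul, hval]

end Pool.Agent.MP72G
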