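import Pool.Agent.Lib.MP_72e2e6_nt.P4.Z.Spec

/-!
# MP_72e2e6_nt, theorem T4, part Z: equidistribution
-/

namespace Pool.Agent.MP72G

open Finset Pool.Agent.MP72P

private theorem eqm3Sum {X M : Type} [AddCommGroup X] [AddCommMonoid M] (𝒟 : AddSubgroup X)
    [Fintype 𝒟] (f : X → M) : ∑ᶠ D ∈ (𝒟 : Set X), f D = ∑ D : 𝒟, f D := by
  rw [← finsum_set_coe_eq_finsum_mem, finsum_eq_sum_of_fintype]
  rfl

/-- The cube sums. -/
private def eqm3F {X L : Type} [AddCommGroup X] [AddCommGroup L] {i : ℕ} (f : X → L)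
    (δ : Fin i → X) (D : X) : L :=
  ∑ c : Fin i → Bool, (∏ k, sb (c k)) • f (D + ∑ k, if c k then δ k else 0)

private theorem eqm3F_zero {X L : Type} [AddCommGroup X] [AddCommGroup L] (f : X → L)
    (δ : Fin 0 → X) (D : X) : eqm3F f δ D = f D := by
  unfold eqm3F
  rw [Fintype.sum_unique]
  simp

private theorem eqm3F_cons {X L : Type} [AddCommGroup X] [AddCommGroup L] {i : ℕ} (f : X → L)
    (δ : Fin i → X) (x D : X) :
    eqm3F f (Fin.cons x δ : Fin (i + 1) → X) D = eqm3F f δ D - eqm3F f δ (D + x) := by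
  unfold eqm3F
  rw [← Equiv.sum_comp (Fin.consEquiv fun _ => Bool), Fintype.sum_prod_type]
  have h2 : ∀ F : Bool → L, ∑ c, F c = F false + F true := fun F => by
    rw [Fintype.sum_bool, add_comm]
  rw [h2, sub_eq_add_neg, ← Finset.sum_neg_distrib]
  congr 1
  · refine Finset.sum_congr rfl fun ω _ => ?_
    simp only [Fin.consEquiv_apply, Fin.prod_univ_succ, Fin.sum_univ_succ, Fin.cons_zero,
      Fin.cons_succ, Bool.false_eq_true, if_false, zero_add]
    rw [show sb false = 1 from rfl, one_mul]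
  · refine Finset.sum_congr rfl fun ω _ => ?_
    simp only [Fin.consEquiv_apply, Fin.prod_univ_succ, Fin.sum_univ_succ, Fin.cons_zero,
      Fin.cons_succ, if_true]
    rw [show sb true = -1 from rfl, neg_one_mul, neg_smul, add_assoc]

private theorem eqm3Key {p : ℕ} [Fact p.Prime] {X : Type} [AddCommGroup X] (N0 : AddSubgroup X)
    (hp : ∀ x, p • x ∈ N0) {i : ℕ} (δ : Fin i → X) (hδ : Ipd p N0 δ) (x : X)
    (hx : ¬ Ipd p N0 (Fin.cons x δ : Fin (i + 1) → X)) :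
    ∃ c : Fin i → ZMod p, x + ∑ k, (c k).val • δ k ∈ N0 := by
  classical
  unfold Ipd at hx
  push Not at hx
  obtain ⟨c, hc, hc0⟩ := hx
  rw [Fin.sum_univ_succ] at hc
  simp only [Fin.cons_zero, Fin.cons_succ] at hc
  have h0 : c 0 ≠ 0 := by
    intro h
    rw [h, ZMod.val_zero, zero_smul, zero_add] at hc
    have h1 := hδ (fun k => c k.succ) hc
    apply hc0
    funext k
    refine Fin.cases h (fun k => ?_) k
    exact congrFun h1 k
  have hpQ : ∀ v : X, p • (QuotientAddGroup.mk v : X ⧸ N0) = 0 := fun v => by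
    rw [← QuotientAddGroup.mk_nsmul, QuotientAddGroup.eq_zero_iff]
    exact hp v
  have hred : ∀ (a b : ℕ) (v : X), (a : ZMod p) = b →
      a • (QuotientAddGroup.mk v : X ⧸ N0) = b • (QuotientAddGroup.mk v : X ⧸ N0) := by
    intro a b v hab
    have h7 : ∀ a : ℕ, a • (QuotientAddGroup.mk v : X ⧸ N0) =
        (a % p) • (QuotientAddGroup.mk v : X ⧸ N0) := by
      intro a
      conv_lhs => rw [← Nat.div_add_mod a p]
      rw [add_smul, mul_comm, mul_smul, hpQ, smul_zero, zero_add]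
    rw [h7 a, h7 b, (ZMod.natCast_eq_natCast_iff' _ _ _).1 hab]
  refine ⟨fun k => (c 0)⁻¹ * c k.succ, ?_⟩
  rw [← QuotientAddGroup.eq_zero_iff, QuotientAddGroup.mk_add, QuotientAddGroup.mk_sum] at hc ⊢
  have h1 := congrArg (fun v => (c 0)⁻¹.val • v) hc
  simp only [smul_zero, smul_add, Finset.smul_sum, QuotientAddGroup.mk_nsmul, smul_smul] at h1 ⊢
  rw [← h1]
  congr 1
  · have := hred ((c 0)⁻¹.val * (c 0).val) 1 x (by
      rw [Nat.cast_mul, ZMod.natCast_zmod_val, ZMod.natCast_zmod_val, inv_mul_cancel₀ h0,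
        Nat.cast_one])
    rw [this, one_smul]
  · refine Finset.sum_congr rfl fun k _ => ?_
    refine hred _ _ _ ?_
    rw [ZMod.natCast_zmod_val, Nat.cast_mul, ZMod.natCast_zmod_val, ZMod.natCast_zmod_val]

private theorem eqm3Bad {p : ℕ} [Fact p.Prime] {X : Type} [AddCommGroup X] (N0 F : AddSubgroup X)
    (hp : ∀ x, p • x ∈ N0) (hF : (F : Set X).Finite) {i : ℕ} (δ : Fin i → X)
    (hδ : Ipd p N0 δ) :
    {x | x ∈ F ∧ ¬ Ipd p N0 (Fin.cons x δ : Fin (i + 1) → X)}.ncard ≤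
      p ^ i * {x | x ∈ F ∧ x ∈ N0}.ncard := by
  classical
  have hcard : ∀ P : X → Prop, {x | x ∈ F ∧ P x}.ncard = (hF.toFinset.filter P).card := by
    intro P
    rw [← Set.ncard_coe_finset]
    congr 1
    ext x
    simp
  obtain ⟨P, hP⟩ : ∃ P : X → Prop, ∀ x, P x ↔ ¬ Ipd p N0 (Fin.cons x δ : Fin (i + 1) → X) :=
    ⟨_, fun _ => Iff.rfl⟩
  have hset : {x | x ∈ F ∧ ¬ Ipd p N0 (Fin.cons x δ : Fin (i + 1) → X)} = {x | x ∈ F ∧ P x} := by
    ext x
    exact and_congr Iff.rfl (hP x).symm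
  rw [hset, hcard P, hcard fun x => x ∈ N0]
  have hcls : ∀ s : X, (hF.toFinset.filter fun x => x + s ∈ N0).card ≤
      (hF.toFinset.filter fun x => x ∈ N0).card := by
    intro s
    rcases (hF.toFinset.filter fun x => x + s ∈ N0).eq_empty_or_nonempty with h | ⟨x₁, hx₁⟩
    · rw [h]
      simp
    · rw [Finset.mem_filter, Set.Finite.mem_toFinset] at hx₁
      refine Finset.card_le_card_of_injOn (fun x => x - x₁) ?_ ?_
      · intro x hx
        rw [Finset.mem_coe, Finset.mem_filter, Set.Finite.mem_toFinset] at hx ⊢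
        refine ⟨F.sub_mem hx.1 hx₁.1, ?_⟩
        have := N0.sub_mem hx.2 hx₁.2
        rw [add_sub_add_right_eq_sub] at this
        exact this
      · intro x _ x' _ h
        exact sub_left_injective h
  have hsub : (hF.toFinset.filter P) ⊆
      (Finset.univ : Finset (Fin i → ZMod p)).biUnion fun c =>
        hF.toFinset.filter fun x => x + ∑ k, (c k).val • δ k ∈ N0 := by
    intro x hx
    rw [Finset.mem_filter] at hx
    obtain ⟨c, hc⟩ := eqm3Key N0 hp δ hδ x ((hP x).1 hx.2)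
    rw [Finset.mem_biUnion]
    exact ⟨c, Finset.mem_univ _, Finset.mem_filter.2 ⟨hx.1, hc⟩⟩
  refine (Finset.card_le_card hsub).trans (Finset.card_biUnion_le.trans ?_)
  refine (Finset.sum_le_sum fun c _ => hcls (∑ k, (c k).val • δ k)).trans (le_of_eq ?_)
  rw [Finset.sum_const, smul_eq_mul, Finset.card_univ, Fintype.card_fun, Fintype.card_fin,
    ZMod.card]

private theorem eqm3Core (hV : S_Vd1) {p : ℕ} [Fact p.Prime] {X L : Type} [AddCommGroup X]
    [AddCommGroup L] [Finite L] (e : AddChar L ℂ) (f : X → L) (Fs : ℕ → AddSubgroup X)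
    (hfin : ∀ e, (Fs e : Set X).Finite) (hmono : Monotone Fs) (N0 : AddSubgroup X)
    (hp : ∀ x, p • x ∈ N0)
    (hbig : ∀ C : ℕ, ∃ e, C * {x | x ∈ Fs e ∧ x ∈ N0}.ncard ≤ {x | x ∈ Fs e}.ncard)
    (Cl : ∀ i : ℕ, (Fin i → X) → Prop)
    (hK : ∀ (i : ℕ) (δ : Fin i → X), Cl i δ → ∃ (K : AddSubgroup X) (C : ℕ),
      (∀ x, x ∈ K ↔ Cl (i + 1) (Fin.cons x δ : Fin (i + 1) → X)) ∧
        ∀ F : AddSubgroup X, (F : Set X).Finite → Nat.card F ≤ C * {x | x ∈ F ∧ x ∈ K}.ncard)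
    (m : ℕ) (hbase : ∀ δ : Fin m → X, Ipd p N0 δ → Cl m δ → ∃ (x₀ : X) (e₀ : ℕ) (c : ℂ),
      x₀ ∈ Fs e₀ ∧ c ≠ 1 ∧ ∀ D, e (eqm3F f (Fin.cons x₀ δ : Fin (m + 1) → X) D) = c) :
    ∀ k i : ℕ, i + k = m → ∀ δ : Fin i → X, Ipd p N0 δ → Cl i δ → ∀ ε : ℝ, 0 < ε →
      ∃ e₀ : ℕ, ∀ 𝒟 : AddSubgroup X, (𝒟 : Set X).Finite → Fs e₀ ≤ 𝒟 →
        ‖∑ᶠ D ∈ (𝒟 : Set X), e (eqm3F f δ D)‖ ≤ ε * Nat.card 𝒟 := by
  classical
  intro k
  induction k with
  | zero =>
    intro i hi δ hδ hcl ε hε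
    have him : i = m := hi
    subst him
    obtain ⟨x₀, e₀, c, hx₀, hc, hD⟩ := hbase δ hδ hcl
    refine ⟨e₀, fun 𝒟 h𝒟 hle => ?_⟩
    have : Finite 𝒟 := h𝒟
    have : Fintype 𝒟 := Fintype.ofFinite _
    have hx : x₀ ∈ 𝒟 := hle hx₀
    have h1 : ∀ D, (e (eqm3F f δ D) : ℂ) = c * e (eqm3F f δ (D + x₀)) := by
      intro D
      rw [← hD D, ← AddChar.map_add_eq_mul, eqm3F_cons, sub_add_cancel]
    have h2 : ∑ᶠ D ∈ (𝒟 : Set X), (e (eqm3F f δ D) : ℂ) = 0 := by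
      rw [eqm3Sum]
      have e1 := Equiv.sum_comp (Equiv.addRight (⟨x₀, hx⟩ : 𝒟))
        fun D : 𝒟 => (e (eqm3F f δ (D : X)) : ℂ)
      have e2 : ∑ D : 𝒟, (e (eqm3F f δ (D : X)) : ℂ) =
          c * ∑ D : 𝒟, (e (eqm3F f δ (D : X)) : ℂ) := by
        conv_rhs => rw [← e1]
        rw [Finset.mul_sum]
        exact Finset.sum_congr rfl fun D _ => h1 D
      have e3 : (1 - c) * ∑ D : 𝒟, (e (eqm3F f δ (D : X)) : ℂ) = 0 := by
        rw [sub_mul, one_mul, ← e2, sub_self]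
      exact (mul_eq_zero.1 e3).resolve_left (sub_ne_zero.2 (Ne.symm hc))
    rw [h2, norm_zero]
    positivity
  | succ k ih =>
    intro i hi δ hδ hcl ε hε
    obtain ⟨K, C, hK1, hK2⟩ := hK i δ hcl
    have hfinT : ∀ e, Finite (Fs e) := fun e => hfin e
    have hC : 0 < C := by
      have h1 := hK2 (Fs 0) (hfin 0)
      have h2 : 0 < Nat.card (Fs 0) := Nat.card_pos
      rcases Nat.eq_zero_or_pos C with h | h
      · rw [h, Nat.zero_mul] at h1
        omega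
      · exact h
    have hC' : (0 : ℝ) < C := by exact_mod_cast hC
    have hε2 : 0 < ε ^ 2 := by positivity
    obtain ⟨B, hB⟩ := exists_nat_ge (2 * C * (p : ℝ) ^ i / ε ^ 2)
    obtain ⟨e', he'⟩ := hbig B
    have hHfin : ((Fs e' ⊓ K : AddSubgroup X) : Set X).Finite :=
      (hfin e').subset (show ((Fs e' ⊓ K : AddSubgroup X) : Set X) ⊆ (Fs e' : Set X) from
        fun x hx => (AddSubgroup.mem_inf.1 hx).1)
    obtain ⟨H, hHdef⟩ : ∃ H : AddSubgroup X, H = Fs e' ⊓ K := ⟨_, rfl⟩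
    rw [← hHdef] at hHfin
    have hHmem : ∀ x, x ∈ H ↔ x ∈ Fs e' ∧ x ∈ K := fun x => by rw [hHdef, AddSubgroup.mem_inf]
    have hHle : H ≤ Fs e' := fun x hx => ((hHmem x).1 hx).1
    have : Finite H := hHfin
    have : Fintype H := Fintype.ofFinite _
    have hcardH : Nat.card (Fs e') ≤ C * Nat.card H := by
      refine (hK2 (Fs e') (hfin e')).trans (le_of_eq ?_)
      congr 1
      rw [← Nat.card_coe_set_eq]
      exact Nat.card_congr (Equiv.subtypeEquivRight fun x => (hHmem x).symm)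
    have hcardF : {x | x ∈ Fs e'}.ncard = Nat.card (Fs e') := by
      rw [← Nat.card_coe_set_eq]
      rfl
    obtain ⟨M, hM⟩ : ∃ M, M = {x | x ∈ Fs e' ∧ x ∈ N0}.ncard := ⟨_, rfl⟩
    rw [hcardF, ← hM] at he'
    have hnum : 2 * ((p : ℝ) ^ i * M) ≤ ε ^ 2 * Nat.card H := by
      have a1 : (B : ℝ) * M ≤ C * Nat.card H := by exact_mod_cast he'.trans hcardH
      rw [div_le_iff₀ hε2] at hB
      have a2 : (0 : ℝ) ≤ M := by positivity
      have a3 : 2 * C * (p : ℝ) ^ i * M ≤ B * ε ^ 2 * M := mul_le_mul_of_nonneg_right hB a2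
      have a4 : B * ε ^ 2 * M ≤ ε ^ 2 * (C * Nat.card H) := by nlinarith
      have a5 : C * (2 * ((p : ℝ) ^ i * M)) ≤ C * (ε ^ 2 * Nat.card H) := by nlinarith
      exact le_of_mul_le_mul_left a5 hC'
    have hIH : ∀ x : X, ∃ e₁ : ℕ, Ipd p N0 (Fin.cons x δ : Fin (i + 1) → X) →
        Cl (i + 1) (Fin.cons x δ : Fin (i + 1) → X) →
        ∀ 𝒟 : AddSubgroup X, (𝒟 : Set X).Finite → Fs e₁ ≤ 𝒟 →
        ‖∑ᶠ D ∈ (𝒟 : Set X), e (eqm3F f (Fin.cons x δ : Fin (i + 1) → X) D)‖ ≤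
          ε ^ 2 / 2 * Nat.card 𝒟 := by
      intro x
      by_cases h1 : Ipd p N0 (Fin.cons x δ : Fin (i + 1) → X)
      · by_cases h2 : Cl (i + 1) (Fin.cons x δ : Fin (i + 1) → X)
        · obtain ⟨e₁, he₁⟩ := ih (i + 1) (by omega) _ h1 h2 (ε ^ 2 / 2) (by positivity)
          exact ⟨e₁, fun _ _ => he₁⟩
        · exact ⟨0, fun _ h => absurd h h2⟩
      · exact ⟨0, fun h => absurd h h1⟩
    choose e₁ he₁ using hIH
    refine ⟨max e' (hHfin.toFinset.sup e₁), fun 𝒟 h𝒟 hle => ?_⟩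
    have : Finite 𝒟 := h𝒟
    have : Fintype 𝒟 := Fintype.ofFinite _
    have hH𝒟 : H ≤ 𝒟 := hHle.trans ((hmono (le_max_left _ _)).trans hle)
    have hvd := hV X 𝒟 H h𝒟 hH𝒟 (fun D => (e (eqm3F f δ D) : ℂ))
    have hrew : ∀ x D, (e (eqm3F f δ D) : ℂ) * (starRingEnd ℂ) (e (eqm3F f δ (D + x))) =
        e (eqm3F f (Fin.cons x δ : Fin (i + 1) → X) D) := by
      intro x D
      rw [← AddChar.map_neg_eq_conj, ← AddChar.map_add_eq_mul, eqm3F_cons, sub_eq_add_neg]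
    simp only [hrew] at hvd
    have hone : ∀ (x : X), ‖∑ᶠ D ∈ (𝒟 : Set X),
        (e (eqm3F f (Fin.cons x δ : Fin (i + 1) → X) D) : ℂ)‖ ≤ Nat.card 𝒟 := by
      intro x
      rw [eqm3Sum]
      refine (norm_sum_le _ _).trans ?_
      simp only [AddChar.norm_apply, Finset.sum_const, Finset.card_univ, nsmul_eq_mul, mul_one,
        Nat.card_eq_fintype_card, le_refl]
    have hterm : ∀ x ∈ H, ‖∑ᶠ D ∈ (𝒟 : Set X),
        (e (eqm3F f (Fin.cons x δ : Fin (i + 1) → X) D) : ℂ)‖ ≤ ε ^ 2 / 2 * Nat.card 𝒟 +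
          if ¬ Ipd p N0 (Fin.cons x δ : Fin (i + 1) → X) then (Nat.card 𝒟 : ℝ) else 0 := by
      intro x hx
      by_cases hg : Ipd p N0 (Fin.cons x δ : Fin (i + 1) → X)
      · rw [if_neg (not_not.2 hg), add_zero]
        refine he₁ x hg ((hK1 x).1 ((hHmem x).1 hx).2) 𝒟 h𝒟 ((hmono ?_).trans hle)
        exact (Finset.le_sup (f := e₁) (hHfin.mem_toFinset.2 hx)).trans (le_max_right _ _)
      · rw [if_pos hg]
        have := hone x
        have h0 : 0 ≤ ε ^ 2 / 2 * (Nat.card 𝒟 : ℝ) := by positivity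
        linarith
    have hbadn : ((Finset.univ.filter fun x : H =>
        ¬ Ipd p N0 (Fin.cons (x : X) δ : Fin (i + 1) → X)).card : ℝ) ≤ (p : ℝ) ^ i * M := by
      have h1 := eqm3Bad N0 (Fs e') hp (hfin e') δ hδ
      rw [← hM] at h1
      have h2 : (Finset.univ.filter fun x : H =>
          ¬ Ipd p N0 (Fin.cons (x : X) δ : Fin (i + 1) → X)).card ≤
          {x | x ∈ Fs e' ∧ ¬ Ipd p N0 (Fin.cons x δ : Fin (i + 1) → X)}.ncard := by
        rw [← Finset.card_map (Function.Embedding.subtype fun x => x ∈ H), ← Set.ncard_coe_finset]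
        refine Set.ncard_le_ncard ?_ ?_
        · intro x hx
          rw [Finset.mem_coe, Finset.mem_map] at hx
          obtain ⟨x', hx', rfl⟩ := hx
          exact ⟨hHle x'.2, (Finset.mem_filter.1 hx').2⟩
        · refine (hfin e').subset ?_
          rintro x ⟨hx, -⟩
          exact hx
      exact_mod_cast h2.trans h1
    have hsum : ∑ᶠ x ∈ (H : Set X), ‖∑ᶠ D ∈ (𝒟 : Set X),
        (e (eqm3F f (Fin.cons x δ : Fin (i + 1) → X) D) : ℂ)‖ ≤
          ε ^ 2 * Nat.card 𝒟 * Nat.card H := by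
      rw [eqm3Sum]
      refine (Finset.sum_le_sum fun (x : H) _ => hterm (x : X) x.2).trans ?_
      rw [Finset.sum_add_distrib, Finset.sum_const, Finset.card_univ, nsmul_eq_mul,
        ← Finset.sum_filter, Finset.sum_const, nsmul_eq_mul, ← Nat.card_eq_fintype_card]
      have h1 := mul_le_mul_of_nonneg_right hbadn (Nat.cast_nonneg (α := ℝ) (Nat.card 𝒟))
      have h2 := mul_le_mul_of_nonneg_right hnum (Nat.cast_nonneg (α := ℝ) (Nat.card 𝒟))
      nlinarith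
    have hHpos : (0 : ℝ) < Nat.card H := by
      have : 0 < Nat.card H := Nat.card_pos
      exact_mod_cast this
    have hfinal : ‖∑ᶠ D ∈ (𝒟 : Set X), (e (eqm3F f δ D) : ℂ)‖ ^ 2 ≤ (ε * Nat.card 𝒟) ^ 2 := by
      have h1 := hvd.trans (mul_le_mul_of_nonneg_left hsum (Nat.cast_nonneg (α := ℝ) (Nat.card 𝒟)))
      refine le_of_mul_le_mul_right (h1.trans (le_of_eq ?_)) hHpos
      ring
    exact le_of_sq_le_sq hfinal (by positivity)

/-- Equidistribution. -/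
theorem tEqM3 (h1 : S_Zac) (h2 : S_Rzc) (_h3 : S_Lin3) (h4 : S_Der3) (h5 : S_Vd1) (h6 : S_Kdl) :
    S_EqM3 := by
  intro p _ G _ _ _ S X _ d A T hA Λ N V _ _ _ _ _ ζ r hr ρ hρ q ρV hq y hTs hGen e m η hη hη0 he
  obtain ⟨-, -, -, -, z5, z6, -⟩ := h1 p G Λ N ζ A.ω r hr ρ hA.om hρ
  obtain ⟨hVfin, ⟨s, -, hs⟩, hpV, hact, hRdz, -, -⟩ :=
    (h2 p G Λ N ζ A.ω r hr ρ hA.om hρ).2 V q ρV hq
  obtain ⟨N0, hpN, hbig, hnd⟩ := hA.nd V s hs hpV ρV hact
  -- additivity of `A.h`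
  let hh : X →+ (G → ZMod p) := AddMonoidHom.mk' A.h fun a b => funext fun g => hA.add a b g
  have hhs : ∀ (i : ℕ) (δ : Fin i → X) (c : Fin i → Bool) (D : X),
      A.h (D + ∑ k, if c k then δ k else 0) =
        fun g => A.h D g + ∑ k, if c k then A.h (δ k) g else 0 := by
    intro i δ c D
    have e1 : A.h (D + ∑ k, if c k then δ k else 0) = hh (D + ∑ k, if c k then δ k else 0) := rfl
    rw [e1, map_add, map_sum]
    funext g
    rw [Pi.add_apply, Finset.sum_apply]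
    refine congrArg (fun w => A.h D g + w) (Finset.sum_congr rfl fun k _ => ?_)
    by_cases hk : c k = true
    · rw [if_pos hk, if_pos hk]
      rfl
    · rw [if_neg hk, if_neg hk, map_zero]
      rfl
  have ha : ∀ (i : ℕ) (δ : Fin i → X) (D : X), ∃ x' : Fin d → N,
      eqm3F (fun D => (Ts T (twz ζ ρ (A.h D)) y : Fin d → N)) δ D = (1 - ζ) ^ i • x' ∧
        ∀ j, q (x' j) = Tx A T ρV δ (fun k => q (y k)) j univ := by
    intro i δ D
    have hd := fun j => h4 p G S d A.ω A.D T hA.om hA.h2 hA.ok Λ N V ζ r hr (twz ζ ρ (A.h D))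
      (z5 (A.h D) (hA.hom D)) q ρV (hRdz (A.h D)) i (fun k => A.h (δ k))
      (fun k => hA.hom (δ k)) y j
    choose x' hx' hqx' using hd
    refine ⟨x', ?_, hqx'⟩
    funext j
    have e1 := hx' j
    rw [Pi.smul_apply, ← e1]
    unfold eqm3F
    rw [Finset.sum_apply]
    refine Finset.sum_congr rfl fun c _ => ?_
    rw [Pi.smul_apply]
    show (∏ k, sb (c k)) • Ts T (twz ζ ρ (A.h (D + ∑ k, if c k then δ k else 0))) y j = _
    rw [hhs, z6]
  have hcore := eqm3Core h5 (p := p) e (fun D => (Ts T (twz ζ ρ (A.h D)) y : Fin d → N)) A.F hA.fin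
    hA.mono N0 hpN hbig (fun i δ => Cld A T ρV δ)
    (fun i δ hcl => h6 p G S X d A T hA V s hs hpV ρV hact i δ hcl) m (fun δ hδ hcl => by
      obtain ⟨x₀, hx₀⟩ := hnd m δ hδ hcl η hη hη0 (fun k => q (y k)) hTs hGen
      obtain ⟨e₀, he₀⟩ := hA.exh x₀
      refine ⟨x₀, e₀, ZMod.stdAddChar (η fun j =>
        Tx A T ρV (Fin.cons x₀ δ : Fin (m + 1) → X) (fun k => q (y k)) j univ), he₀, ?_, ?_⟩
      · intro h
        apply hx₀
        rw [← (ZMod.stdAddChar (N := p)).map_zero_eq_one] at h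
        exact ZMod.injective_stdAddChar h
      · intro D
        obtain ⟨x', h1', h2'⟩ := ha (m + 1) (Fin.cons x₀ δ : Fin (m + 1) → X) D
        rw [h1', he]
        congr 2
        funext j
        exact h2' j)
  intro ε hε
  obtain ⟨e₀, he₀⟩ := hcore m 0 (Nat.zero_add m) (fun k => k.elim0)
    (fun c _ => Subsingleton.elim _ _)
    (fun c j I hI => absurd (Finset.eq_empty_of_isEmpty I) hI) ε hε
  refine ⟨e₀, fun 𝒟 h𝒟 hle => ?_⟩
  have := he₀ 𝒟 h𝒟 hle
  simp only [eqm3F_zero] at this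
  exact this

end Pool.Agent.MP72G
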