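import Pool.Agent.Lib.MP_72e2e6_nt.P4.Z.Spec

/-!
# MP_72e2e6_nt, theorem T4, part Z: elementary properties of `Zs`, `Ts`, `Ker` for finite modules
-/

namespace Pool.Agent.MP72G

open Finset Pool.Agent.MP72P

section

variable {p : ℕ} {G S M : Type} [Group G] [TopologicalSpace G] [AddCommGroup M]
  {ω : G → ZMod p} {d : ℕ} {T : Tst G S d} {ρ : G → M → M}

/-- The operators as additive maps. -/
private def Lin3_hom (hρ : ActP p ω ρ) (g : G) : M →+ M := AddMonoidHom.mk' (ρ g) (hρ.add g)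

private theorem Lin3_sub (hρ : ActP p ω ρ) (g : G) (x y : M) : ρ g (x - y) = ρ g x - ρ g y :=
  map_sub (Lin3_hom hρ g) x y

omit [Group G] [TopologicalSpace G] in
private theorem Lin3_psi {M' : Type} [AddCommGroup M'] {ρ' : G → M' → M'} (f : M →+ M')
    (hf : ∀ g x, f (ρ g x) = ρ' g (f x)) (z : (G → M) × (S → M)) (w : S) (g : G) :
    psi ρ' ((fun g => f (z.1 g), fun s => f (z.2 s)) : (G → M') × (S → M')) w g =
      f (psi ρ z w g) := by
  show f (z.1 g) - (f (z.2 w) - ρ' g (f (z.2 w))) = f (z.1 g - (z.2 w - ρ g (z.2 w)))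
  rw [map_sub, map_sub, hf]

private theorem Lin3_coc {M' : Type} [AddCommGroup M'] {ρ' : G → M' → M'} (f : M →+ M')
    (hf : ∀ g x, f (ρ g x) = ρ' g (f x)) {c : G → M} (hc : Coc ρ c) :
    Coc ρ' (fun g => f (c g)) where
  loc := hc.loc.comp f
  mul g h := by
    show f (c (g * h)) = f (c g) + ρ' g (f (c h))
    rw [hc.mul, map_add, hf]

omit [Group G] [TopologicalSpace G] in
private theorem Lin3_co {M M' : Type} (f : M → M') (z : (G → M) × (S → M)) (k : Fin (d + 1)) :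
    T.co ((fun g => f (z.1 g), fun s => f (z.2 s)) : (G → M') × (S → M')) k = f (T.co z k) := by
  unfold Tst.co
  cases T.y k <;> rfl

private theorem Lin3_isS {M' : Type} [AddCommGroup M'] {ρ' : G → M' → M'} (f : M →+ M')
    (hf : ∀ g x, f (ρ g x) = ρ' g (f x)) {y : Fin (d + 1) → M} {z : (G → M) × (S → M)}
    (hz : IsS T ρ y z) : IsS T ρ' (fun k => f (y k))
      ((fun g => f (z.1 g), fun s => f (z.2 s)) : (G → M') × (S → M')) where
  coc := Lin3_coc f hf hz.coc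
  ts i := by rw [Lin3_psi f hf, hz.ts, map_zero]
  co k := by rw [Lin3_co, hz.co]

private theorem Lin3_coc_add (hρ : ActP p ω ρ) {c c' : G → M} (hc : Coc ρ c) (hc' : Coc ρ c') :
    Coc ρ (c + c') where
  loc := (hc.loc.prodMk hc'.loc).comp (fun q => q.1 + q.2)
  mul g h := by
    show c (g * h) + c' (g * h) = c g + c' g + ρ g (c h + c' h)
    rw [hc.mul, hc'.mul, hρ.add]
    abel

private theorem Lin3_coc_sub (hρ : ActP p ω ρ) {c c' : G → M} (hc : Coc ρ c) (hc' : Coc ρ c') :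
    Coc ρ (c - c') where
  loc := (hc.loc.prodMk hc'.loc).comp (fun q => q.1 - q.2)
  mul g h := by
    show c (g * h) - c' (g * h) = c g - c' g + ρ g (c h - c' h)
    rw [hc.mul, hc'.mul, Lin3_sub hρ]
    abel

private theorem Lin3_psi_add (hρ : ActP p ω ρ) (z z' : (G → M) × (S → M)) (w : S) (g : G) :
    psi ρ (z + z') w g = psi ρ z w g + psi ρ z' w g := by
  show z.1 g + z'.1 g - (z.2 w + z'.2 w - ρ g (z.2 w + z'.2 w)) =
    z.1 g - (z.2 w - ρ g (z.2 w)) + (z'.1 g - (z'.2 w - ρ g (z'.2 w)))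
  rw [hρ.add]
  abel

private theorem Lin3_psi_sub (hρ : ActP p ω ρ) (z z' : (G → M) × (S → M)) (w : S) (g : G) :
    psi ρ (z - z') w g = psi ρ z w g - psi ρ z' w g := by
  show z.1 g - z'.1 g - (z.2 w - z'.2 w - ρ g (z.2 w - z'.2 w)) =
    z.1 g - (z.2 w - ρ g (z.2 w)) - (z'.1 g - (z'.2 w - ρ g (z'.2 w)))
  rw [Lin3_sub hρ]
  abel

private theorem Lin3_isS_add (hρ : ActP p ω ρ) {y y' : Fin (d + 1) → M}
    {z z' : (G → M) × (S → M)} (hz : IsS T ρ y z) (hz' : IsS T ρ y' z') :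
    IsS T ρ (y + y') (z + z') where
  coc := Lin3_coc_add hρ hz.coc hz'.coc
  ts i := by rw [Lin3_psi_add hρ, hz.ts i, hz'.ts i, add_zero]
  co k := by
    have h1 := hz.co k
    have h2 := hz'.co k
    rw [Pi.add_apply, ← h1, ← h2]
    unfold Tst.co
    cases T.y k <;> rfl

private theorem Lin3_coccs (hρ : ActP p ω ρ) (b : M) : Coc ρ (fun g => b - ρ g b) where
  loc := (hρ.loc b).comp (fun x => b - x)
  mul g h := by
    show b - ρ (g * h) b = b - ρ g b + ρ g (b - ρ h b)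
    rw [hρ.mul, Lin3_sub hρ]
    abel

private theorem Lin3_cocpsi (hρ : ActP p ω ρ) {z : (G → M) × (S → M)}
    (hz : Coc ρ z.1) (w : S) : Coc ρ (fun g => psi ρ z w g) := by
  have h := Lin3_coc_sub hρ hz (Lin3_coccs hρ (z.2 w))
  exact h

/-- Existence and uniqueness of the solutions; a crossed homomorphism on `D w` which vanishes at all
tests is `0`. -/
private theorem Lin3_core [Fact p.Prime] [IsTopologicalGroup G] (hU : S_Uni2)
    (hω : ChO p ω) (h2 : H2Z p ω) {D : S → Subgroup G} (hT : T.Ok p ω D)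
    [Finite M] {r : ℕ} (hr : Nat.card M = p ^ r) (hρ : ActP p ω ρ) :
    (∀ y, IsS T ρ y (Zs T ρ y)) ∧ (∀ y z, IsS T ρ y z → z = Zs T ρ y) ∧
    ∀ (w : S) (f : D w → M), Coc (fun g : D w => ρ (g : G)) f →
        (∀ (i : T.I) (g : D w), T.w i = w → (g : G) = T.t i → f g = 0) →
        (∀ (j : Fin d) (g : D w), T.u j = w → (g : G) = T.e j → f g = 0) → f = 0 := by
  obtain ⟨hex, hdet⟩ := hU p G S d ω D T hω h2 hT M r hr ρ hρ
  have key : ∀ y : Fin (d + 1) → M, ∃! z, IsS T ρ y z := by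
    intro y
    have hfin : {i : T.I | (0 : T.I → M) i ≠ 0}.Finite := by
      have : {i : T.I | (0 : T.I → M) i ≠ 0} = ∅ := by
        ext i
        simp
      rw [this]
      exact Set.finite_empty
    obtain ⟨z, ⟨h3, h4, h5⟩, h6⟩ := hex 0 hfin y
    exact ⟨z, ⟨h3, h4, h5⟩, fun z' hz' => h6 z' ⟨hz'.coc, hz'.ts, hz'.co⟩⟩
  have k1 : ∀ y, IsS T ρ y (Zs T ρ y) := by
    intro y
    have h : ∃ z, IsS T ρ y z := (key y).exists
    unfold Zs
    rw [dif_pos h]
    exact h.choose_spec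
  exact ⟨k1, fun y z hz => (key y).unique hz (k1 y), hdet⟩

end

/-- **Lin3.** Elementary properties of `Zs`, `Ts`, `Ker` for finite modules. -/
theorem tLin3 (h1 : S_Uni2) : S_Lin3 := by
  intro p _ G _ _ _ S d ω D T hω h2 hT M _ _ r hr ρ hρ
  obtain ⟨c1, c2, c3⟩ := Lin3_core h1 hω h2 hT hr hρ
  have hker : ∀ z ∈ Ker ρ D, IsS T ρ (fun k => T.co z k) z := fun z hz =>
    ⟨hz.1, fun i => hz.2 _ _ (hT.ti i), fun k => rfl⟩
  have hbij : Set.BijOn (fun z : (G → M) × (S → M) => (T.co z : Fin (d + 1) → M)) (Ker ρ D)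
        {y | ∀ j, Ts T ρ y j = 0} := by
    refine ⟨?_, ?_, ?_⟩
    · intro z hz j
      have h3 := c2 _ _ (hker z hz)
      show psi ρ (Zs T ρ fun k => T.co z k) (T.u j) (T.e j) = 0
      rw [← h3]
      exact hz.2 _ _ (hT.ej j)
    · intro z hz z' hz' h
      have h' : (fun k => T.co z k) = fun k => T.co z' k := h
      rw [c2 _ _ (hker z hz), c2 _ _ (hker z' hz'), h']
    · intro y hy
      refine ⟨Zs T ρ y, ⟨(c1 y).coc, fun w g hg => ?_⟩, funext fun k => (c1 y).co k⟩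
      have hc := Lin3_cocpsi hρ (c1 y).coc w
      have hf : (fun g : D w => psi ρ (Zs T ρ y) w (g : G)) = 0 := by
        refine c3 w _ ⟨hc.loc.comp_continuous continuous_subtype_val,
          fun g h => hc.mul g h⟩ ?_ ?_
        · intro i g hi hgi
          show psi ρ (Zs T ρ y) w (g : G) = 0
          rw [hgi, ← hi]
          exact (c1 y).ts i
        · intro j g hj hgj
          show psi ρ (Zs T ρ y) w (g : G) = 0
          rw [hgj, ← hj]
          exact hy j
      exact congrFun hf ⟨g, hg⟩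
  refine ⟨c1, c2, ?_, ?_, hbij, ?_, ?_, ?_⟩
  · -- additivity
    intro y y' j
    have h3 := c2 _ _ (Lin3_isS_add hρ (c1 y) (c1 y'))
    unfold Ts
    rw [← h3, Lin3_psi_add hρ]
  · -- additive maps
    intro M' _ _ r' hr' ρ' hρ' f hf y
    obtain ⟨_, d2, _⟩ := Lin3_core h1 hω h2 hT hr' hρ'
    have h3 := d2 _ _ (Lin3_isS f hf (c1 y))
    refine ⟨h3.symm, fun j => ?_⟩
    unfold Ts
    rw [← h3, Lin3_psi f hf]
  · -- finiteness
    exact Set.Finite.of_injOn hbij.mapsTo hbij.injOn (Set.toFinite _)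
  · -- sums and differences
    intro z hz z' hz'
    refine ⟨⟨Lin3_coc_add hρ hz.1 hz'.1, fun w g hg => ?_⟩,
      ⟨Lin3_coc_sub hρ hz.1 hz'.1, fun w g hg => ?_⟩⟩
    · rw [Lin3_psi_add hρ, hz.2 w g hg, hz'.2 w g hg, add_zero]
    · rw [Lin3_psi_sub hρ, hz.2 w g hg, hz'.2 w g hg, sub_zero]
  · -- constant pairs
    intro b
    refine ⟨Lin3_coccs hρ b, fun w g hg => ?_⟩
    show b - ρ g b - (b - ρ g b) = 0
    exact sub_self _

end Pool.Agent.MP72G
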