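import Pool.Agent.Lib.MP_72e2e6_nt.P4.Z.Spec

/-!
# MP_72e2e6_nt, part Z: the restriction to a stable submodule
-/

namespace Pool.Agent.MP72G

open Finset Pool.Agent.MP72P

private theorem rsn_coe {G Λ N : Type} [CommRing Λ] [AddCommGroup N] [Module Λ N]
    {ρ : G → N → N} {N₁ : Submodule Λ N} (hS : Stb ρ N₁) (g : G) (x : N₁) :
    ((rsn ρ N₁ g x : N₁) : N) = ρ g x := by
  rw [rsn, dif_pos (hS g x x.2)]

private theorem stb_twz {p : ℕ} {G Λ N : Type} [CommRing Λ] [AddCommGroup N] [Module Λ N]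
    {ζ : Λ} (hζ : ζ ^ p = 1) (hp : 0 < p) (ρ : G → N → N) (h : G → ZMod p)
    (N₁ : Submodule Λ N) : Stb (twz ζ ρ h) N₁ ↔ Stb ρ N₁ := by
  constructor
  · intro hS g x hx
    have h1 : ζ ^ (h g).val • ρ g x ∈ N₁ := hS g x hx
    have h2 := N₁.smul_mem (ζ ^ ((p - 1) * (h g).val)) h1
    rw [smul_smul, ← pow_add] at h2
    have h3 : (p - 1) * (h g).val + (h g).val = p * (h g).val := by
      obtain ⟨q, rfl⟩ : ∃ q, p = q + 1 := ⟨p - 1, by omega⟩
      rw [Nat.add_sub_cancel]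
      ring
    rwa [h3, pow_mul, hζ, one_pow, one_smul] at h2
  · intro hS g x hx
    exact N₁.smul_mem _ (hS g x hx)

theorem tRsn (h1 : S_Zac) : S_Rsn := by
  intro p hp G Λ N _ _ _ _ _ _ _ ζ ω r hr ρ hω hZ N₁
  have hζ : ζ ^ p = 1 := (h1 p G Λ N ζ ω r hr ρ hω hZ).1
  have hp0 : 0 < p := hp.out.pos
  refine ⟨fun h => stb_twz hζ hp0 ρ h N₁, fun hS => ⟨⟨hZ.phi, hZ.res, ?_, ?_⟩, rsn_coe hS, ?_⟩,
    ?_, ?_⟩
  · refine ⟨fun g x y => ?_, fun x => ?_, fun g h x => ?_, fun x => ?_, fun g => ?_⟩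
    · apply Subtype.ext
      rw [rsn_coe hS, Submodule.coe_add, Submodule.coe_add, rsn_coe hS, rsn_coe hS, hZ.act.add]
    · apply Subtype.ext
      rw [rsn_coe hS, hZ.act.one]
    · apply Subtype.ext
      rw [rsn_coe hS, rsn_coe hS, rsn_coe hS, hZ.act.mul]
    · refine IsLocallyConstant.desc (fun g => rsn ρ N₁ g x) (Subtype.val : N₁ → N) ?_
        Subtype.val_injective
      have h2 : (Subtype.val : N₁ → N) ∘ (fun g => rsn ρ N₁ g x) = fun g => ρ g x := by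
        funext g
        exact rsn_coe hS g x
      rw [h2]
      exact hZ.act.loc x
    · obtain ⟨k, hk⟩ := hZ.act.uni g
      refine ⟨k, fun x => Subtype.ext ?_⟩
      rw [rsn_coe hS, hk]
      rfl
  · intro g c x
    apply Subtype.ext
    rw [rsn_coe hS, Submodule.coe_smul, Submodule.coe_smul, rsn_coe hS, hZ.lin]
  · intro h
    funext g x
    apply Subtype.ext
    rw [rsn_coe ((stb_twz hζ hp0 ρ h N₁).mpr hS)]
    change ζ ^ (h g).val • ρ g x = ((ζ ^ (h g).val • rsn ρ N₁ g x : N₁) : N)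
    rw [Submodule.coe_smul, rsn_coe hS]
  · have h2 : Nat.card N₁ ∣ p ^ r := by
      rw [← hr]
      exact AddSubgroup.card_addSubgroup_dvd_card N₁.toAddSubgroup
    obtain ⟨s, hs, h3⟩ := (Nat.dvd_prime_pow hp.out).mp h2
    exact ⟨s, hs, h3⟩
  · exact AddSubgroup.index_mul_card N₁.toAddSubgroup

end Pool.Agent.MP72G
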