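import Pool.Agent.Lib.MP_72e2e6_nt.P4.Z.Spec

/-!
# MP_72e2e6_nt, theorem T4, part Z: the reduction (helper84)
-/

namespace Pool.Agent.MP72G

open Finset Pool.Agent.MP72P

private theorem exRdz {p : ℕ} {G Λ N : Type} [Group G] [TopologicalSpace G] [CommRing Λ] [AddCommGroup N]
    [Module Λ N] (ζ : Λ) (ω : G → ZMod p) (ρ : G → N → N) (hz : ZM p ζ ω ρ) :
    ∃ (V : Type) (_ : AddCommGroup V) (q : N →+ V) (ρV : G → V → V), Rdz ζ ρ q ρV := by
  let f : N →+ N := DistribSMul.toAddMonoidHom N (1 - ζ)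
  have hsur : Function.Surjective (QuotientAddGroup.mk' f.range) := QuotientAddGroup.mk'_surjective _
  have hker : ∀ x, QuotientAddGroup.mk' f.range x = 0 ↔ ∃ y, x = (1 - ζ) • y := by
    intro x
    rw [QuotientAddGroup.mk'_apply, QuotientAddGroup.eq_zero_iff, AddMonoidHom.mem_range]
    constructor
    · rintro ⟨y, hy⟩
      exact ⟨y, hy.symm⟩
    · rintro ⟨y, hy⟩
      exact ⟨y, hy.symm⟩
  refine ⟨N ⧸ f.range, inferInstance, QuotientAddGroup.mk' f.range,
    fun g v => QuotientAddGroup.mk' f.range (ρ g (Function.surjInv hsur v)), hsur, hker, fun g x => ?_⟩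
  have h1 : QuotientAddGroup.mk' f.range (x - Function.surjInv hsur (QuotientAddGroup.mk' f.range x)) = 0 := by
    rw [map_sub, Function.surjInv_eq hsur, sub_self]
  obtain ⟨y, hy⟩ := (hker _).1 h1
  have h2 : x = Function.surjInv hsur (QuotientAddGroup.mk' f.range x) + (1 - ζ) • y := by
    rw [← hy]
    abel
  have h3 : ρ g x = ρ g (Function.surjInv hsur (QuotientAddGroup.mk' f.range x)) + (1 - ζ) • ρ g y := by
    rw [← hz.lin, ← hz.act.add, ← h2]
  show QuotientAddGroup.mk' f.range (ρ g x) =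
    QuotientAddGroup.mk' f.range (ρ g (Function.surjInv hsur (QuotientAddGroup.mk' f.range x)))
  rw [h3, map_add, (hker _).2 ⟨ρ g y, rfl⟩, add_zero]

theorem tRzc (h1 : S_Zac) : S_Rzc := by
  intro p _ G Λ N _ _ _ _ _ _ _ ζ ω r hr ρ hω hz
  refine ⟨exRdz ζ ω ρ hz, fun V _ q ρV hq => ?_⟩
  obtain ⟨-, -, ⟨u, hu⟩, -, -, -, -⟩ := h1 p G Λ N ζ ω r hr ρ hω hz
  have h0 : ∀ x : N, q ((1 - ζ) • x) = 0 := fun x => (hq.ker _).2 ⟨x, rfl⟩
  have h2 : ∀ x : N, q (ζ • x) = q x := by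
    intro x
    have h3 := h0 x
    rw [sub_smul, one_smul, map_sub, sub_eq_zero] at h3
    exact h3.symm
  have h4 : ∀ (i : ℕ) (x : N), q (ζ ^ i • x) = q x := by
    intro i x
    induction i with
    | zero => rw [pow_zero, one_smul]
    | succ i ih => rw [pow_succ', mul_smul, h2, ih]
  refine ⟨Finite.of_surjective q hq.sur, ?_, ?_, ?_, ?_, h4, h0⟩
  · have h5 : Nat.card V ∣ Nat.card N := AddSubgroup.card_dvd_of_surjective q hq.sur
    rw [hr] at h5
    exact (Nat.dvd_prime_pow Fact.out).1 h5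
  · intro v
    obtain ⟨x, rfl⟩ := hq.sur v
    rw [← map_nsmul, ← Nat.cast_smul_eq_nsmul Λ, hu, mul_smul, h0]
  · refine ⟨?_, ?_, ?_, ?_, ?_⟩
    · intro g v w
      obtain ⟨x, rfl⟩ := hq.sur v
      obtain ⟨y, rfl⟩ := hq.sur w
      rw [← map_add, ← hq.eqv, ← hq.eqv, ← hq.eqv, hz.act.add, map_add]
    · intro v
      obtain ⟨x, rfl⟩ := hq.sur v
      rw [← hq.eqv, hz.act.one]
    · intro g h v
      obtain ⟨x, rfl⟩ := hq.sur v
      rw [← hq.eqv, ← hq.eqv, ← hq.eqv, hz.act.mul]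
    · intro v
      obtain ⟨x, rfl⟩ := hq.sur v
      have h5 : (fun g => ρV g (q x)) = q ∘ fun g => ρ g x := by
        funext g
        exact (hq.eqv g x).symm
      rw [h5]
      exact (hz.act.loc x).comp q
    · intro g
      obtain ⟨k, hk⟩ := hz.act.uni g
      refine ⟨k, fun v => ?_⟩
      obtain ⟨x, rfl⟩ := hq.sur v
      rw [← hq.eqv, hk, map_nsmul]
  · intro h
    refine ⟨hq.sur, hq.ker, fun g x => ?_⟩
    show q (ζ ^ (h g).val • ρ g x) = ρV g (q x)
    rw [h4, hq.eqv]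

end Pool.Agent.MP72G
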