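import Pool.Agent.Lib.MP_72e2e6_nt.P4.Z.Spec

/-!
# MP_72e2e6_nt, theorem T4, part Z, module Spn: the submodule generated by the differences
-/

namespace Pool.Agent.MP72G

open Finset Pool.Agent.MP72P

private theorem spn_rsn {G Λ N : Type} [CommRing Λ] [AddCommGroup N] [Module Λ N]
    {ρ : G → N → N} {N₁ : Submodule Λ N} (h : Stb ρ N₁) (g : G) (x : N₁) :
    ((rsn ρ N₁ g x : N₁) : N) = ρ g x := by
  unfold rsn
  rw [dif_pos (h g x x.2)]

theorem tSpn : S_Spn := by
  classical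
  intro p _ G _ _ _ S _ ω D Λ N _ _ _ _ ζ r _ ρ hZ z hz
  obtain ⟨hc, hk⟩ := hz
  have hadd := hZ.act.add
  have h0 : ∀ g, ρ g 0 = 0 := by
    intro g
    have h := hadd g 0 0
    rw [add_zero] at h
    exact left_eq_add.1 h
  have hsub : ∀ g x y, ρ g (x - y) = ρ g x - ρ g y := by
    intro g x y
    have h := hadd g (x - y) y
    rw [sub_add_cancel] at h
    rw [h, add_sub_cancel_right]
  have hz1 : z.1 1 = 0 := by
    have h := hc.mul 1 1
    rw [mul_one, hZ.act.one] at h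
    exact left_eq_add.1 h
  let A : Set N := {x | ∃ g w g' w', x = dif ρ z g w - dif ρ z g' w'}
  let N₁ : Submodule Λ N := Submodule.span Λ A
  have hmem : ∀ g w g' w', dif ρ z g w - dif ρ z g' w' ∈ N₁ := fun g w g' w' =>
    Submodule.subset_span ⟨g, w, g', w', rfl⟩
  have hdif : ∀ g' g w, ρ g' (dif ρ z g w) = dif ρ z (g' * g) w - z.1 g' := by
    intro g' g w
    unfold dif
    rw [hadd, hc.mul, hZ.act.mul]
    abel
  have hst : Stb ρ N₁ := by
    intro g x hx
    induction hx using Submodule.span_induction with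
    | mem x h =>
      obtain ⟨a, w, a', w', rfl⟩ := h
      rw [hsub, hdif, hdif, sub_sub_sub_cancel_right]
      exact hmem _ _ _ _
    | zero =>
      rw [h0]
      exact zero_mem _
    | add x y _ _ hx hy =>
      rw [hadd]
      exact add_mem hx hy
    | smul c x _ hx =>
      rw [hZ.lin]
      exact Submodule.smul_mem _ _ hx
  obtain ⟨w₀⟩ := ‹Nonempty S›
  have hb1 : ∀ w, dif ρ z 1 w = z.2 w := by
    intro w
    unfold dif
    rw [hz1, hZ.act.one, zero_add]
  refine ⟨N₁, z.2 w₀, hst, fun b' hb' => ?_⟩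
  have hm1 : ∀ g, z.1 g - (b' - ρ g b') ∈ N₁ := by
    intro g
    have e : z.1 g - (b' - ρ g b') =
        (dif ρ z g w₀ - dif ρ z 1 w₀) + (z.2 w₀ - b') - ρ g (z.2 w₀ - b') := by
      rw [hsub, hb1]
      unfold dif
      abel
    rw [e]
    exact sub_mem (add_mem (hmem _ _ _ _) hb') (hst g _ hb')
  have hm2 : ∀ w, z.2 w - b' ∈ N₁ := by
    intro w
    have e : z.2 w - b' = (dif ρ z 1 w - dif ρ z 1 w₀) + (z.2 w₀ - b') := by
      rw [hb1, hb1]
      abel
    rw [e]
    exact add_mem (hmem _ _ _ _) hb'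
  let z₁ : (G → N₁) × (S → N₁) :=
    (fun g => ⟨z.1 g - (b' - ρ g b'), hm1 g⟩, fun w => ⟨z.2 w - b', hm2 w⟩)
  have hz₁1 : ∀ g, ((z₁.1 g : N₁) : N) = z.1 g - (b' - ρ g b') := fun g => rfl
  have hz₁2 : ∀ w, ((z₁.2 w : N₁) : N) = z.2 w - b' := fun w => rfl
  have hdif₁ : ∀ g w, ((dif (rsn ρ N₁) z₁ g w : N₁) : N) = dif ρ z g w - b' := by
    intro g w
    unfold dif
    rw [Submodule.coe_add, spn_rsn hst, hz₁1, hz₁2, hsub]
    abel
  refine ⟨z₁, ⟨⟨?_, ?_⟩, ?_⟩, ?_, ?_, ?_⟩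
  · rw [IsLocallyConstant.iff_eventually_eq]
    intro g
    have h1 := (IsLocallyConstant.iff_eventually_eq _).1 hc.loc g
    have h2 := (IsLocallyConstant.iff_eventually_eq _).1 (hZ.act.loc b') g
    filter_upwards [h1, h2] with y h3 h4
    apply Subtype.ext
    rw [hz₁1, hz₁1, h3, h4]
  · intro g h
    apply Subtype.ext
    rw [Submodule.coe_add, spn_rsn hst, hz₁1, hz₁1, hz₁1, hsub, hsub, hc.mul, hZ.act.mul]
    abel
  · intro w g hg
    have h1 := hk w g hg
    unfold psi at h1 ⊢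
    apply Subtype.ext
    rw [Submodule.coe_sub, Submodule.coe_sub, spn_rsn hst, hz₁1, hz₁2, hsub, Submodule.coe_zero,
      ← h1]
    abel
  · have key : ∀ (x : N) (hx : x ∈ N₁), ∃ a ∈ spz (rsn ρ N₁) z₁, ∃ y : N₁,
        (⟨x, hx⟩ : N₁) = a + (1 - ζ) • y := by
      intro x hx
      induction hx using Submodule.span_induction with
      | mem x h =>
        obtain ⟨a, w, a', w', rfl⟩ := h
        refine ⟨dif (rsn ρ N₁) z₁ a w - dif (rsn ρ N₁) z₁ a' w',
          AddSubgroup.subset_closure ⟨a, w, a', w', rfl⟩, 0, ?_⟩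
        apply Subtype.ext
        rw [smul_zero, add_zero, Submodule.coe_sub, hdif₁, hdif₁, sub_sub_sub_cancel_right]
      | zero =>
        refine ⟨0, zero_mem _, 0, ?_⟩
        rw [smul_zero, add_zero]
        rfl
      | add x y hx' hy' hx hy =>
        obtain ⟨a, ha, u, hu⟩ := hx
        obtain ⟨a', ha', u', hu'⟩ := hy
        refine ⟨a + a', add_mem ha ha', u + u', ?_⟩
        have e : (⟨x + y, add_mem hx' hy'⟩ : N₁) = ⟨x, hx'⟩ + ⟨y, hy'⟩ := rfl
        refine e.trans ?_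
        rw [hu, hu', smul_add]
        abel
      | smul c x hx' hx =>
        obtain ⟨a, ha, u, hu⟩ := hx
        obtain ⟨n, μ, hμ⟩ := hZ.res c
        refine ⟨n • a, nsmul_mem ha n, n • u + μ • (⟨x, hx'⟩ : N₁), ?_⟩
        have e : (⟨c • x, Submodule.smul_mem _ c hx'⟩ : N₁) = c • ⟨x, hx'⟩ := rfl
        refine e.trans ?_
        have e2 : c • (⟨x, hx'⟩ : N₁) = (n : Λ) • (⟨x, hx'⟩ : N₁) +
            (1 - ζ) • (μ • (⟨x, hx'⟩ : N₁)) := by
          conv_lhs => rw [hμ]
          rw [add_smul, mul_smul]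
        have e3 : (n : Λ) • (⟨x, hx'⟩ : N₁) = n • a + (1 - ζ) • (n • u) := by
          rw [hu, smul_add, Nat.cast_smul_eq_nsmul, smul_comm, Nat.cast_smul_eq_nsmul]
        rw [e2, e3, smul_add]
        abel
    exact fun x => key x x.2
  · intro g
    rw [hz₁1, sub_add_cancel]
  · intro w
    rw [hz₁2, sub_add_cancel]

end Pool.Agent.MP72G
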