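import Pool.Agent.Lib.MP_72e2e6_nt.P4.Z.Spec

/-!
# MP_72e2e6_nt, theorem T4, part Z, module Sub3: the order of the kernel and the stable submodules
-/

namespace Pool.Agent.MP72G

open Finset Pool.Agent.MP72P

private def sub3K {G S Λ N : Type} [Group G] [TopologicalSpace G] [CommRing Λ] [AddCommGroup N]
    [Module Λ N] (ζ : Λ) (D : S → Subgroup G) (ρ : G → N → N) (N₁ : Submodule Λ N) :
    Set ((G → N₁) × (S → N₁)) :=
  {z | z ∈ Ker (rsn ρ N₁) D ∧ Gnz ζ (rsn ρ N₁) z}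

theorem tSub3 (hL : S_Lin3) (hR : S_Rsn) (hS : S_Spn) : S_Sub3 := by
  classical
  intro p _ G _ _ _ S _ d ω D T hω hH hT Λ N _ _ _ _ ζ r hr ρ hρ
  haveI : Finite (Submodule Λ N) :=
    Finite.of_injective (fun N₁ : Submodule Λ N => (N₁ : Set N)) SetLike.coe_injective
  have hfin : ∀ N₁ : {N₁ : Submodule Λ N // Stb ρ N₁}, Finite (sub3K ζ D ρ N₁.1) := by
    rintro ⟨N₁, hN⟩
    obtain ⟨_, h2, ⟨s, _, hs⟩, _⟩ := hR p G Λ N ζ ω r hr ρ hω hρ N₁
    obtain ⟨_, _, _, _, _, h6, _⟩ :=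
      hL p G S d ω D T hω hH hT N₁ s hs (rsn ρ N₁) (h2 hN).1.act
    exact (h6.subset fun z hz => hz.1).to_subtype
  haveI := Fintype.ofFinite {N₁ : Submodule Λ N // Stb ρ N₁}
  let F : (Σ N₁ : {N₁ : Submodule Λ N // Stb ρ N₁},
      (N ⧸ N₁.1.toAddSubgroup) × sub3K ζ D ρ N₁.1) → (G → N) × (S → N) := fun x =>
    (fun g => ((x.2.2.1.1 g : x.1.1) : N) + (x.2.1.out - ρ g x.2.1.out),
      fun w => ((x.2.2.1.2 w : x.1.1) : N) + x.2.1.out)
  have hsub : Ker ρ D ⊆ Set.range F := by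
    intro z hz
    obtain ⟨N₁, b, hN, hb⟩ := hS p G S ω D Λ N ζ r hr ρ hρ z hz
    have h1 : b - (QuotientAddGroup.mk b : N ⧸ N₁.toAddSubgroup).out ∈ N₁ := by
      have h2 : (QuotientAddGroup.mk b : N ⧸ N₁.toAddSubgroup) =
          QuotientAddGroup.mk (QuotientAddGroup.mk b : N ⧸ N₁.toAddSubgroup).out :=
        (Quotient.out_eq' _).symm
      have h3 := QuotientAddGroup.eq.1 h2
      have h4 : -(-b + (QuotientAddGroup.mk b : N ⧸ N₁.toAddSubgroup).out) ∈ N₁ :=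
        N₁.neg_mem h3
      have h5 : b - (QuotientAddGroup.mk b : N ⧸ N₁.toAddSubgroup).out =
          -(-b + (QuotientAddGroup.mk b : N ⧸ N₁.toAddSubgroup).out) := by abel
      rw [h5]
      exact h4
    obtain ⟨z₁, hz1, hz2, hz3, hz4⟩ := hb _ h1
    refine ⟨⟨⟨N₁, hN⟩, QuotientAddGroup.mk b, ⟨z₁, hz1, hz2⟩⟩, ?_⟩
    refine Prod.ext ?_ ?_
    · funext g
      exact (hz3 g).symm
    · funext w
      exact (hz4 w).symm
  have hcard : (Ker ρ D).ncard ≤ Nat.card (Σ N₁ : {N₁ : Submodule Λ N // Stb ρ N₁},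
      (N ⧸ N₁.1.toAddSubgroup) × sub3K ζ D ρ N₁.1) := by
    refine (Set.ncard_le_ncard hsub (Set.finite_range F)).trans ?_
    rw [← Set.image_univ]
    refine (Set.ncard_image_le Set.finite_univ).trans ?_
    rw [Set.ncard_univ]
  refine hcard.trans (le_of_eq ?_)
  rw [Nat.card_sigma]
  have h6 : ∀ N₁ : {N₁ : Submodule Λ N // Stb ρ N₁},
      Nat.card ((N ⧸ N₁.1.toAddSubgroup) × sub3K ζ D ρ N₁.1) =
        (fun N₁ : Submodule Λ N => N₁.toAddSubgroup.index *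
          {z : (G → N₁) × (S → N₁) | z ∈ Ker (rsn ρ N₁) D ∧ Gnz ζ (rsn ρ N₁) z}.ncard) N₁.1 := by
    intro N₁
    rw [Nat.card_prod]
    rfl
  rw [Finset.sum_congr rfl fun N₁ _ => h6 N₁]
  rw [← finsum_eq_sum_of_fintype]
  exact finsum_set_coe_eq_finsum_mem (M := ℕ) (f := fun N₁ : Submodule Λ N => N₁.toAddSubgroup.index *
          {z : (G → N₁) × (S → N₁) | z ∈ Ker (rsn ρ N₁) D ∧ Gnz ζ (rsn ρ N₁) z}.ncard)
    {N₁ : Submodule Λ N | Stb ρ N₁}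

end Pool.Agent.MP72G
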