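import Pool.Agent.Lib.MP_72e2e6_nt.P4.Z.Spec

/-!
# MP_72e2e6_nt, theorem T4, part Z: the average order of the kernel (helper84)
-/

namespace Pool.Agent.MP72G

open Finset Pool.Agent.MP72P

theorem tThA3 (h1 : S_Zac) (h2 : S_Rzc) (h3 : S_Rsn) (h4 : S_Cnt3) (h5 : S_Sub3) : S_ThA3 := by
  intro p _ G _ _ _ S X _ _ d A T hA Λ N _ _ _ _ ζ r hr ρ hz R hR ε hε
  classical
  have hp : p.Prime := Fact.out
  have hfinS : Finite (Submodule Λ N) :=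
    Finite.of_injective (fun N₁ : Submodule Λ N => (N₁ : Set N)) SetLike.coe_injective
  have hSf : {N₁ : Submodule Λ N | Stb ρ N₁}.Finite := Set.toFinite _
  obtain ⟨-, -, -, -, htw, -, -⟩ := h1 p G Λ N ζ A.ω r hr ρ hA.om hz
  have hRsn := h3 p G Λ N ζ A.ω r hr ρ hA.om hz
  -- one stable submodule
  have hcnt : ∀ N₁ : Submodule Λ N, ∃ e₀ : ℕ, Stb ρ N₁ → ∀ 𝒟 : AddSubgroup X, (𝒟 : Set X).Finite →
      A.F e₀ ≤ 𝒟 →
      ∑ᶠ D ∈ (𝒟 : Set X), ({z : (G → N₁) × (S → N₁) | z ∈ Ker (rsn (twz ζ ρ (A.h D)) N₁) A.D ∧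
          Gnz ζ (rsn (twz ζ ρ (A.h D)) N₁) z}.ncard : ℝ) ≤
        (Nat.card N₁ * (p : ℝ) ^ (R * d) + ε) * Nat.card 𝒟 := by
    intro N₁
    by_cases hst : Stb ρ N₁
    · obtain ⟨-, hrs, ⟨s, -, hs⟩, -⟩ := hRsn N₁
      obtain ⟨hz₁, -, htw₁⟩ := hrs hst
      obtain ⟨⟨V, hV, q, ρV, hq⟩, -⟩ := h2 p G Λ N₁ ζ A.ω s hs (rsn ρ N₁) hA.om hz₁
      obtain ⟨e₀, he₀⟩ := h4 p G S X d A T hA Λ N₁ V ζ s hs (rsn ρ N₁) hz₁ q ρV hq ε hε
      have hcV : Nat.card V ≤ p ^ R := hR N₁ hst V q hq.sur hq.ker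
      refine ⟨e₀, fun _ 𝒟 hf hle => ?_⟩
      have h6 := he₀ 𝒟 hf hle
      have h7 : ((Nat.card V : ℝ)) ^ d ≤ (p : ℝ) ^ (R * d) := by
        rw [pow_mul]
        refine pow_le_pow_left₀ (Nat.cast_nonneg _) ?_ d
        exact_mod_cast hcV
      have h8 : ∀ D, rsn (twz ζ ρ (A.h D)) N₁ = twz ζ (rsn ρ N₁) (A.h D) := fun D => htw₁ (A.h D)
      simp only [h8]
      refine h6.trans (mul_le_mul_of_nonneg_right ?_ (Nat.cast_nonneg _))
      have h9 := mul_le_mul_of_nonneg_left h7 (Nat.cast_nonneg (Nat.card N₁) : (0 : ℝ) ≤ _)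
      linarith
    · exact ⟨0, fun h => absurd h hst⟩
  choose e he using hcnt
  refine ⟨hSf.toFinset.sup e, fun 𝒟 hf hle => ?_⟩
  have hc0 : (0 : ℝ) ≤ (Nat.card 𝒟 : ℝ) := Nat.cast_nonneg _
  -- the kernels
  have hker : ∀ D : X, ((Ker (twz ζ ρ (A.h D)) A.D).ncard : ℝ) ≤
      ∑ N₁ ∈ hSf.toFinset, (N₁.toAddSubgroup.index : ℝ) *
        ({z : (G → N₁) × (S → N₁) | z ∈ Ker (rsn (twz ζ ρ (A.h D)) N₁) A.D ∧
          Gnz ζ (rsn (twz ζ ρ (A.h D)) N₁) z}.ncard : ℝ) := by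
    intro D
    have h6 := h5 p G S d A.ω A.D T hA.om hA.h2 hA.ok Λ N ζ r hr (twz ζ ρ (A.h D))
      (htw (A.h D) (hA.hom D))
    have h7 : {N₁ : Submodule Λ N | Stb (twz ζ ρ (A.h D)) N₁} = {N₁ : Submodule Λ N | Stb ρ N₁} := by
      ext N₁
      exact (hRsn N₁).1 (A.h D)
    rw [h7, finsum_mem_eq_finite_toFinset_sum _ hSf] at h6
    exact_mod_cast h6
  rw [finsum_mem_eq_finite_toFinset_sum _ hf]
  refine (Finset.sum_le_sum fun D _ => hker D).trans ?_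
  rw [Finset.sum_comm]
  have hone : ∀ N₁ ∈ hSf.toFinset, ∑ D ∈ hf.toFinset, (N₁.toAddSubgroup.index : ℝ) *
        ({z : (G → N₁) × (S → N₁) | z ∈ Ker (rsn (twz ζ ρ (A.h D)) N₁) A.D ∧
          Gnz ζ (rsn (twz ζ ρ (A.h D)) N₁) z}.ncard : ℝ) ≤
      Nat.card N * ((p : ℝ) ^ (R * d) + ε) * Nat.card 𝒟 := by
    intro N₁ hN₁
    have hst : Stb ρ N₁ := (Set.Finite.mem_toFinset hSf).1 hN₁
    have h6 := he N₁ hst 𝒟 hf ((hA.mono (Finset.le_sup (f := e) hN₁)).trans hle)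
    rw [finsum_mem_eq_finite_toFinset_sum _ hf] at h6
    rw [← Finset.mul_sum]
    obtain ⟨-, -, -, hidx⟩ := hRsn N₁
    have hidx' : (N₁.toAddSubgroup.index : ℝ) * (Nat.card N₁ : ℝ) = (Nat.card N : ℝ) := by
      exact_mod_cast hidx
    have hle1 : (N₁.toAddSubgroup.index : ℝ) ≤ (Nat.card N : ℝ) := by
      have h7 : N₁.toAddSubgroup.index ≤ Nat.card N := by
        rw [← hidx]
        exact Nat.le_mul_of_pos_right _ Nat.card_pos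
      exact_mod_cast h7
    have hi0 : (0 : ℝ) ≤ (N₁.toAddSubgroup.index : ℝ) := Nat.cast_nonneg _
    refine (mul_le_mul_of_nonneg_left h6 hi0).trans ?_
    have h8 : (N₁.toAddSubgroup.index : ℝ) * ((Nat.card N₁ * (p : ℝ) ^ (R * d) + ε) * Nat.card 𝒟) =
        (Nat.card N * (p : ℝ) ^ (R * d) + N₁.toAddSubgroup.index * ε) * Nat.card 𝒟 := by
      rw [← hidx']
      ring
    rw [h8]
    refine mul_le_mul_of_nonneg_right ?_ hc0
    have h9 := mul_le_mul_of_nonneg_right hle1 hε.le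
    linarith
  refine (Finset.sum_le_sum hone).trans ?_
  rw [Finset.sum_const, nsmul_eq_mul, Set.ncard_eq_toFinset_card _ hSf]
  apply le_of_eq
  ring

end Pool.Agent.MP72G
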