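import Pool.Agent.Lib.MP_72e2e6_nt.P4.Z.Spec

/-!
# MP_72e2e6_nt, theorem T4, part Z: the extra tests as functions of the directions
-/

set_option autoImplicit false

namespace Pool.Agent.MP72G

open Finset Pool.Agent.MP72P

section op

variable {p m : ℕ} {G V : Type} [AddCommGroup V]

private theorem th3Cong (hV : ∀ v : V, p • v = 0) {a b : ℕ} (h : (a : ZMod p) = b) (v : V) :
    a • v = b • v := by
  have h1 : ∀ c : ℕ, c • v = (c % p) • v := by
    intro c
    conv_lhs => rw [← Nat.mod_add_div c p, add_smul, mul_smul, hV, add_zero]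
  have h2 : a % p = b % p := (ZMod.natCast_eq_natCast_iff a b p).1 h
  rw [h1 a, h2, ← h1 b]

private theorem th3Mul [NeZero p] (hV : ∀ v : V, p • v = 0) (a b : ZMod p) (v : V) :
    (a * b).val • v = a.val • b.val • v := by
  rw [← mul_smul]
  refine th3Cong hV ?_ v
  rw [ZMod.natCast_zmod_val, Nat.cast_mul, ZMod.natCast_zmod_val, ZMod.natCast_zmod_val]

private theorem th3Sum [NeZero p] (hV : ∀ v : V, p • v = 0) (a b : ZMod p) (v : V) :
    (a + b).val • v = a.val • v + b.val • v := by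
  rw [← add_smul]
  refine th3Cong hV ?_ v
  rw [ZMod.natCast_zmod_val, Nat.cast_add, ZMod.natCast_zmod_val, ZMod.natCast_zmod_val]

/-- The directions `a, D 0, D 1, ...`. -/
private def th3C (a : G → ZMod p) (D : Fin m → G → ZMod p) : Fin (m + 1) → G → ZMod p :=
  Fin.cons a D

private theorem th3C_succ (a : G → ZMod p) (D : Fin m → G → ZMod p) (i : Fin m) :
    th3C a D i.succ = D i := Fin.cons_succ _ _ _

private theorem th3C_zero (a : G → ZMod p) (D : Fin m → G → ZMod p) : th3C a D 0 = a :=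
  Fin.cons_zero _ _

private theorem th3Prod (a b : G → ZMod p) (D : Fin m → G → ZMod p) (g : G)
    (t : Finset (Fin (m + 1))) (ht : (0 : Fin (m + 1)) ∉ t) :
    ∏ j ∈ t, th3C a D j g = ∏ j ∈ t, th3C b D j g := by
  refine Finset.prod_congr rfl fun j hj => ?_
  have hj0 : j ≠ 0 := fun h => ht (h ▸ hj)
  obtain ⟨i, rfl⟩ := Fin.exists_succ_eq.2 hj0
  rw [th3C_succ, th3C_succ]

private theorem th3Agr (ρV : G → V → V) (δ : Fin (m + 1) → G → ZMod p) (g : G)
    (f f' : Finset (Fin (m + 1)) → V) (h : ∀ I, (0 : Fin (m + 1)) ∉ I → f I = f' I)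
    (I : Finset (Fin (m + 1))) (hI : (0 : Fin (m + 1)) ∉ I) :
    rV ρV δ g f I = rV ρV δ g f' I := by
  unfold rV
  refine Finset.sum_congr rfl fun A _ => ?_
  rw [h (I \ A) fun h0 => hI (Finset.mem_sdiff.1 h0).1]

private theorem th3R [NeZero p] (hV : ∀ v : V, p • v = 0) (ρV : G → V → V) (a : G → ZMod p)
    (D : Fin m → G → ZMod p) (g : G) (f : Finset (Fin (m + 1)) → V) (I : Finset (Fin (m + 1))) :
    rV ρV (th3C a D) g f I = rV ρV (th3C (fun _ => 0) D) g f I +
      if (0 : Fin (m + 1)) ∈ I then (a g).val • rV ρV (th3C (fun _ => 0) D) g f (I.erase 0)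
      else 0 := by
  by_cases h0 : (0 : Fin (m + 1)) ∈ I
  · obtain ⟨J, hJ, hJI⟩ : ∃ J : Finset (Fin (m + 1)), (0 : Fin (m + 1)) ∉ J ∧ insert 0 J = I :=
      ⟨I.erase 0, Finset.notMem_erase _ _, Finset.insert_erase h0⟩
    subst hJI
    rw [if_pos h0, Finset.erase_insert hJ]
    unfold rV
    rw [Finset.sum_powerset_insert hJ, Finset.sum_powerset_insert hJ]
    have e1 : ∑ t ∈ J.powerset, (∏ j ∈ t, th3C a D j g).val • ρV g (f (insert 0 J \ t)) =
        ∑ t ∈ J.powerset, (∏ j ∈ t, th3C (fun _ => 0) D j g).val •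
          ρV g (f (insert 0 J \ t)) := by
      refine Finset.sum_congr rfl fun t ht => ?_
      rw [th3Prod a (fun _ => 0) D g t fun h => hJ (Finset.mem_powerset.1 ht h)]
    have e2 : ∑ t ∈ J.powerset, (∏ j ∈ insert 0 t, th3C a D j g).val •
          ρV g (f (insert 0 J \ insert 0 t)) =
        (a g).val • ∑ t ∈ J.powerset, (∏ j ∈ t, th3C (fun _ => 0) D j g).val •
          ρV g (f (J \ t)) := by
      rw [Finset.smul_sum]
      refine Finset.sum_congr rfl fun t ht => ?_
      have ht0 : (0 : Fin (m + 1)) ∉ t := fun h => hJ (Finset.mem_powerset.1 ht h)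
      have e3 : insert 0 J \ insert 0 t = J \ t := by
        ext i
        simp only [Finset.mem_sdiff, Finset.mem_insert, not_or]
        constructor
        · rintro ⟨h1 | h1, h2, h3⟩
          · exact absurd h1 h2
          · exact ⟨h1, h3⟩
        · rintro ⟨h1, h2⟩
          exact ⟨Or.inr h1, fun h => hJ (h ▸ h1), h2⟩
      rw [Finset.prod_insert ht0, th3C_zero, e3, th3Prod a (fun _ => 0) D g t ht0, th3Mul hV]
    have e4 : ∑ t ∈ J.powerset, (∏ j ∈ insert 0 t, th3C (fun _ => 0) D j g).val •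
        ρV g (f (insert 0 J \ insert 0 t)) = 0 := by
      refine Finset.sum_eq_zero fun t _ => ?_
      rw [Finset.prod_eq_zero (Finset.mem_insert_self 0 t) (by rw [th3C_zero]), ZMod.val_zero,
        zero_smul]
    rw [e1, e2, e4, add_zero]
  · rw [if_neg h0, add_zero]
    unfold rV
    refine Finset.sum_congr rfl fun t ht => ?_
    rw [th3Prod a (fun _ => 0) D g t fun h => h0 (Finset.mem_powerset.1 ht h)]

private theorem th3Ad {ρV : G → V → V} (hρ : ∀ g x y, ρV g (x + y) = ρV g x + ρV g y)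
    (δ : Fin m → G → ZMod p) (g : G) (f f' : Finset (Fin m) → V) :
    rV ρV δ g (f + f') = rV ρV δ g f + rV ρV δ g f' := by
  funext I
  simp only [rV, Pi.add_apply, hρ, smul_add, Finset.sum_add_distrib]

private theorem th3Sb {ρV : G → V → V} (hρ : ∀ g x y, ρV g (x + y) = ρV g x + ρV g y)
    (δ : Fin m → G → ZMod p) (g : G) (f f' : Finset (Fin m) → V) :
    rV ρV δ g (f - f') = rV ρV δ g f - rV ρV δ g f' :=
  map_sub (AddMonoidHom.mk' (rV ρV δ g) (th3Ad hρ δ g)) f f'

private theorem th3Z {ρV : G → V → V} (hρ : ∀ g x y, ρV g (x + y) = ρV g x + ρV g y) (g : G) :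
    ρV g 0 = 0 :=
  map_zero (AddMonoidHom.mk' (ρV g) (hρ g))

private theorem th3Key [NeZero p] (hV : ∀ v : V, p • v = 0) {ρV : G → V → V}
    (hρ : ∀ g x y, ρV g (x + y) = ρV g x + ρV g y) (a b : G → ZMod p)
    (D : Fin m → G → ZMod p) (g : G)
    (fx fy f0 : Finset (Fin (m + 1)) → V) (hx : ∀ I, (0 : Fin (m + 1)) ∉ I → fx I = f0 I)
    (hy : ∀ I, (0 : Fin (m + 1)) ∉ I → fy I = f0 I) :
    rV ρV (th3C (fun g => a g + b g) D) g (fx + fy - f0) =
      rV ρV (th3C a D) g fx + rV ρV (th3C b D) g fy - rV ρV (th3C (fun _ => 0) D) g f0 := by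
  funext I
  rw [Pi.sub_apply, Pi.add_apply, th3R hV ρV (fun g => a g + b g) D g, th3R hV ρV a D g fx,
    th3R hV ρV b D g fy]
  have e1 : rV ρV (th3C (fun _ => 0) D) g (fx + fy - f0) I =
      rV ρV (th3C (fun _ => 0) D) g fx I + rV ρV (th3C (fun _ => 0) D) g fy I -
        rV ρV (th3C (fun _ => 0) D) g f0 I := by
    rw [th3Sb hρ, th3Ad hρ]
    rfl
  rw [e1]
  split_ifs with h0
  · have hI : (0 : Fin (m + 1)) ∉ I.erase 0 := Finset.notMem_erase _ _
    rw [th3Agr ρV _ g (fx + fy - f0) f0 (fun J hJ => by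
        rw [Pi.sub_apply, Pi.add_apply, hx J hJ, hy J hJ]
        abel) _ hI, th3Agr ρV _ g fx f0 hx _ hI, th3Agr ρV _ g fy f0 hy _ hI, th3Sum hV]
    abel
  · abel

/-- The projection to the coefficients without the first direction. -/
private def th3P : (Finset (Fin (m + 1)) → V) →+ (Finset (Fin (m + 1)) → V) where
  toFun f I := if (0 : Fin (m + 1)) ∈ I then 0 else f I
  map_zero' := by
    funext I
    simp
  map_add' f f' := by
    funext I
    show (if (0 : Fin (m + 1)) ∈ I then 0 else f I + f' I) =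
      (if (0 : Fin (m + 1)) ∈ I then 0 else f I) + if (0 : Fin (m + 1)) ∈ I then 0 else f' I
    split_ifs
    · rw [add_zero]
    · rfl

private theorem th3P_pos (f : Finset (Fin (m + 1)) → V) (I : Finset (Fin (m + 1)))
    (h : (0 : Fin (m + 1)) ∈ I) : th3P f I = 0 := if_pos h

private theorem th3P_neg (f : Finset (Fin (m + 1)) → V) (I : Finset (Fin (m + 1)))
    (h : (0 : Fin (m + 1)) ∉ I) : th3P f I = f I := if_neg h

private theorem th3PR [NeZero p] (hV : ∀ v : V, p • v = 0) {ρV : G → V → V}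
    (hρ : ∀ g x y, ρV g (x + y) = ρV g x + ρV g y) (a : G → ZMod p) (D : Fin m → G → ZMod p)
    (g : G) (f : Finset (Fin (m + 1)) → V) :
    th3P (rV ρV (th3C a D) g f) = rV ρV (th3C (fun _ => 0) D) g (th3P f) := by
  funext I
  by_cases h0 : (0 : Fin (m + 1)) ∈ I
  · rw [th3P_pos _ _ h0]
    unfold rV
    rw [Finset.sum_eq_zero]
    intro A _
    by_cases hA : (0 : Fin (m + 1)) ∈ A
    · rw [Finset.prod_eq_zero hA (by rw [th3C_zero]), ZMod.val_zero, zero_smul]
    · rw [th3P_pos _ _ (Finset.mem_sdiff.2 ⟨h0, hA⟩), th3Z hρ, smul_zero]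
  · rw [th3P_neg _ _ h0, th3R hV, if_neg h0, add_zero]
    exact th3Agr ρV _ g f (th3P f) (fun J hJ => (th3P_neg f J hJ).symm) I h0

private theorem th3Psg (v : V) : th3P (sgE (∅ : Finset (Fin (m + 1))) v) = sgE ∅ v := by
  funext I
  by_cases h0 : (0 : Fin (m + 1)) ∈ I
  · rw [th3P_pos _ _ h0]
    unfold sgE
    rw [if_neg]
    intro h
    rw [h] at h0
    exact Finset.notMem_empty _ h0
  · rw [th3P_neg _ _ h0]

/-- The restriction to the sets of the form `I'.map succ`. -/
private def th3S : (Finset (Fin (m + 1)) → V) →+ (Finset (Fin m) → V) where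
  toFun f I := f (I.map (Fin.succEmb m))
  map_zero' := rfl
  map_add' _ _ := rfl

private theorem th3SR (ρV : G → V → V) (a : G → ZMod p) (D : Fin m → G → ZMod p)
    (g : G) (f : Finset (Fin (m + 1)) → V) :
    th3S (rV ρV (th3C a D) g f) = rV ρV D g (th3S f) := by
  funext I
  show ∑ A ∈ (I.map (Fin.succEmb m)).powerset, (∏ j ∈ A, th3C a D j g).val •
      ρV g (f (I.map (Fin.succEmb m) \ A)) =
    ∑ A ∈ I.powerset, (∏ j ∈ A, D j g).val • ρV g (f ((I \ A).map (Fin.succEmb m)))
  symm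
  refine Finset.sum_nbij (fun A => A.map (Fin.succEmb m)) (fun A hA => ?_) (fun A _ B _ h => ?_)
    (fun A hA => ?_) (fun A _ => ?_)
  · exact Finset.mem_powerset.2 (Finset.map_subset_map.2 (Finset.mem_powerset.1 hA))
  · exact Finset.map_injective _ h
  · obtain ⟨B, hB, hAB⟩ := Finset.subset_map_iff.1 (Finset.mem_powerset.1 hA)
    exact ⟨B, Finset.mem_coe.2 (Finset.mem_powerset.2 hB), hAB.symm⟩
  · rw [Finset.prod_map, ← Finset.map_sdiff]
    rfl

private theorem th3Ssg (v : V) : th3S (sgE (∅ : Finset (Fin (m + 1))) v) = sgE ∅ v := by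
  funext I
  show (if I.map (Fin.succEmb m) = ∅ then v else 0) = if I = ∅ then v else 0
  by_cases h : I = ∅
  · rw [if_pos h, if_pos (by rw [h, Finset.map_empty])]
  · rw [if_neg h, if_neg (fun h' => h (Finset.map_eq_empty.1 h'))]

/-- The multiplication by the monomial of `I`. -/
private def th3M (I : Finset (Fin m)) : (Finset (Fin m) → V) →+ (Finset (Fin m) → V) where
  toFun f I' := if I ⊆ I' then f (I' \ I) else 0
  map_zero' := by
    funext I'
    simp
  map_add' f f' := by
    funext I'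
    show (if I ⊆ I' then f (I' \ I) + f' (I' \ I) else 0) =
      (if I ⊆ I' then f (I' \ I) else 0) + if I ⊆ I' then f' (I' \ I) else 0
    split_ifs
    · rfl
    · rw [add_zero]

private theorem th3MR {ρV : G → V → V} (hρ : ∀ g x y, ρV g (x + y) = ρV g x + ρV g y)
    (I : Finset (Fin m)) (D : Fin m → G → ZMod p) (g : G) (f : Finset (Fin m) → V) :
    th3M I (rV ρV D g f) = rV ρV D g (th3M I f) := by
  funext I'
  show (if I ⊆ I' then ∑ A ∈ (I' \ I).powerset, (∏ j ∈ A, D j g).val •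
      ρV g (f ((I' \ I) \ A)) else 0) =
    ∑ A ∈ I'.powerset, (∏ j ∈ A, D j g).val •
      ρV g (if I ⊆ I' \ A then f ((I' \ A) \ I) else 0)
  by_cases h : I ⊆ I'
  · rw [if_pos h]
    refine Finset.sum_subset_zero_on_sdiff (Finset.powerset_mono.2 Finset.sdiff_subset)
      (fun A hA => ?_) (fun A hA => ?_)
    · rw [Finset.mem_sdiff, Finset.mem_powerset, Finset.mem_powerset] at hA
      rw [if_neg, th3Z hρ, smul_zero]
      intro h1
      refine hA.2 fun i hi => Finset.mem_sdiff.2 ⟨hA.1 hi, fun h2 => ?_⟩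
      exact (Finset.mem_sdiff.1 (h1 h2)).2 hi
    · rw [Finset.mem_powerset] at hA
      rw [if_pos, sdiff_right_comm]
      intro i hi
      refine Finset.mem_sdiff.2 ⟨h hi, fun h2 => ?_⟩
      exact (Finset.mem_sdiff.1 (hA h2)).2 hi
  · rw [if_neg h, Finset.sum_eq_zero]
    intro A _
    rw [if_neg (fun h1 => h (h1.trans Finset.sdiff_subset)), th3Z hρ, smul_zero]

private theorem th3Msg (I : Finset (Fin m)) (v : V) : th3M I (sgE ∅ v) = sgE I v := by
  funext I'
  show (if I ⊆ I' then (if I' \ I = ∅ then v else 0) else 0) = if I' = I then v else 0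
  by_cases h : I' = I
  · rw [if_pos h, h, if_pos (Finset.Subset.refl _), if_pos (Finset.sdiff_self _)]
  · rw [if_neg h]
    by_cases h1 : I ⊆ I'
    · rw [if_pos h1, if_neg]
      intro h2
      exact h (Finset.Subset.antisymm (Finset.sdiff_eq_empty_iff_subset.1 h2) h1)
    · rw [if_neg h1]

/-- The coefficient at the empty set. -/
private def th3E : (Finset (Fin m) → V) →+ V where
  toFun f := f ∅
  map_zero' := rfl
  map_add' _ _ := rfl

private theorem th3ER [Fact p.Prime] (ρV : G → V → V) (D : Fin m → G → ZMod p) (g : G)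
    (f : Finset (Fin m) → V) : th3E (rV ρV D g f) = ρV g (th3E f) := by
  show ∑ A ∈ (∅ : Finset (Fin m)).powerset, (∏ j ∈ A, D j g).val • ρV g (f (∅ \ A)) = ρV g (f ∅)
  have hp : 1 < p := (Fact.out : p.Prime).one_lt
  haveI : Fact (1 < p) := ⟨hp⟩
  rw [Finset.powerset_empty, Finset.sum_singleton, Finset.prod_empty, ZMod.val_one, one_smul,
    Finset.sdiff_empty]

private theorem th3Esg (v : V) : th3E (sgE (∅ : Finset (Fin m)) v) = v := by
  show (if (∅ : Finset (Fin m)) = ∅ then v else 0) = v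
  exact if_pos rfl

end op

section tr

variable {G S M : Type} [Group G] [TopologicalSpace G] [AddCommGroup M]

omit [Group G] [TopologicalSpace G] in
private theorem th3Co {d : ℕ} (T : Tst G S d) (z z' z'' : (G → M) × (S → M))
    (k : Fin (d + 1)) : T.co (z + z' - z'') k = T.co z k + T.co z' k - T.co z'' k := by
  unfold Tst.co
  cases T.y k with
  | inl g => rfl
  | inr w => rfl

end tr

theorem tThe3 (h1 : S_Lin3) (h2 : S_Act3) : S_The3 := by
  classical
  intro p _ G _ _ _ S d ω D T hω hH hT V _ _ r hr hV ρV hρ m δ hδ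
  have hadd := hρ.add
  obtain ⟨hA, hC⟩ := h2 p G ω hω V r hr hV ρV hρ m δ hδ
  have hL := h1 p G S d ω D T hω hH hT (Finset (Fin m) → V) _ hC (rV ρV δ) hA
  obtain ⟨-, -, hL3, hL4, -⟩ := hL
  have hcons : ∀ x : G → ZMod p, HomP p x → ∀ i, HomP p (th3C x δ i) := by
    intro x hx i
    refine Fin.cases ?_ (fun i => ?_) i
    · rw [th3C_zero]
      exact hx
    · rw [th3C_succ]
      exact hδ i
  have hzero : HomP p (fun _ : G => (0 : ZMod p)) :=
    ⟨IsLocallyConstant.const 0, fun _ _ => (add_zero 0).symm⟩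
  have hB := fun (x : G → ZMod p) (hx : HomP p x) =>
    h2 p G ω hω V r hr hV ρV hρ (m + 1) (th3C x δ) (hcons x hx)
  have hLx := fun (x : G → ZMod p) (hx : HomP p x) =>
    h1 p G S d ω D T hω hH hT (Finset (Fin (m + 1)) → V) _ (hB x hx).2 (rV ρV (th3C x δ))
      (hB x hx).1
  have h3 : ∀ (I : Finset (Fin m)) (c : Fin (d + 1) → V) (j : Fin d),
      Ts T (rV ρV δ) (fun k => sgE I (c k)) j univ =
        Ts T (rV ρV δ) (fun k => sgE ∅ (c k)) j (univ \ I) := by
    intro I c j
    have h := (hL4 (Finset (Fin m) → V) _ hC (rV ρV δ) hA (th3M I)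
      (fun g f => th3MR hadd I δ g f) (fun k => sgE ∅ (c k))).2 j
    have e : (fun k => th3M I (sgE ∅ (c k))) = fun k => sgE I (c k) :=
      funext fun k => th3Msg I (c k)
    rw [e] at h
    rw [h]
    exact if_pos (Finset.subset_univ I)
  refine ⟨?_, ?_, h3, ?_, ?_⟩
  · intro x hx c j I'
    obtain ⟨-, -, -, h4, -⟩ := hLx x hx
    have h := (h4 (Finset (Fin m) → V) _ hC (rV ρV δ) hA th3S
      (fun g f => th3SR ρV x δ g f) (fun k => sgE ∅ (c k))).2 j
    have e : (fun k => th3S (sgE (∅ : Finset (Fin (m + 1))) (c k))) = fun k => sgE ∅ (c k) :=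
      funext fun k => th3Ssg (c k)
    rw [e] at h
    rw [h]
    rfl
  · intro x x' hx hx' c j I hI
    have hxx : HomP p (fun g => x g + x' g) :=
      ⟨hx.loc.add hx'.loc, fun a b => by rw [hx.add, hx'.add]; ring⟩
    set y : Fin (d + 1) → Finset (Fin (m + 1)) → V := fun k => sgE ∅ (c k) with hy
    have hyP : (fun k => th3P (y k)) = y := funext fun k => th3Psg (c k)
    -- the coefficients without the first direction
    have hP : ∀ u : G → ZMod p, HomP p u →
        Zs T (rV ρV (th3C (fun _ => 0) δ)) y =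
          (fun g => th3P ((Zs T (rV ρV (th3C u δ)) y).1 g),
            fun w => th3P ((Zs T (rV ρV (th3C u δ)) y).2 w)) := by
      intro u hu
      obtain ⟨-, -, -, h4, -⟩ := hLx u hu
      have h := (h4 (Finset (Fin (m + 1)) → V) _ (hB _ hzero).2 (rV ρV (th3C (fun _ => 0) δ))
        (hB _ hzero).1 th3P (fun g f => th3PR hV hadd u δ g f) y).1
      rw [hyP] at h
      exact h
    obtain ⟨Z, hZ⟩ : ∃ Z : (G → ZMod p) → (G → Finset (Fin (m + 1)) → V) ×
        (S → Finset (Fin (m + 1)) → V), Z = fun u => Zs T (rV ρV (th3C u δ)) y := ⟨_, rfl⟩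
    have hZS : ∀ u, HomP p u → IsS T (rV ρV (th3C u δ)) y (Z u) := by
      intro u hu
      rw [hZ]
      exact (hLx u hu).1 y
    have hZ1 : ∀ u, HomP p u → ∀ g I, (0 : Fin (m + 1)) ∉ I →
        (Z u).1 g I = (Z (fun _ => 0)).1 g I := by
      intro u hu g I hI
      have h := hP u hu
      rw [hZ]
      show (Zs T (rV ρV (th3C u δ)) y).1 g I = (Zs T (rV ρV (th3C (fun _ => 0) δ)) y).1 g I
      rw [h]
      exact (th3P_neg _ _ hI).symm
    have hZ2 : ∀ u, HomP p u → ∀ w I, (0 : Fin (m + 1)) ∉ I →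
        (Z u).2 w I = (Z (fun _ => 0)).2 w I := by
      intro u hu w I hI
      have h := hP u hu
      rw [hZ]
      show (Zs T (rV ρV (th3C u δ)) y).2 w I = (Zs T (rV ρV (th3C (fun _ => 0) δ)) y).2 w I
      rw [h]
      exact (th3P_neg _ _ hI).symm
    -- additivity
    have hpsi : ∀ w g, psi (rV ρV (th3C (fun g => x g + x' g) δ)) (Z x + Z x' - Z (fun _ => 0)) w
        g = psi (rV ρV (th3C x δ)) (Z x) w g + psi (rV ρV (th3C x' δ)) (Z x') w g -
          psi (rV ρV (th3C (fun _ => 0) δ)) (Z (fun _ => 0)) w g := by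
      intro w g
      have h := th3Key hV hadd x x' δ g ((Z x).2 w) ((Z x').2 w) ((Z (fun _ => 0)).2 w)
        (hZ2 x hx w) (hZ2 x' hx' w)
      show (Z x).1 g + (Z x').1 g - (Z (fun _ => 0)).1 g - ((Z x).2 w + (Z x').2 w -
        (Z (fun _ => 0)).2 w - rV ρV (th3C (fun g => x g + x' g) δ) g
          ((Z x).2 w + (Z x').2 w - (Z (fun _ => 0)).2 w)) = _
      rw [h]
      unfold psi
      abel
    have hsol : IsS T (rV ρV (th3C (fun g => x g + x' g) δ)) y (Z x + Z x' - Z (fun _ => 0)) := by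
      refine ⟨⟨?_, fun g h => ?_⟩, fun i => ?_, fun k => ?_⟩
      · exact ((hZS x hx).coc.loc.add (hZS x' hx').coc.loc).sub (hZS _ hzero).coc.loc
      · have e := th3Key hV hadd x x' δ g ((Z x).1 h) ((Z x').1 h) ((Z (fun _ => 0)).1 h)
          (hZ1 x hx h) (hZ1 x' hx' h)
        show (Z x).1 (g * h) + (Z x').1 (g * h) - (Z (fun _ => 0)).1 (g * h) =
          (Z x).1 g + (Z x').1 g - (Z (fun _ => 0)).1 g +
            rV ρV (th3C (fun g => x g + x' g) δ) g
              ((Z x).1 h + (Z x').1 h - (Z (fun _ => 0)).1 h)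
        rw [e, (hZS x hx).coc.mul, (hZS x' hx').coc.mul, (hZS _ hzero).coc.mul]
        abel
      · rw [hpsi, (hZS x hx).ts, (hZS x' hx').ts, (hZS _ hzero).ts]
        abel
      · rw [th3Co, (hZS x hx).co, (hZS x' hx').co, (hZS _ hzero).co]
        abel
    have hsum : Z x + Z x' - Z (fun _ => 0) = Z (fun g => x g + x' g) := by
      have h := (hLx _ hxx).2.1 y _ hsol
      rw [h, hZ]
    have hz0 : ∀ w g, psi (rV ρV (th3C (fun _ => 0) δ)) (Z (fun _ => 0)) w g I = 0 := by
      intro w g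
      have h := hP _ hzero
      have hf : ∀ w, (Z (fun _ => 0)).2 w = th3P ((Z (fun _ => 0)).2 w) := by
        intro w
        rw [hZ]
        exact congrFun (congrArg Prod.snd h) w
      have hg : ∀ g, (Z (fun _ => 0)).1 g = th3P ((Z (fun _ => 0)).1 g) := by
        intro g
        rw [hZ]
        exact congrFun (congrArg Prod.fst h) g
      have hk : psi (rV ρV (th3C (fun _ => 0) δ)) (Z (fun _ => 0)) w g =
          th3P (psi (rV ρV (th3C (fun _ => 0) δ)) (Z (fun _ => 0)) w g) := by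
        unfold psi
        rw [map_sub, map_sub, th3PR hV hadd, ← hf, ← hg]
      rw [hk]
      exact th3P_pos _ _ hI
    have hTs : ∀ u, Ts T (rV ρV (th3C u δ)) y j =
        psi (rV ρV (th3C u δ)) (Z u) (T.u j) (T.e j) := by
      intro u
      rw [hZ]
      rfl
    show Ts T (rV ρV (th3C (fun g => x g + x' g) δ)) y j I =
      Ts T (rV ρV (th3C x δ)) y j I + Ts T (rV ρV (th3C x' δ)) y j I
    rw [hTs, hTs, hTs, ← hsum, hpsi, Pi.sub_apply, Pi.add_apply, hz0, sub_zero]
  · intro c j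
    have h := (hL4 V r hr ρV hρ th3E (fun g f => th3ER ρV δ g f) (fun k => sgE ∅ (c k))).2 j
    have e : (fun k => th3E (sgE (∅ : Finset (Fin m)) (c k))) = c :=
      funext fun k => th3Esg (c k)
    rw [e] at h
    rw [h]
    rfl
  · intro c j
    have e : c = ∑ I, fun k => sgE I (c k I) := by
      funext k I'
      rw [Finset.sum_apply, Finset.sum_apply]
      show c k I' = ∑ I, if I' = I then c k I else 0
      rw [Finset.sum_ite_eq Finset.univ I' (fun I => c k I), if_pos (Finset.mem_univ _)]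
    have hs : Ts T (rV ρV δ) (∑ I, fun k => sgE I (c k I)) j =
        ∑ I, Ts T (rV ρV δ) (fun k => sgE I (c k I)) j :=
      map_sum (AddMonoidHom.mk' (fun y => Ts T (rV ρV δ) y j) fun a b => hL3 a b j)
        (fun (I : Finset (Fin m)) (k : Fin (d + 1)) => sgE I (c k I)) Finset.univ
    conv_lhs => rw [e]
    rw [hs, Finset.sum_apply]
    exact Finset.sum_congr rfl fun I _ => h3 I (fun k => c k I) j

end Pool.Agent.MP72G
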