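import Pool.Agent.Lib.MP_72e2e6_nt.P4.Z.Spec

/-!
# MP_72e2e6_nt, theorem T4, part Z: the van der Corput inequality
-/

namespace Pool.Agent.MP72G

open Finset Pool.Agent.MP72P

private theorem shift {X A : Type} [AddCommGroup X] [AddCommMonoid A] (S : Finset X)
    (a : X) (h : ∀ x, x ∈ S ↔ x + a ∈ S) (f : X → A) : ∑ D ∈ S, f (D + a) = ∑ D ∈ S, f D :=
  Finset.sum_equiv (Equiv.addRight a) h (fun _ _ => rfl)

private theorem core {X : Type} [AddCommGroup X] (S R : Finset X) (hR0 : R.Nonempty)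
    (hR : ∀ a ∈ R, ∀ x, x ∈ R ↔ x + a ∈ R) (hS : ∀ a ∈ R, ∀ x, x ∈ S ↔ x + a ∈ S) (Φ : X → ℂ) :
    ‖∑ D ∈ S, Φ D‖ ^ 2 * (R.card : ℝ) ≤
      (S.card : ℝ) * ∑ x ∈ R, ‖∑ D ∈ S, Φ D * (starRingEnd ℂ) (Φ (D + x))‖ := by
  have hc : (0 : ℝ) < R.card := by
    exact_mod_cast Finset.card_pos.2 hR0
  have h1 : (R.card : ℂ) * ∑ D ∈ S, Φ D = ∑ D ∈ S, ∑ x ∈ R, Φ (D + x) := by
    rw [Finset.sum_comm, Finset.sum_congr rfl fun x hx => shift S x (hS x hx) Φ,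
      Finset.sum_const, nsmul_eq_mul]
  have h2 : ‖∑ D ∈ S, ∑ x ∈ R, Φ (D + x)‖ ^ 2 ≤
      (S.card : ℝ) * ∑ D ∈ S, ‖∑ x ∈ R, Φ (D + x)‖ ^ 2 := by
    have h3 : ‖∑ D ∈ S, ∑ x ∈ R, Φ (D + x)‖ ≤ ∑ D ∈ S, ‖∑ x ∈ R, Φ (D + x)‖ :=
      norm_sum_le _ _
    calc ‖∑ D ∈ S, ∑ x ∈ R, Φ (D + x)‖ ^ 2 ≤ (∑ D ∈ S, ‖∑ x ∈ R, Φ (D + x)‖) ^ 2 :=
          pow_le_pow_left₀ (norm_nonneg _) h3 2
      _ ≤ _ := sq_sum_le_card_mul_sum_sq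
  have h4 : ((∑ D ∈ S, ‖∑ x ∈ R, Φ (D + x)‖ ^ 2 : ℝ) : ℂ) =
      (R.card : ℂ) * ∑ x ∈ R, ∑ D ∈ S, Φ D * (starRingEnd ℂ) (Φ (D + x)) := by
    push_cast
    calc ∑ D ∈ S, ((‖∑ x ∈ R, Φ (D + x)‖ : ℝ) : ℂ) ^ 2
        = ∑ D ∈ S, ∑ x ∈ R, ∑ x' ∈ R, Φ (D + x) * (starRingEnd ℂ) (Φ (D + x')) := by
          refine Finset.sum_congr rfl fun D _ => ?_
          rw [← Complex.mul_conj', map_sum, Finset.sum_mul_sum]
      _ = ∑ x ∈ R, ∑ x' ∈ R, ∑ D ∈ S, Φ (D + x) * (starRingEnd ℂ) (Φ (D + x')) := by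
          rw [Finset.sum_comm]
          refine Finset.sum_congr rfl fun x _ => ?_
          rw [Finset.sum_comm]
      _ = ∑ x ∈ R, ∑ y ∈ R, ∑ D ∈ S, Φ D * (starRingEnd ℂ) (Φ (D + y)) := by
          refine Finset.sum_congr rfl fun x hx => ?_
          rw [← shift R x (hR x hx) fun x' =>
            ∑ D ∈ S, Φ (D + x) * (starRingEnd ℂ) (Φ (D + x'))]
          refine Finset.sum_congr rfl fun y _ => ?_
          rw [← shift S x (hS x hx) fun D => Φ D * (starRingEnd ℂ) (Φ (D + y))]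
          refine Finset.sum_congr rfl fun D _ => ?_
          rw [add_assoc D x y, add_comm x y, ← add_assoc]
      _ = _ := by rw [Finset.sum_const, nsmul_eq_mul]
  have h5 : ∑ D ∈ S, ‖∑ x ∈ R, Φ (D + x)‖ ^ 2 ≤
      (R.card : ℝ) * ∑ x ∈ R, ‖∑ D ∈ S, Φ D * (starRingEnd ℂ) (Φ (D + x))‖ := by
    have h6 : ∑ D ∈ S, ‖∑ x ∈ R, Φ (D + x)‖ ^ 2 =
        ‖((∑ D ∈ S, ‖∑ x ∈ R, Φ (D + x)‖ ^ 2 : ℝ) : ℂ)‖ := by
      rw [Complex.norm_real, Real.norm_of_nonneg (Finset.sum_nonneg fun _ _ => by positivity)]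
    rw [h6, h4, norm_mul, Complex.norm_natCast]
    exact mul_le_mul_of_nonneg_left (norm_sum_le _ _) hc.le
  have h7 : (R.card : ℝ) ^ 2 * ‖∑ D ∈ S, Φ D‖ ^ 2 ≤ (S.card : ℝ) * ((R.card : ℝ) *
      ∑ x ∈ R, ‖∑ D ∈ S, Φ D * (starRingEnd ℂ) (Φ (D + x))‖) := by
    calc (R.card : ℝ) ^ 2 * ‖∑ D ∈ S, Φ D‖ ^ 2 = ‖(R.card : ℂ) * ∑ D ∈ S, Φ D‖ ^ 2 := by
          rw [norm_mul, Complex.norm_natCast, mul_pow]
      _ = ‖∑ D ∈ S, ∑ x ∈ R, Φ (D + x)‖ ^ 2 := by rw [h1]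
      _ ≤ _ := h2.trans (mul_le_mul_of_nonneg_left h5 (by positivity))
  apply le_of_mul_le_mul_left _ hc
  linarith

theorem tVd1 : S_Vd1 := by
  intro X _ 𝒟 H hfin hH Φ
  classical
  have hHfin : (H : Set X).Finite := hfin.subset hH
  obtain ⟨S, hS⟩ := hfin.exists_finset_coe
  obtain ⟨R, hR⟩ := hHfin.exists_finset_coe
  have memS : ∀ x, x ∈ S ↔ x ∈ 𝒟 := fun x => by
    rw [← Finset.mem_coe, hS]
    rfl
  have memR : ∀ x, x ∈ R ↔ x ∈ H := fun x => by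
    rw [← Finset.mem_coe, hR]
    rfl
  have cS : Nat.card 𝒟 = S.card := by
    rw [← Set.ncard_coe_finset, hS]
    rfl
  have cR : Nat.card H = R.card := by
    rw [← Set.ncard_coe_finset, hR]
    rfl
  rw [cS, cR, ← hS, ← hR, finsum_mem_coe_finset, finsum_mem_coe_finset]
  simp only [finsum_mem_coe_finset]
  refine core S R ⟨0, (memR 0).2 H.zero_mem⟩ ?_ ?_ Φ
  · intro a ha x
    rw [memR, memR]
    exact (add_mem_cancel_right ((memR a).1 ha)).symm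
  · intro a ha x
    rw [memS, memS]
    exact (add_mem_cancel_right (hH ((memR a).1 ha))).symm

end Pool.Agent.MP72G
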