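import Pool.Agent.Lib.MP_72e2e6_nt.P3.A2.Spec
import Pool.Agent.Lib.MP_72e2e6_nt.P3.M.Defs

/-!
# MP_72e2e6_nt, theorem T4 (all Galois extensions of p-power degree), part Z (abstract part)

`p` is a prime, `G` a profinite group, `S` a finite set (of places), `ω : G → ZMod p` a character with
values different from `0`, `D w`, `w ∈ S`, subgroups of `G`, `T` a test system (`P3/A2/Defs.lean`).
`Λ` is a commutative ring with an element `ζ`, `1 + ζ + .. + ζ ^ (p - 1) = 0`, `N` a finite `Λ`-module with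
`Λ`-linear operators `ρ g`, `g ∈ G`; `V = N / (1 - ζ) N`. For a function `h : G → ZMod p` the twist of `ρ` is
`ζ ^ h(g) ρ(g)`.
-/

namespace Pool.Agent.MP72G

open Finset Pool.Agent.MP72P

/-- The modules: `1 + ζ + .. + ζ ^ (p - 1) = 0`, every element of `Λ` is an integer modulo `1 - ζ`, the
operators are linear and of the type `ActP`. -/
structure ZM (p : ℕ) {G Λ N : Type} [Group G] [TopologicalSpace G] [CommRing Λ] [AddCommGroup N]
    [Module Λ N] (ζ : Λ) (ω : G → ZMod p) (ρ : G → N → N) : Prop where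
  phi : ∑ i ∈ range p, ζ ^ i = 0
  res : ∀ x : Λ, ∃ (c : ℕ) (y : Λ), x = c + (1 - ζ) * y
  act : ActP p ω ρ
  lin : ∀ g (c : Λ) x, ρ g (c • x) = c • ρ g x

/-- The twist. -/
def twz {p : ℕ} {G Λ N : Type} [CommRing Λ] [AddCommGroup N] [Module Λ N] (ζ : Λ) (ρ : G → N → N)
    (h : G → ZMod p) (g : G) (x : N) : N := ζ ^ (h g).val • ρ g x

/-- The reduction `q : N → V = N / (1 - ζ) N`. -/
structure Rdz {G Λ N V : Type} [CommRing Λ] [AddCommGroup N] [Module Λ N] [AddCommGroup V]
    (ζ : Λ) (ρ : G → N → N) (q : N →+ V) (ρV : G → V → V) : Prop where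
  sur : Function.Surjective q
  ker : ∀ x, q x = 0 ↔ ∃ y, x = (1 - ζ) • y
  eqv : ∀ g x, q (ρ g x) = ρV g (q x)

/-- The action of `G` on `V[t_j] / (t_j ^ 2)` (functions on the set of the subsets of `Fin m`): `g` acts as the
composition of `ρV g` and the multiplication by `∏ (1 + δ_j g * t_j)`. -/
def rV {p m : ℕ} {G V : Type} [AddCommGroup V] (ρV : G → V → V) (δ : Fin m → G → ZMod p) (g : G)
    (f : Finset (Fin m) → V) : Finset (Fin m) → V :=
  fun I => ∑ A ∈ I.powerset, (∏ j ∈ A, δ j g).val • ρV g (f (I \ A))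

/-- The value of the pair `z` at the coset `g D_w`. -/
def dif {G S M : Type} [AddCommGroup M] (ρ : G → M → M) (z : (G → M) × (S → M)) (g : G) (w : S) : M :=
  z.1 g + ρ g (z.2 w)

/-- The subgroup generated by the differences of the values of the pair `z`. -/
def spz {G S M : Type} [AddCommGroup M] (ρ : G → M → M) (z : (G → M) × (S → M)) : AddSubgroup M :=
  AddSubgroup.closure {x | ∃ g w g' w', x = dif ρ z g w - dif ρ z g' w'}

/-- The differences of the values of the pair `z` generate `M`. -/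
def Gen {G S M : Type} [AddCommGroup M] (ρ : G → M → M) (z : (G → M) × (S → M)) : Prop :=
  spz ρ z = ⊤

/-- The differences of the values of the pair `z` generate `N` modulo `(1 - ζ) N`. -/
def Gnz {G S Λ N : Type} [CommRing Λ] [AddCommGroup N] [Module Λ N] (ζ : Λ) (ρ : G → N → N)
    (z : (G → N) × (S → N)) : Prop :=
  ∀ x : N, ∃ a ∈ spz ρ z, ∃ y : N, x = a + (1 - ζ) • y

/-- The submodule `N₁` is stable. -/
def Stb {G Λ N : Type} [CommRing Λ] [AddCommGroup N] [Module Λ N] (ρ : G → N → N)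
    (N₁ : Submodule Λ N) : Prop := ∀ g, ∀ x ∈ N₁, ρ g x ∈ N₁

open Classical in
/-- The restriction of the operators to a (stable) submodule. -/
noncomputable def rsn {G Λ N : Type} [CommRing Λ] [AddCommGroup N] [Module Λ N] (ρ : G → N → N)
    (N₁ : Submodule Λ N) (g : G) (x : N₁) : N₁ :=
  if h : ρ g x ∈ N₁ then ⟨ρ g x, h⟩ else 0

/-- The data: a character `ω`, subgroups `D w`, homomorphisms `h x`, `x ∈ X`, finite subgroups `F e` of
`X`. -/
structure Fz (p : ℕ) (G S X : Type) [Group G] [AddCommGroup X] where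
  ω : G → ZMod p
  D : S → Subgroup G
  h : X → G → ZMod p
  F : ℕ → AddSubgroup X

/-- The directions `δ` are independent modulo `N0`. -/
def Ipd (p : ℕ) {X : Type} [AddCommGroup X] (N0 : AddSubgroup X) {m : ℕ} (δ : Fin m → X) : Prop :=
  ∀ c : Fin m → ZMod p, ∑ i, (c i).val • δ i ∈ N0 → c = 0

/-- The extra tests of the pair with values in `V[t_j] / (t_j ^ 2)` with the coordinates `c ∈ V`, in the
directions `δ`. -/
noncomputable def Tx {p d : ℕ} {G S X V : Type} [Group G] [TopologicalSpace G] [AddCommGroup X]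
    [AddCommGroup V] (A : Fz p G S X) (T : Tst G S d) (ρV : G → V → V) {m : ℕ} (δ : Fin m → X)
    (c : Fin (d + 1) → V) (j : Fin d) : Finset (Fin m) → V :=
  Ts T (rV ρV fun i => A.h (δ i)) (fun k => sgE ∅ (c k)) j

/-- The directions `δ` are closed: the coefficients of the extra tests at `I ≠ ∅` are `0`. -/
def Cld {p d : ℕ} {G S X V : Type} [Group G] [TopologicalSpace G] [AddCommGroup X]
    [AddCommGroup V] (A : Fz p G S X) (T : Tst G S d) (ρV : G → V → V) {m : ℕ} (δ : Fin m → X) :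
    Prop :=
  ∀ (c : Fin (d + 1) → V) (j : Fin d) (I : Finset (Fin m)), I ≠ ∅ → Tx A T ρV δ c j I = 0

/-- Nondegeneracy for `V`: for all directions `δ` which are independent modulo `N0` and closed, all
`η ≠ 0` which vanish on the extra tests and all coordinates `c` of a pair in the kernel whose
differences generate `V`, the last coefficient of the extra tests in the directions `x, δ` is not in the
kernel of `η` for some `x`. -/
def NdV {p d : ℕ} {G S X V : Type} [Group G] [TopologicalSpace G] [AddCommGroup X]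
    [AddCommGroup V] (A : Fz p G S X) (T : Tst G S d) (ρV : G → V → V) : Prop :=
  ∃ N0 : AddSubgroup X, (∀ x, p • x ∈ N0) ∧
    (∀ C : ℕ, ∃ e, C * {x | x ∈ A.F e ∧ x ∈ N0}.ncard ≤ {x | x ∈ A.F e}.ncard) ∧
    ∀ (m : ℕ) (δ : Fin m → X), Ipd p N0 δ → Cld A T ρV δ →
      ∀ η : (Fin d → V) →+ ZMod p, η ≠ 0 → (∀ c, η (Ts T ρV c) = 0) →
      ∀ c : Fin (d + 1) → V, (∀ j, Ts T ρV c j = 0) → Gen ρV (Zs T ρV c) →
        ∃ x : X, η (fun j => Tx A T ρV (Fin.cons x δ : Fin (m + 1) → X) c j univ) ≠ 0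

/-- The axioms. -/
structure Fz.Good {p d : ℕ} {G S X : Type} [Group G] [TopologicalSpace G] [AddCommGroup X]
    (A : Fz p G S X) (T : Tst G S d) : Prop where
  om : ChO p A.ω
  hom : ∀ x, HomP p (A.h x)
  add : ∀ x y g, A.h (x + y) g = A.h x g + A.h y g
  h2 : H2Z p A.ω
  fin : ∀ e, (A.F e : Set X).Finite
  mono : Monotone A.F
  exh : ∀ x, ∃ e, x ∈ A.F e
  ok : T.Ok p A.ω A.D
  nd : ∀ (V : Type) [AddCommGroup V] [Finite V] (r : ℕ), Nat.card V = p ^ r →
    (∀ v : V, p • v = 0) → ∀ ρV : G → V → V, ActP p A.ω ρV → NdV A T ρV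

end Pool.Agent.MP72G
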