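import Pool.Agent.Lib.MP_72e2e6_nt.P4.Z.Spec

/-!
# The directions `x` such that `x, δ` is closed form a subgroup of bounded index
-/

set_option autoImplicit false

namespace Pool.Agent.MP72G

open Finset Pool.Agent.MP72P

private theorem kdl_cons {p m : ℕ} {G S X : Type} [Group G] [AddCommGroup X] (A : Fz p G S X)
    (δ : Fin m → X) (x : X) :
    (fun i => A.h ((Fin.cons x δ : Fin (m + 1) → X) i)) =
      (Fin.cons (A.h x) (fun i => A.h (δ i)) : Fin (m + 1) → G → ZMod p) := by
  funext i
  refine Fin.cases ?_ (fun i => ?_) i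
  · rfl
  · rfl

private theorem kdl_map {m : ℕ} (I : Finset (Fin (m + 1))) (h0 : (0 : Fin (m + 1)) ∉ I) :
    (univ.filter fun i : Fin m => i.succ ∈ I).map (Fin.succEmb m) = I := by
  ext i
  simp only [mem_map, mem_filter, mem_univ, true_and, Fin.coe_succEmb]
  constructor
  · rintro ⟨a, ha, rfl⟩
    exact ha
  · intro hi
    refine Fin.cases (fun h => absurd h h0) (fun k hk => ⟨k, hk, rfl⟩) i hi

theorem tKdl (h1 : S_The3) : S_Kdl := by
  intro p _ G _ _ _ S X _ d A T hA V _ _ r hr hpV ρV hact m δ hδ
  obtain ⟨hT1, hT2, -, -, -⟩ := h1 p G S d A.ω A.D T hA.om hA.h2 hA.ok V r hr hpV ρV hact m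
    (fun i => A.h (δ i)) (fun i => hA.hom (δ i))
  have hTx : ∀ (x : X) (c : Fin (d + 1) → V) (j : Fin d) (I : Finset (Fin (m + 1))),
      Tx A T ρV (Fin.cons x δ : Fin (m + 1) → X) c j I =
        Ts T (rV ρV (Fin.cons (A.h x) (fun i => A.h (δ i)) : Fin (m + 1) → G → ZMod p))
          (fun k => sgE ∅ (c k)) j I := by
    intro x c j I
    unfold Tx
    rw [kdl_cons]
  let W : Type := (Fin (d + 1) → V) → Fin d → {I : Finset (Fin (m + 1)) // (0 : Fin (m + 1)) ∈ I} → V
  let B : X →+ W := AddMonoidHom.mk'
    (fun x c j I => Tx A T ρV (Fin.cons x δ : Fin (m + 1) → X) c j I.1) (by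
      intro x y
      funext c j I
      have hh : A.h (x + y) = fun g => A.h x g + A.h y g := funext fun g => hA.add x y g
      change Tx A T ρV (Fin.cons (x + y) δ : Fin (m + 1) → X) c j I.1 =
        Tx A T ρV (Fin.cons x δ : Fin (m + 1) → X) c j I.1 +
          Tx A T ρV (Fin.cons y δ : Fin (m + 1) → X) c j I.1
      rw [hTx, hTx, hTx, hh]
      exact hT2 (A.h x) (A.h y) (hA.hom x) (hA.hom y) c j I.1 I.2)
  have hB : ∀ x, B x = fun c j I => Tx A T ρV (Fin.cons x δ : Fin (m + 1) → X) c j I.1 :=
    fun x => rfl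
  refine ⟨B.ker, Nat.card W, ?_, ?_⟩
  · intro x
    rw [AddMonoidHom.mem_ker]
    constructor
    · intro hx c j I hI
      by_cases h0 : (0 : Fin (m + 1)) ∈ I
      · have := congrFun (congrFun (congrFun hx c) j) ⟨I, h0⟩
        exact this
      · have hm := kdl_map I h0
        have hne : (univ.filter fun i : Fin m => i.succ ∈ I) ≠ ∅ := by
          intro he
          rw [he] at hm
          exact hI hm.symm
        rw [hTx]
        conv_lhs => rw [← hm]
        rw [hT1 (A.h x) (hA.hom x) c j]
        exact hδ c j _ hne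
    · intro hx
      rw [hB]
      funext c j I
      exact hx c j I.1 (fun he => by
        have := I.2
        rw [he] at this
        exact absurd this (Finset.notMem_empty _))
  · intro F hF
    have : Finite F := hF.to_subtype
    have : Finite W := inferInstance
    let f : F →+ W := B.comp F.subtype
    have h2 : Nat.card f.ker * f.ker.index = Nat.card F := AddSubgroup.card_mul_index f.ker
    have h3 : f.ker.index ≤ Nat.card W := by
      rw [AddSubgroup.index_ker]
      exact Nat.card_le_card_of_injective (Subtype.val : f.range → W) Subtype.val_injective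
    have h4 : Nat.card f.ker = {x | x ∈ F ∧ x ∈ B.ker}.ncard := by
      rw [← Nat.card_coe_set_eq]
      refine Nat.card_congr ⟨fun x => ⟨x.1.1, x.1.2, ?_⟩, fun x => ⟨⟨x.1, x.2.1⟩, ?_⟩, ?_, ?_⟩
      · have := x.2
        rw [AddMonoidHom.mem_ker] at this ⊢
        exact this
      · have := x.2.2
        rw [AddMonoidHom.mem_ker] at this ⊢
        exact this
      · intro x
        rfl
      · intro x
        rfl
    rw [← h2, h4, mul_comm]
    exact Nat.mul_le_mul_right _ h3

end Pool.Agent.MP72G
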