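import Pool.Agent.Lib.MP_72e2e6_nt.P4.Z.Defs

/-!
# MP_72e2e6_nt, theorem T4, part Z (abstract part)

The proofs are complete in the docstrings; every module is independent (used statements are
hypotheses): file `P4/Z/<Name>.lean` (import this file only) with `theorem t<Name> : S_<Name>` or
`theorem t<Name> (h1 : S_X) (h2 : S_Y) .. : S_<Name>` (the used statements in the order of the
docstring), namespace `Pool.Agent.MP72G`, `open Pool.Agent.MP72P`, other declarations `private`. The modules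
`P3/A2/<Name>.lean` (Act2, Lin2, Der2, The2, EqM2, Cnt2, ThA2) prove very similar statements (with a ring
in the place of the module `N`): look at them and copy. All types are in `Type`. Statements `S_X` of the
parts `P3` are in the namespace `Pool.Agent.MP72P`.
-/

namespace Pool.Agent.MP72G

open Finset Pool.Agent.MP72P

/-- **Zac** (250 lines). Basic facts.

Proof. (1) `(ζ - 1) ∑ ζ ^ i = ζ ^ p - 1`. (2) from (1), `ZMod.val_add`. (3) `∑_{i < p} ζ ^ i = p - (1 - ζ) (..)`. (4) `(1 - ζ) ^ p`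
is in `p Λ` (the binomial formula: `1 + (-1) ^ p ζ ^ p` plus multiples of `p`, and `ζ ^ p = 1`; for `p = 2` it is
`2 + ..`), so `(1 - ζ) ^ (p r) ∈ p ^ r Λ`, and `p ^ r` kills `N`. (5) `h 1 = 0`, (2), `ActP.mul`, linearity; `loc`: `h` and
`g ↦ ρ g x` are locally constant; `uni`: if `k` is as in `ActP.uni` for `g` then `k + 1` has the same property
(`ρ (g ^ p ^ (k + 1))` is the `p`-th power of `ρ (g ^ p ^ k)`), and `h (g ^ p ^ (k + 1)) = 0`. (6) from (2).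
(7) `1 - ζ ^ n = (1 - ζ) (1 + ζ + .. + ζ ^ (n - 1)) = (1 - ζ) (n + (1 - ζ) (..))`; the product over `i`; the natural numbers
`∏ (τ i).val` and `(∏ τ i).val` are congruent modulo `p`, and `p ∈ (1 - ζ) Λ` by (3). -/
def S_Zac : Prop :=
  ∀ (p : ℕ) [Fact p.Prime] (G Λ N : Type) [Group G] [TopologicalSpace G] [IsTopologicalGroup G]
    [CommRing Λ] [AddCommGroup N] [Module Λ N] [Finite N] (ζ : Λ) (ω : G → ZMod p) (r : ℕ),
    Nat.card N = p ^ r → ∀ ρ : G → N → N, ChO p ω → ZM p ζ ω ρ →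
      ζ ^ p = 1 ∧
      (∀ a b : ZMod p, ζ ^ (a + b).val = ζ ^ a.val * ζ ^ b.val) ∧
      (∃ u : Λ, (p : Λ) = (1 - ζ) * u) ∧
      (∃ k : ℕ, ∀ x : N, (1 - ζ) ^ k • x = 0) ∧
      (∀ h : G → ZMod p, HomP p h → ZM p ζ ω (twz ζ ρ h)) ∧
      (∀ h h' : G → ZMod p, twz ζ (twz ζ ρ h) h' = twz ζ ρ (fun g => h g + h' g)) ∧
      ∀ (m : ℕ) (τ : Fin m → ZMod p), ∃ u : Λ,
        ∏ i, (1 - ζ ^ (τ i).val) = (1 - ζ) ^ m * ((∏ i, τ i).val + (1 - ζ) * u)

/-- **Rzc** (200 lines, uses `S_Zac`). The reduction.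

Proof. (1) `V = N ⧸ N'`, `N'` the subgroup of the elements `(1 - ζ) y` (stable under `ρ g` by linearity). (2) `V` is
a quotient of `N`, so it is finite and its order divides `p ^ r`. (3) `p x = (1 - ζ) u x` (`S_Zac` (3)). (4) from the
properties of `ρ` and `sur` (for `loc`: `g ↦ q (ρ g x)` is locally constant). (5) `q (ζ ^ i x) = q x` as
`(1 - ζ ^ i) x ∈ (1 - ζ) N`, and `q ((1 - ζ) y) = 0`. -/
def S_Rzc : Prop :=
  ∀ (p : ℕ) [Fact p.Prime] (G Λ N : Type) [Group G] [TopologicalSpace G] [IsTopologicalGroup G]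
    [CommRing Λ] [AddCommGroup N] [Module Λ N] [Finite N] (ζ : Λ) (ω : G → ZMod p) (r : ℕ),
    Nat.card N = p ^ r → ∀ ρ : G → N → N, ChO p ω → ZM p ζ ω ρ →
      (∃ (V : Type) (_ : AddCommGroup V) (q : N →+ V) (ρV : G → V → V), Rdz ζ ρ q ρV) ∧
      ∀ (V : Type) [AddCommGroup V] (q : N →+ V) (ρV : G → V → V), Rdz ζ ρ q ρV →
        Finite V ∧ (∃ s ≤ r, Nat.card V = p ^ s) ∧ (∀ v : V, p • v = 0) ∧ ActP p ω ρV ∧
        (∀ h : G → ZMod p, Rdz ζ (twz ζ ρ h) q ρV) ∧ (∀ (i : ℕ) (x : N), q (ζ ^ i • x) = q x) ∧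
        ∀ x : N, q ((1 - ζ) • x) = 0

/-- **Lin3** (300 lines, uses `S_Uni2`). Elementary properties of `Zs`, `Ts`, `Ker` for finite modules.

Proof. (1), (2): `S_Uni2` (1) with `v = 0`. (3): sums of solutions are solutions. (4) the image of the solution
under `f` is the solution for the images. (5) as in `P3/A2/Lin2.lean` (8): if `z ∈ Ker` then the tests and the extra
tests of `z` are `0` (`ti`, `ej`), so `z = Zs T ρ (T.co z)` by (2) and the `Ts` are `0`; conversely if the `Ts` are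
`0` then for `z = Zs T ρ y` and every `w` the function `psi ρ z w` on `D w` is a crossed homomorphism which vanishes
at all tests, so it is `0` by `S_Uni2` (2). (6) `Ker` is bijective to a set of functions `Fin (d + 1) → M`. (7), (8)
clear. -/
def S_Lin3 : Prop :=
  ∀ (p : ℕ) [Fact p.Prime] (G : Type) [Group G] [TopologicalSpace G] [IsTopologicalGroup G]
    (S : Type) (d : ℕ) (ω : G → ZMod p) (D : S → Subgroup G) (T : Tst G S d), ChO p ω → H2Z p ω →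
    T.Ok p ω D → ∀ (M : Type) [AddCommGroup M] [Finite M] (r : ℕ), Nat.card M = p ^ r →
      ∀ ρ : G → M → M, ActP p ω ρ →
      (∀ y, IsS T ρ y (Zs T ρ y)) ∧
      (∀ y z, IsS T ρ y z → z = Zs T ρ y) ∧
      (∀ y y' j, Ts T ρ (y + y') j = Ts T ρ y j + Ts T ρ y' j) ∧
      (∀ (M' : Type) [AddCommGroup M'] [Finite M'] (r' : ℕ), Nat.card M' = p ^ r' →
        ∀ ρ' : G → M' → M', ActP p ω ρ' → ∀ f : M →+ M', (∀ g x, f (ρ g x) = ρ' g (f x)) →
          ∀ y, Zs T ρ' (fun k => f (y k)) =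
              (fun g => f ((Zs T ρ y).1 g), fun w => f ((Zs T ρ y).2 w)) ∧
            ∀ j, Ts T ρ' (fun k => f (y k)) j = f (Ts T ρ y j)) ∧
      Set.BijOn (fun z : (G → M) × (S → M) => (T.co z : Fin (d + 1) → M)) (Ker ρ D)
        {y | ∀ j, Ts T ρ y j = 0} ∧
      (Ker ρ D).Finite ∧
      (∀ z ∈ Ker ρ D, ∀ z' ∈ Ker ρ D, z + z' ∈ Ker ρ D ∧ z - z' ∈ Ker ρ D) ∧
      ∀ b : M, ((fun g => b - ρ g b, fun _ => b) : (G → M) × (S → M)) ∈ Ker ρ D

/-- **Act3** (150 lines). The action on `V[t_j] / (t_j ^ 2)` is of the type `ActP`.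

Proof. As in `P3/A2/Act2.lean`: `rV ρV δ g (rV ρV δ h f) I = ∑_{C ⊆ I} (∑_{A ⊆ C} (∏ j ∈ A, δ j g).val * (∏ j ∈ C \ A, δ j h).val) •
ρV (g h) (f (I \ C))`, `ρV g` commutes with integer multiples, integer multiples depend only on the class modulo `p`
(`p • v = 0`) and the inner sum is congruent to `∏ j ∈ C, (δ j g + δ j h)` (`Finset.prod_add`). `δ j 1 = 0`. `uni`: for `k`
as in `ActP.uni` for `ρV`, `k + 1` also has the property, and `δ j (g ^ p ^ (k + 1)) = 0`. Locally constant: clear, the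
set of the functions is finite. (2) the number of the functions. -/
def S_Act3 : Prop :=
  ∀ (p : ℕ) [Fact p.Prime] (G : Type) [Group G] [TopologicalSpace G] [IsTopologicalGroup G]
    (ω : G → ZMod p), ChO p ω → ∀ (V : Type) [AddCommGroup V] [Finite V] (r : ℕ),
      Nat.card V = p ^ r → (∀ v : V, p • v = 0) → ∀ ρV : G → V → V, ActP p ω ρV →
      ∀ (m : ℕ) (δ : Fin m → G → ZMod p), (∀ i, HomP p (δ i)) →
        ActP p ω (rV ρV δ) ∧ Nat.card (Finset (Fin m) → V) = p ^ (r * 2 ^ m)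

/-- **Der3** (350 lines, uses `S_Uni2`, `S_Zac`, `S_Rzc`, `S_Lin3`, `S_Act3`). The `m`-th derivative of `Ts` in
the directions `δ 0, ..., δ (m - 1)`.

Proof. See `P3/A2/Der2.lean`. For `g ∈ G` let `δ(g) ∈ Fin m → ZMod p` be the vector of the `δ i g`. Let
`M = (Fin m → ZMod p) → N` with the operators `(ρ' g f) τ = ρ g (f (τ - δ(g)))` (of the type `ActP`: `δ (g h) = δ(g) + δ(h)`;
for `k` as in `ActP.uni` for `ρ`, use `k + 1`), and let `𝓩` be the pair for `M` with the tests `0` and the coordinates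
`τ ↦ if τ = 0 then y k else 0` (`Zs`). `F = psi ρ' 𝓩 (T.u j) (T.e j) ∈ M`. (a) For `c : Fin m → Bool` let
`c · τ = ∑ i, if c i then τ i else 0`. The additive map `e_c : M → N`, `f ↦ ∑ τ, ζ ^ (c · τ).val • f τ` satisfies
`e_c (ρ' g f) = ζ ^ (c · δ(g)).val • ρ g (e_c f)` (substitute `τ ↦ τ + δ(g)`; `S_Zac` (2), linearity). By `S_Lin3` (4)
(`S_Zac` (5) for the twist; `g ↦ c · δ(g)` is a `HomP`) `Ts T (twz ζ ρ (c · δ)) y j = e_c F`. (b)
`∑ c, (∏ i, sb (c i)) • e_c F = ∑ τ, (∏ i, (1 - ζ ^ (τ i).val)) • F τ`, which by `S_Zac` (7) is `(1 - ζ) ^ m • x` with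
`x = ∑ τ, ((∏ i, τ i).val + (1 - ζ) u_τ) • F τ`, and `q x = ∑ τ, (∏ i, τ i).val • q (F τ)` (`S_Rzc`). (c) The additive map
`e : M → (Finset (Fin m) → V)`, `(e f) I = ∑ τ, (∏ i ∈ I, τ i).val • q (f τ)` satisfies `e (ρ' g f) = rV ρV δ g (e f)`:
substitute `τ ↦ τ + δ(g)` and expand `∏ i ∈ I, (τ i + δ i g)` (`Finset.prod_add`; integer multiples in `V` depend only on
the class modulo `p`). `e (τ ↦ if τ = 0 then y k else 0) = sgE ∅ (q (y k))`. By `S_Lin3` (4) `Ts T (rV ρV δ) (..) j = e F`, and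
`(e F) univ = q x`. -/
def S_Der3 : Prop :=
  ∀ (p : ℕ) [Fact p.Prime] (G : Type) [Group G] [TopologicalSpace G] [IsTopologicalGroup G]
    (S : Type) (d : ℕ) (ω : G → ZMod p) (D : S → Subgroup G) (T : Tst G S d), ChO p ω → H2Z p ω →
    T.Ok p ω D → ∀ (Λ N V : Type) [CommRing Λ] [AddCommGroup N] [Module Λ N] [Finite N]
    [AddCommGroup V] (ζ : Λ) (r : ℕ), Nat.card N = p ^ r → ∀ ρ : G → N → N, ZM p ζ ω ρ →
    ∀ (q : N →+ V) (ρV : G → V → V), Rdz ζ ρ q ρV →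
    ∀ (m : ℕ) (δ : Fin m → G → ZMod p), (∀ i, HomP p (δ i)) → ∀ (y : Fin (d + 1) → N) (j : Fin d),
      ∃ x : N, ∑ c : Fin m → Bool, (∏ i, sb (c i)) •
          Ts T (twz ζ ρ (fun g => ∑ i, if c i then δ i g else 0)) y j = (1 - ζ) ^ m • x ∧
        q x = Ts T (rV ρV δ) (fun k => sgE ∅ (q (y k))) j univ

/-- **The3** (350 lines, uses `S_Lin3`, `S_Act3`). The extra tests `Tx` as functions of the directions.

Proof. All statements follow from `S_Lin3` (2), (4) (`S_Act3`); see `P3/A2/The2.lean`. (1) the map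
`f ↦ (I' ↦ f (I'.map Fin.succEmb))` is additive and compatible with the actions for `cons x δ` and `δ` (the subsets of
`I'.map succ` are the images of the subsets of `I'`) and maps `sgE ∅ c` to `sgE ∅ c`. (2) let `Z_x`, `Z_x'` be the pairs
(`Zs`) for `cons x δ`, `cons x' δ`. By the argument of (1) (applied to the pairs: `S_Lin3` (4)) `Z_x I = Z_x' I` for `0 ∉ I`. Let
`ξ I = Z_x I` for `0 ∉ I` and `ξ I = Z_x I + Z_x' I` for `0 ∈ I` (both components). Then `ξ` has the properties of the pair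
for `cons (x + x') δ`: for `f_x, f_x'` with `f_x I = f_x' I` for `0 ∉ I` and `f` defined in the same way, for `0 ∈ I`
`(rV ρV δ_(x+x') g f) I = (rV ρV δ_x g f_x) I + (rV ρV δ_x' g f_x') I` (split the sum over `A ⊆ I` into `0 ∉ A` and `0 ∈ A`; in the
second part `(x + x') g = x g + x' g` and `f (I \ A) = f_x (I \ A) = f_x' (I \ A)`). (3) the map
`f ↦ (I' ↦ if I ⊆ I' then f (I' \ I) else 0)` commutes with `rV ρV δ g` and maps `sgE ∅ v` to `sgE I v`. (4) the map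
`f ↦ f ∅` satisfies `(rV ρV δ g f) ∅ = ρV g (f ∅)`. (5) `c k = ∑ I, sgE I (c k I)`, `S_Lin3` (3) and (3). -/
def S_The3 : Prop :=
  ∀ (p : ℕ) [Fact p.Prime] (G : Type) [Group G] [TopologicalSpace G] [IsTopologicalGroup G]
    (S : Type) (d : ℕ) (ω : G → ZMod p) (D : S → Subgroup G) (T : Tst G S d), ChO p ω → H2Z p ω →
    T.Ok p ω D → ∀ (V : Type) [AddCommGroup V] [Finite V] (r : ℕ), Nat.card V = p ^ r →
    (∀ v : V, p • v = 0) → ∀ ρV : G → V → V, ActP p ω ρV →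
    ∀ (m : ℕ) (δ : Fin m → G → ZMod p), (∀ i, HomP p (δ i)) →
      (∀ x : G → ZMod p, HomP p x → ∀ (c : Fin (d + 1) → V) (j : Fin d) (I' : Finset (Fin m)),
        Ts T (rV ρV (Fin.cons x δ : Fin (m + 1) → G → ZMod p)) (fun k => sgE ∅ (c k)) j
          (I'.map (Fin.succEmb m)) = Ts T (rV ρV δ) (fun k => sgE ∅ (c k)) j I') ∧
      (∀ x x' : G → ZMod p, HomP p x → HomP p x' → ∀ (c : Fin (d + 1) → V) (j : Fin d)
        (I : Finset (Fin (m + 1))), 0 ∈ I →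
        Ts T (rV ρV (Fin.cons (fun g => x g + x' g) δ : Fin (m + 1) → G → ZMod p))
            (fun k => sgE ∅ (c k)) j I =
          Ts T (rV ρV (Fin.cons x δ : Fin (m + 1) → G → ZMod p)) (fun k => sgE ∅ (c k)) j I +
            Ts T (rV ρV (Fin.cons x' δ : Fin (m + 1) → G → ZMod p)) (fun k => sgE ∅ (c k)) j I) ∧
      (∀ (I : Finset (Fin m)) (c : Fin (d + 1) → V) (j : Fin d),
        Ts T (rV ρV δ) (fun k => sgE I (c k)) j univ =
          Ts T (rV ρV δ) (fun k => sgE ∅ (c k)) j (univ \ I)) ∧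
      (∀ (c : Fin (d + 1) → V) (j : Fin d),
        Ts T (rV ρV δ) (fun k => sgE ∅ (c k)) j ∅ = Ts T ρV c j) ∧
      ∀ (c : Fin (d + 1) → Finset (Fin m) → V) (j : Fin d),
        Ts T (rV ρV δ) c j univ =
          ∑ I, Ts T (rV ρV δ) (fun k => sgE ∅ (c k I)) j (univ \ I)

/-- **Vd1** (120 lines). The van der Corput inequality with one direction from a subgroup.

Proof. `∑_D Φ D = (1 / #H) ∑_D ∑_{x ∈ H} Φ (D + x)` (`D ↦ D + x` is a bijection of `𝒟`). By the inequality of Cauchy and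
Schwarz `‖∑_D Φ D‖ ^ 2 ≤ #𝒟 ∑_D ‖(1 / #H) ∑_x Φ (D + x)‖ ^ 2 = (#𝒟 / #H ^ 2) ∑_{x, x'} ∑_D Φ (D + x) conj Φ (D + x')
= (#𝒟 / #H ^ 2) ∑_{x, x'} ∑_D Φ D conj Φ (D + (x' - x)) = (#𝒟 / #H) ∑_{x ∈ H} ∑_D Φ D conj Φ (D + x)`. (`‖Φ‖ ≤ 1` is not
needed.) -/
def S_Vd1 : Prop :=
  ∀ (X : Type) [AddCommGroup X] (𝒟 H : AddSubgroup X), (𝒟 : Set X).Finite → H ≤ 𝒟 →
    ∀ Φ : X → ℂ,
      ‖∑ᶠ D ∈ (𝒟 : Set X), Φ D‖ ^ 2 * Nat.card H ≤
        Nat.card 𝒟 * ∑ᶠ x ∈ (H : Set X), ‖∑ᶠ D ∈ (𝒟 : Set X), Φ D * (starRingEnd ℂ) (Φ (D + x))‖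

/-- **Kdl** (200 lines, uses `S_The3`). The directions `x` such that `x, δ` is closed.

Proof. Let `B x : (Fin (d + 1) → V) → Fin d → Finset (Fin (m + 1)) → V`, `B x c j I = Tx A T ρV (cons x δ) c j I` if `0 ∈ I` and `0`
otherwise: additive in `x` by `S_The3` (2) (`A.add`, `A.hom`; `A.h ((cons x δ) i) = (cons (A.h x) (A.h ∘ δ)) i`), with values in a
finite group. `cons x δ` is closed iff `B x = 0`: for `I ≠ ∅`, `0 ∉ I`, `I = I'.map succ`, `I' ≠ ∅`, the coefficient is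
`Tx A T ρV δ c j I' = 0` (`S_The3` (1)). So `K` is the kernel of an additive map to a finite group, and `C` is its
order: `#F ≤ C #(F ∩ K)` for every finite subgroup `F`. -/
def S_Kdl : Prop :=
  ∀ (p : ℕ) [Fact p.Prime] (G : Type) [Group G] [TopologicalSpace G] [IsTopologicalGroup G]
    (S X : Type) [AddCommGroup X] (d : ℕ) (A : Fz p G S X) (T : Tst G S d), A.Good T →
    ∀ (V : Type) [AddCommGroup V] [Finite V] (r : ℕ), Nat.card V = p ^ r →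
    (∀ v : V, p • v = 0) → ∀ ρV : G → V → V, ActP p A.ω ρV →
    ∀ (m : ℕ) (δ : Fin m → X), Cld A T ρV δ →
      ∃ (K : AddSubgroup X) (C : ℕ), (∀ x, x ∈ K ↔ Cld A T ρV (Fin.cons x δ : Fin (m + 1) → X)) ∧
        ∀ F : AddSubgroup X, (F : Set X).Finite → Nat.card F ≤ C * {x | x ∈ F ∧ x ∈ K}.ncard

/-- **EqM3** (350 lines, uses `S_Zac`, `S_Rzc`, `S_Lin3`, `S_Der3`, `S_Vd1`, `S_Kdl`). Equidistribution.

Proof. Let `N0` be as in `NdV` (`A.Good.nd` for `V`, `ρV`; `S_Rzc`). For `δ : Fin i → X` and `D ∈ X` let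
`F_δ(D) = ∑ c : Fin i → Bool, (∏ k, sb (c k)) • Ts T (twz ζ ρ (A.h (D + ∑ k, if c k then δ k else 0))) y ∈ (Fin d → N)`. Then
`F_δ(D) - F_δ(D + x) = F_(cons x δ)(D)` (split `c` into `c 0` and the others). Let `χ D = e (F_δ D)`.
(a) `F_δ(D) = (1 - ζ) ^ i • x'` with `q ∘ x' = (j ↦ Tx A T ρV δ (q ∘ y) j univ)`, for every `D` (`S_Der3` for the operators
`twz ζ ρ (A.h D)`, `S_Zac` (5), (6), `S_Rzc`, and `A.h` additive). So for `i = m + 1` `e (F_δ(D)) = E (η (..))` does not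
depend on `D`, `E : ZMod p → ℂ` the standard character.
(b) Claim for `i ≤ m`, by induction on `m - i`: for every `δ : Fin i → X` with `Ipd p N0 δ` and `Cld A T ρV δ` and every
`ε > 0` there is `e₀` with `‖∑_{D ∈ 𝒟} e (F_δ D)‖ ≤ ε #𝒟` for all finite subgroups `𝒟 ≥ A.F e₀`.
`i = m`: let `x₀` be as in `NdV` for `δ`, `η` and the coordinates `q ∘ y` (`Ts T ρV (q ∘ y) = 0` and `Gen` are hypotheses), and
`x₀ ∈ A.F e₀` (`A.exh`). By (a) `e (F_δ(D)) * conj (e (F_δ (D + x₀))) = e (F_(cons x₀ δ) (D)) = c ≠ 1` for all `D`, so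
`e (F_δ(D)) = c e (F_δ(D + x₀))`, and the sum over `𝒟 ∋ x₀` satisfies `Σ = c Σ`, so `Σ = 0`.
From `i + 1` to `i`: let `K`, `C` be as in `S_Kdl` for `δ`, and `e'` such that (big) `B #{x ∈ A.F e' ∩ N0} ≤ #A.F e'` with a
natural number `B ≥ 2 C p ^ i / ε ^ 2`. Let `H = A.F e' ∩ K`, so `#A.F e' ≤ C #H`. For `x ∈ H` `cons x δ` is closed; the number of
the `x ∈ H` such that `cons x δ` is not independent modulo `N0` is at most `p ^ i #(A.F e' ∩ N0)`: if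
`(c 0).val x + ∑ (c (k + 1)).val δ k ∈ N0`, `c ≠ 0`, then `c 0 ≠ 0` (`δ` is independent), so (multiply by `(c 0)⁻¹.val`, `p X ⊆ N0`)
`x` is in one of the `p ^ i` classes `∑ (c' k).val δ k + N0`, and two elements of `A.F e'` in the same class differ by an
element of `A.F e' ∩ N0`. So this number is at most `(ε ^ 2 / 2) #H`. For the other `x ∈ H` let `e₁(x)` be as in the claim for
`cons x δ` and `ε ^ 2 / 2`. Let `e₀` be the maximum of `e'` and the `e₁(x)` (`A.mono`). By `S_Vd1`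
`‖Σ‖ ^ 2 #H ≤ #𝒟 (∑_{x good} (ε ^ 2 / 2) #𝒟 + ∑_{x bad} #𝒟) ≤ ε ^ 2 #𝒟 ^ 2 #H`.
(c) `i = 0`, `δ` empty: independent and closed (there is no `I ≠ ∅`), `F_δ(D) = Ts T (twz ζ ρ (A.h D)) y`. -/
def S_EqM3 : Prop :=
  ∀ (p : ℕ) [Fact p.Prime] (G : Type) [Group G] [TopologicalSpace G] [IsTopologicalGroup G]
    (S X : Type) [AddCommGroup X] (d : ℕ) (A : Fz p G S X) (T : Tst G S d), A.Good T →
    ∀ (Λ N V : Type) [CommRing Λ] [AddCommGroup N] [Module Λ N] [Finite N] [AddCommGroup V] (ζ : Λ)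
    (r : ℕ), Nat.card N = p ^ r → ∀ ρ : G → N → N, ZM p ζ A.ω ρ →
    ∀ (q : N →+ V) (ρV : G → V → V), Rdz ζ ρ q ρV → ∀ y : Fin (d + 1) → N,
    (∀ j, Ts T ρV (fun k => q (y k)) j = 0) → Gen ρV (Zs T ρV fun k => q (y k)) →
    ∀ (e : AddChar (Fin d → N) ℂ) (m : ℕ) (η : (Fin d → V) →+ ZMod p), η ≠ 0 →
    (∀ c, η (Ts T ρV c) = 0) →
    (∀ x : Fin d → N, e ((1 - ζ) ^ (m + 1) • x) = ZMod.stdAddChar (η fun j => q (x j))) →
    ∀ ε : ℝ, 0 < ε → ∃ e₀ : ℕ, ∀ 𝒟 : AddSubgroup X, (𝒟 : Set X).Finite → A.F e₀ ≤ 𝒟 →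
      ‖∑ᶠ D ∈ (𝒟 : Set X), e (Ts T (twz ζ ρ (A.h D)) y)‖ ≤ ε * Nat.card 𝒟

/-- **Chz** (200 lines, uses `S_Zac`, `S_Rzc`). Characters of `N ^ d`.

Proof. (1) Let `e` be nontrivial on `(1 - ζ) N ^ d` and let `m` be maximal such that `e` is nontrivial on
`(1 - ζ) ^ (m + 1) N ^ d` (`1 - ζ` is nilpotent on `N`, `S_Zac` (4)). `x ↦ e ((1 - ζ) ^ (m + 1) x)` is trivial on
`(1 - ζ) N ^ d`, the kernel of `N ^ d → V ^ d`, so it is `E'(q ∘ x)` with a character `E'` of `V ^ d`, `E' ≠ 1`; its values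
are `p`-th roots of unity (`p V = 0`), so `E' = E ∘ η` with the standard character `E` of `ZMod p` (injective, its values are
all `p`-th roots of unity). (2) these are the characters of `V ^ d`. -/
def S_Chz : Prop :=
  ∀ (p : ℕ) [Fact p.Prime] (G : Type) [Group G] [TopologicalSpace G] [IsTopologicalGroup G]
    (d : ℕ) (Λ N V : Type) [CommRing Λ] [AddCommGroup N] [Module Λ N] [Finite N] [AddCommGroup V]
    (ζ : Λ) (ω : G → ZMod p) (r : ℕ), Nat.card N = p ^ r → ∀ ρ : G → N → N, ChO p ω → ZM p ζ ω ρ →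
    ∀ (q : N →+ V) (ρV : G → V → V), Rdz ζ ρ q ρV →
      (∀ e : AddChar (Fin d → N) ℂ, (∀ x : Fin d → N, e ((1 - ζ) • x) = 1) ∨
        ∃ (m : ℕ) (η : (Fin d → V) →+ ZMod p), η ≠ 0 ∧
          ∀ x : Fin d → N, e ((1 - ζ) ^ (m + 1) • x) = ZMod.stdAddChar (η fun j => q (x j))) ∧
      {e : AddChar (Fin d → N) ℂ | ∀ x : Fin d → N, e ((1 - ζ) • x) = 1}.ncard ≤ Nat.card V ^ d

/-- **Cnt3** (350 lines, uses `S_Zac`, `S_Rzc`, `S_Lin3`, `S_EqM3`, `S_Chz`). The average number of the elements of `Ker`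
whose differences generate `N` modulo `(1 - ζ) N`.

Proof. Let `q`, `V`, `ρV` be as in `S_Rzc`. Write `ρ_D = twz ζ ρ (A.h D)` (`S_Zac` (5)). Let `𝒴` be the set of the
`y : Fin (d + 1) → N` with `Ts T ρV (q ∘ y) = 0` and `Gen ρV (Zs T ρV (q ∘ y))`. By `S_Lin3` (5) the `z ∈ Ker ρ_D` correspond
to the `y` with `Ts T ρ_D y = 0`, `z = Zs T ρ_D y`; by `S_Lin3` (4) (`f = q`, `S_Rzc`) `q ∘ z = Zs T ρV (q ∘ y)` and
`Ts T ρV (q ∘ y) = 0`; `q` maps the differences of `z` to the differences of `q ∘ z`, so `Gnz ζ ρ_D z` implies `Gen`. So the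
number for `D` is at most `#{y ∈ 𝒴 | Ts T ρ_D y = 0} = #N ^ (- d) ∑_{y ∈ 𝒴} ∑_e e (Ts T ρ_D y)`, `e` the characters of `N ^ d`. Sum
over `D ∈ 𝒟`. (a) The `e` which are trivial on `(1 - ζ) N ^ d`: at most `#V ^ d`, contribution at most
`#N ^ (- d) #V ^ d #𝒴 ≤ #N #V ^ d` for each `D`. (b) The other `e`: let `m`, `η` be as in `S_Chz`. If `η (Ts T ρV c) ≠ 0` for some
`c` then `∑_{y ∈ 𝒴} e (Ts T ρ_D y) = 0` for every `D`: `𝒴` is stable under `y ↦ y + (1 - ζ) ^ (m + 1) • x`, and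
`e (Ts T ρ_D (y + (1 - ζ) ^ (m + 1) • x)) = e (Ts T ρ_D y) * E (η (Ts T ρV (q ∘ x)))` (`S_Lin3` (3), (4) for `(1 - ζ) ^ (m + 1)` and
for `q`), and the sum of the second factor over `x ∈ N ^ (d + 1)` is `0`, a nontrivial character (`c = q ∘ x` for some `x`). If
`η (Ts T ρV c) = 0` for all `c` use `S_EqM3` with `ε / #N ^ (d + 1)`; `e₀` the maximum over the finitely many `(y, e)`
(`A.mono`). -/
def S_Cnt3 : Prop :=
  ∀ (p : ℕ) [Fact p.Prime] (G : Type) [Group G] [TopologicalSpace G] [IsTopologicalGroup G]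
    (S X : Type) [AddCommGroup X] (d : ℕ) (A : Fz p G S X) (T : Tst G S d), A.Good T →
    ∀ (Λ N V : Type) [CommRing Λ] [AddCommGroup N] [Module Λ N] [Finite N] [AddCommGroup V] (ζ : Λ)
    (r : ℕ), Nat.card N = p ^ r → ∀ ρ : G → N → N, ZM p ζ A.ω ρ →
    ∀ (q : N →+ V) (ρV : G → V → V), Rdz ζ ρ q ρV →
    ∀ ε : ℝ, 0 < ε → ∃ e₀ : ℕ, ∀ 𝒟 : AddSubgroup X, (𝒟 : Set X).Finite → A.F e₀ ≤ 𝒟 →
      ∑ᶠ D ∈ (𝒟 : Set X), ({z : (G → N) × (S → N) | z ∈ Ker (twz ζ ρ (A.h D)) A.D ∧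
          Gnz ζ (twz ζ ρ (A.h D)) z}.ncard : ℝ) ≤
        (Nat.card N * Nat.card V ^ d + ε) * Nat.card 𝒟

/-- **Spn** (250 lines). The submodule generated by the differences.

Proof. Let `N₁` be the `Λ`-submodule generated by the differences `dif ρ z g w - dif ρ z g' w'`. Stable:
`ρ g' (dif ρ z g w) = dif ρ z (g' g) w - z.1 g'` (`Coc`), linearity. Let `b = z.2 w₀ = dif ρ z 1 w₀` (`z.1 1 = 0`). For every
`b'` with `b - b' ∈ N₁` the pair `z - (g ↦ b' - ρ g b', w ↦ b')` is `N₁`-valued: `z.2 w - b' = (dif 1 w - dif 1 w₀) + (b - b')`,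
`z.1 g - b' + ρ g b' = (dif g w₀ - dif 1 w₀) + (b - b') - ρ g (b - b')`. It is in `Ker`, and its
differences are the differences of `z` (`dif` of the constant pair is `b'`); `rsn ρ N₁ g x = ρ g x`. `Gnz`: `x ∈ N₁` is a sum of
`λ_i d_i` with differences `d_i`, `λ_i = c_i + (1 - ζ) μ_i` (`ZM.res`), so `x = ∑ c_i d_i + (1 - ζ) ∑ μ_i d_i`. (The set of the
`x ∈ N₁` of this form is a submodule which contains the differences.) -/
def S_Spn : Prop :=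
  ∀ (p : ℕ) [Fact p.Prime] (G : Type) [Group G] [TopologicalSpace G] [IsTopologicalGroup G]
    (S : Type) [Nonempty S] (ω : G → ZMod p) (D : S → Subgroup G) (Λ N : Type) [CommRing Λ]
    [AddCommGroup N] [Module Λ N] [Finite N] (ζ : Λ) (r : ℕ), Nat.card N = p ^ r →
    ∀ ρ : G → N → N, ZM p ζ ω ρ → ∀ z ∈ Ker ρ D,
      ∃ (N₁ : Submodule Λ N) (b : N), Stb ρ N₁ ∧ ∀ b' : N, b - b' ∈ N₁ →
        ∃ z₁ ∈ Ker (rsn ρ N₁) D, Gnz ζ (rsn ρ N₁) z₁ ∧
          (∀ g, z.1 g = (z₁.1 g : N) + (b' - ρ g b')) ∧ ∀ w, z.2 w = (z₁.2 w : N) + b'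

/-- **Rsn** (120 lines, uses `S_Zac`). The restriction to a stable submodule.

Proof. `rsn ρ N₁ g x = ρ g x` as elements of `N`. (2): `ζ ^ i x ∈ N₁` iff `x ∈ N₁` (`ζ ^ p = 1`), so `N₁` is stable for the
twist. (3) both sides are `ζ ^ (h g).val • ρ g x`. (4) subgroups and the index. -/
def S_Rsn : Prop :=
  ∀ (p : ℕ) [Fact p.Prime] (G Λ N : Type) [Group G] [TopologicalSpace G] [IsTopologicalGroup G]
    [CommRing Λ] [AddCommGroup N] [Module Λ N] [Finite N] (ζ : Λ) (ω : G → ZMod p) (r : ℕ),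
    Nat.card N = p ^ r → ∀ ρ : G → N → N, ChO p ω → ZM p ζ ω ρ →
      ∀ N₁ : Submodule Λ N,
        (∀ h : G → ZMod p, Stb (twz ζ ρ h) N₁ ↔ Stb ρ N₁) ∧
        (Stb ρ N₁ → ZM p ζ ω (rsn ρ N₁) ∧ (∀ g (x : N₁), ((rsn ρ N₁ g x : N₁) : N) = ρ g x) ∧
          ∀ h : G → ZMod p, rsn (twz ζ ρ h) N₁ = twz ζ (rsn ρ N₁) h) ∧
        (∃ s ≤ r, Nat.card N₁ = p ^ s) ∧
        N₁.toAddSubgroup.index * Nat.card N₁ = Nat.card N

/-- **Sub3** (200 lines, uses `S_Lin3`, `S_Rsn`, `S_Spn`). The order of the kernel and the stable submodules.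

Proof. For every stable `N₁` choose a set of representatives `R(N₁)` of `N / N₁` (`index` elements). For `z ∈ Ker ρ D` let `N₁`, `b`
be as in `S_Spn`, `b' ∈ R(N₁)` with `b - b' ∈ N₁` and `z₁` as there. The map `z ↦ (N₁, b', z₁)` is injective. (There are
finitely many submodules; the kernels are finite, `S_Lin3` for `N₁`, `S_Rsn`.) -/
def S_Sub3 : Prop :=
  ∀ (p : ℕ) [Fact p.Prime] (G : Type) [Group G] [TopologicalSpace G] [IsTopologicalGroup G]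
    (S : Type) [Nonempty S] (d : ℕ) (ω : G → ZMod p) (D : S → Subgroup G) (T : Tst G S d),
    ChO p ω → H2Z p ω → T.Ok p ω D → ∀ (Λ N : Type) [CommRing Λ] [AddCommGroup N] [Module Λ N]
    [Finite N] (ζ : Λ) (r : ℕ), Nat.card N = p ^ r → ∀ ρ : G → N → N, ZM p ζ ω ρ →
      (Ker ρ D).ncard ≤ ∑ᶠ N₁ ∈ {N₁ : Submodule Λ N | Stb ρ N₁}, N₁.toAddSubgroup.index *
        {z : (G → N₁) × (S → N₁) | z ∈ Ker (rsn ρ N₁) D ∧ Gnz ζ (rsn ρ N₁) z}.ncard

/-- **ThA3** (250 lines, uses `S_Zac`, `S_Rzc`, `S_Rsn`, `S_Cnt3`, `S_Sub3`; the main theorem of part Z). The average order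
of `Ker`.

Proof. Sum `S_Sub3` (for `ρ_D = twz ζ ρ (A.h D)`; the stable submodules are the same for all `D`, `S_Rsn` (1)) over `D ∈ 𝒟`. For
stable `N₁` apply `S_Cnt3` to `N₁`, `rsn ρ N₁` (`S_Rsn`) with a reduction `V₁` (`S_Rzc` (1)) and `ε' = ε`:
`∑_D #{..} ≤ (#N₁ #V₁ ^ d + ε) #𝒟`, `#V₁ ≤ p ^ R`, `index * #N₁ = #N`, `index ≤ #N`. So the sum is at most
`∑_{N₁} (#N p ^ (R d) + #N ε) #𝒟`. `e₀` is the maximum over the `N₁`. -/
def S_ThA3 : Prop :=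
  ∀ (p : ℕ) [Fact p.Prime] (G : Type) [Group G] [TopologicalSpace G] [IsTopologicalGroup G]
    (S X : Type) [Nonempty S] [AddCommGroup X] (d : ℕ) (A : Fz p G S X) (T : Tst G S d), A.Good T →
    ∀ (Λ N : Type) [CommRing Λ] [AddCommGroup N] [Module Λ N] [Finite N] (ζ : Λ)
    (r : ℕ), Nat.card N = p ^ r → ∀ ρ : G → N → N, ZM p ζ A.ω ρ →
    ∀ R : ℕ, (∀ N₁ : Submodule Λ N, Stb ρ N₁ → ∀ (V₁ : Type) [AddCommGroup V₁] (q₁ : N₁ →+ V₁),
      Function.Surjective q₁ → (∀ x, q₁ x = 0 ↔ ∃ y, x = (1 - ζ) • y) → Nat.card V₁ ≤ p ^ R) →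
    ∀ ε : ℝ, 0 < ε → ∃ e₀ : ℕ, ∀ 𝒟 : AddSubgroup X, (𝒟 : Set X).Finite → A.F e₀ ≤ 𝒟 →
      ∑ᶠ D ∈ (𝒟 : Set X), ((Ker (twz ζ ρ (A.h D)) A.D).ncard : ℝ) ≤
        Nat.card N * {N₁ : Submodule Λ N | Stb ρ N₁}.ncard * (p ^ (R * d) + ε) * Nat.card 𝒟

end Pool.Agent.MP72G
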