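import Pool.Agent.Lib.MP_72e2e6_nt.P4.Z.Spec

/-!
# MP_72e2e6_nt, theorem T4, part Z, module Zac: basic facts
-/

namespace Pool.Agent.MP72G

open Finset Pool.Agent.MP72P

private theorem zac_geom {Λ : Type} [CommRing Λ] (ζ : Λ) (n : ℕ) :
    ∃ v : Λ, ∑ i ∈ range n, ζ ^ i = n + (1 - ζ) * v := by
  refine ⟨-∑ i ∈ range n, ∑ j ∈ range i, ζ ^ j, ?_⟩
  rw [mul_neg, Finset.mul_sum]
  simp_rw [mul_neg_geom_sum]
  rw [Finset.sum_sub_distrib, Finset.sum_const, Finset.card_range, nsmul_eq_mul, mul_one]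
  ring

private theorem zac_pow {Λ : Type} [CommRing Λ] (ζ : Λ) (n : ℕ) :
    ∃ v : Λ, 1 - ζ ^ n = (1 - ζ) * (n + (1 - ζ) * v) := by
  obtain ⟨v, hv⟩ := zac_geom ζ n
  exact ⟨v, by rw [← hv, mul_neg_geom_sum]⟩

private theorem zac_prod {Λ ι : Type} [CommRing Λ] (ζ : Λ) (n : ι → ℕ) (s : Finset ι) :
    ∃ w : Λ, ∏ i ∈ s, (1 - ζ ^ n i) = (1 - ζ) ^ s.card * (((∏ i ∈ s, n i : ℕ) : Λ) + (1 - ζ) * w) := by
  classical
  induction s using Finset.induction_on with
  | empty => exact ⟨0, by simp⟩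
  | insert a s ha ih =>
    obtain ⟨w, hw⟩ := ih
    obtain ⟨v, hv⟩ := zac_pow ζ (n a)
    refine ⟨v * ((∏ i ∈ s, n i : ℕ) : Λ) + (n a : Λ) * w + (1 - ζ) * (v * w), ?_⟩
    rw [Finset.prod_insert ha, Finset.prod_insert ha, Finset.card_insert_of_notMem ha, hw, hv]
    push_cast
    ring

private theorem zac_twz {p : ℕ} {G Λ N : Type} [CommRing Λ] [AddCommGroup N] [Module Λ N] (ζ : Λ)
    (ρ : G → N → N) (h : G → ZMod p) (g : G) (x : N) : twz ζ ρ h g x = ζ ^ (h g).val • ρ g x := rfl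

theorem tZac : S_Zac := by
  intro p hp G Λ N _ _ _ _ _ _ _ ζ ω r hcard ρ hω hZ
  have hp0 : p.Prime := hp.out
  have h1 : ζ ^ p = 1 := by
    have h := mul_geom_sum ζ p
    rw [hZ.phi, mul_zero] at h
    exact (sub_eq_zero.1 h.symm)
  have h2 : ∀ a b : ZMod p, ζ ^ (a + b).val = ζ ^ a.val * ζ ^ b.val := by
    intro a b
    rw [ZMod.val_add, ← pow_add, ← pow_eq_pow_mod _ h1]
  have h3 : ∃ u : Λ, (p : Λ) = (1 - ζ) * u := by
    obtain ⟨v, hv⟩ := zac_geom ζ p
    rw [hZ.phi] at hv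
    exact ⟨-v, by linear_combination -hv⟩
  have h6 : ∀ h h' : G → ZMod p, twz ζ (twz ζ ρ h) h' = twz ζ ρ (fun g => h g + h' g) := by
    intro h h'
    funext g x
    rw [zac_twz, zac_twz, zac_twz, h2, mul_comm, mul_smul]
  refine ⟨h1, h2, h3, ?_, ?_, h6, ?_⟩
  · have hu : ∃ u : Λ, (1 - ζ) ^ p = p * u := by
      obtain ⟨s, hs⟩ := exists_add_pow_prime_eq hp0 (1 : Λ) (-ζ)
      rw [← sub_eq_add_neg, one_pow, neg_pow, h1, mul_one] at hs
      rcases hp0.eq_two_or_odd' with h | h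
      · refine ⟨1 - ζ * s, ?_⟩
        rw [hs, h]
        push_cast
        ring
      · refine ⟨-ζ * s, ?_⟩
        rw [hs, h.neg_one_pow]
        ring
    obtain ⟨u, hu⟩ := hu
    refine ⟨p * r, fun x => ?_⟩
    rw [pow_mul, hu, mul_pow, mul_comm, mul_smul]
    have hx : ((p : Λ) ^ r) • x = 0 := by
      have h4 : ((p ^ r : ℕ) : Λ) • x = (p ^ r : ℕ) • x := Nat.cast_smul_eq_nsmul Λ _ x
      have h5 : (p ^ r : ℕ) • x = 0 := by
        rw [← hcard]
        exact card_nsmul_eq_zero'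
      rw [← Nat.cast_pow, h4, h5]
    rw [hx, smul_zero]
  · intro h hh
    have hh1 : h 1 = 0 := by
      have h4 := hh.add 1 1
      rw [mul_one] at h4
      exact left_eq_add.1 h4
    have hhp : ∀ g (n : ℕ), h (g ^ n) = n * h g := by
      intro g n
      induction n with
      | zero => rw [pow_zero, hh1, Nat.cast_zero, zero_mul]
      | succ n ih =>
        rw [pow_succ, hh.add, ih]
        push_cast
        ring
    refine ⟨hZ.phi, hZ.res, ⟨?_, ?_, ?_, ?_, ?_⟩, ?_⟩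
    · intro g x y
      rw [zac_twz, zac_twz, zac_twz, hZ.act.add, smul_add]
    · intro x
      rw [zac_twz, hh1, ZMod.val_zero, pow_zero, one_smul, hZ.act.one]
    · intro a b x
      rw [zac_twz, zac_twz, zac_twz, hh.add, h2, hZ.act.mul, hZ.lin, mul_smul]
    · intro x
      rw [IsLocallyConstant.iff_eventually_eq]
      intro g
      have h4 := (IsLocallyConstant.iff_eventually_eq h).1 hh.loc g
      have h5 := (IsLocallyConstant.iff_eventually_eq _).1 (hZ.act.loc x) g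
      filter_upwards [h4, h5] with y h7 h8
      rw [zac_twz, zac_twz, h7, h8]
    · intro g
      obtain ⟨k, hk⟩ := hZ.act.uni g
      refine ⟨k + 1, fun x => ?_⟩
      have h4 : h (g ^ p ^ (k + 1)) = 0 := by
        rw [hhp, pow_succ, Nat.cast_mul, CharP.cast_eq_zero (ZMod p) p, mul_zero, zero_mul]
      have h5 : ∀ (n : ℕ) (x : N), ρ ((g ^ p ^ k) ^ n) x = (((ω g).val ^ p ^ k) ^ n) • x := by
        intro n
        induction n with
        | zero =>
          intro x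
          rw [pow_zero, pow_zero, one_smul, hZ.act.one]
        | succ n ih =>
          intro x
          rw [pow_succ', pow_succ, hZ.act.mul, ih, hk, ← mul_smul, mul_comm]
      rw [zac_twz, h4, ZMod.val_zero, pow_zero, one_smul, pow_succ, pow_mul, h5, ← pow_mul]
    · intro g c x
      rw [zac_twz, zac_twz, hZ.lin, smul_comm]
  · intro m τ
    obtain ⟨u, hu⟩ := h3
    obtain ⟨w, hw⟩ := zac_prod ζ (fun i => (τ i).val) (Finset.univ : Finset (Fin m))
    rw [Finset.card_univ, Fintype.card_fin] at hw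
    have h4 : (∏ i, τ i).val = (∏ i, (τ i).val) % p := by
      rw [← ZMod.val_natCast]
      congr 1
      push_cast
      exact Finset.prod_congr rfl fun i _ => (ZMod.natCast_zmod_val _).symm
    have h5 : (∏ i, (τ i).val) = p * ((∏ i, (τ i).val) / p) + (∏ i, τ i).val := by
      rw [h4]
      exact (Nat.div_add_mod _ _).symm
    refine ⟨u * (((∏ i, (τ i).val) / p : ℕ) : Λ) + w, ?_⟩
    rw [hw]
    have h7 : ((∏ i, (τ i).val : ℕ) : Λ) =
        (1 - ζ) * u * (((∏ i, (τ i).val) / p : ℕ) : Λ) + ((∏ i, τ i).val : ℕ) := by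
      conv_lhs => rw [h5]
      rw [Nat.cast_add, Nat.cast_mul, hu]
    rw [h7]
    ring

end Pool.Agent.MP72G
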